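import Pool.Agent.KAG.Stmts

/-!
# The number of 2-faces at a vertex
-/

set_option autoImplicit false

namespace KAG

open Finset QMark TPH
open scoped InnerProductSpace

namespace MAtV

theorem decomp (y : E) : y = ∑ k : Fin 3, y k • (Pi.single k 1 : E) := by
  ext j
  simp [Pi.single_apply]

/-- A linear functional in the coordinates. -/
theorem lin (Θ : E4 ≃ₗ[ℝ] (E × ℝ)) (z : E4) : ∃ u : E, ∀ y : E,
    ⟪Θ.symm (y, 0), z⟫_ℝ = ip y u := by
  refine ⟨fun k => ⟪Θ.symm ((Pi.single k 1 : E), 0), z⟫_ℝ, fun y => ?_⟩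
  have h1 : ((y, 0) : E × ℝ) = ∑ k : Fin 3, y k • ((Pi.single k 1 : E), (0 : ℝ)) := by
    refine Prod.ext ?_ ?_
    · rw [Prod.fst_sum]
      exact decomp y
    · rw [Prod.snd_sum]
      simp
  rw [h1, map_sum, sum_inner, Fin.sum_univ_three]
  simp only [map_smul, real_inner_smul_left, ip]

theorem repr (Θ : E4 ≃ₗ[ℝ] (E × ℝ)) (z : E4) : ∃ (u : E) (c : ℝ), ∀ y : E4, (Θ y).2 = 1 →
    ⟪y, z⟫_ℝ = ip (Θ y).1 u + c := by
  obtain ⟨u, hu⟩ := lin Θ z
  refine ⟨u, ⟪Θ.symm (0, 1), z⟫_ℝ, fun y hy => ?_⟩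
  have h1 : y = Θ.symm ((Θ y).1, 0) + Θ.symm (0, 1) := by
    rw [← map_add, Prod.mk_add_mk, add_zero, zero_add, ← hy]
    exact (Θ.symm_apply_apply y).symm
  calc ⟪y, z⟫_ℝ = ⟪Θ.symm ((Θ y).1, 0) + Θ.symm (0, 1), z⟫_ℝ := by rw [← h1]
    _ = ip (Θ y).1 u + ⟪Θ.symm (0, 1), z⟫_ℝ := by rw [inner_add_left, hu]

end MAtV

open MAtV in
/-- **AtV.** -/
theorem t_AtV : StmtAtV := by
  classical
  intro ι _ _ v h1 x hx S hS
  rcases (ac v x).eq_empty_or_nonempty with he | ⟨i₁, hi₁⟩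
  · have : S = ∅ := by
      rw [Finset.eq_empty_iff_forall_notMem]
      intro s hs
      obtain ⟨a1, a2, -⟩ := hS s hs
      have h0 : s = ∅ := by
        rw [he] at a2
        exact Finset.subset_empty.1 a2
      rw [h0, Finset.card_empty] at a1
      exact absurd a1 (by norm_num)
    rw [this, Finset.card_empty]
    exact Nat.zero_le _
  have hx0 : x ≠ 0 := by
    intro h
    have h2 := mem_ac.1 hi₁
    rw [h, inner_zero_right] at h2
    norm_num at h2
  obtain ⟨Θ, hΘ⟩ := TPH.Tr.exists_coord (W := E4) (by simp) (innerₛₗ ℝ x) (by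
    intro h
    have h2 : innerₛₗ ℝ x x = 0 := by rw [h]; rfl
    rw [innerₛₗ_apply_apply, inner_self_eq_zero] at h2
    exact hx0 h2)
  have hΘ1 : ∀ i ∈ ac v x, (Θ (v i)).2 = 1 := by
    intro i hi
    rw [hΘ, innerₛₗ_apply_apply, real_inner_comm]
    exact mem_ac.1 hi
  have hinj : ∀ i ∈ ac v x, ∀ j ∈ ac v x, (Θ (v i)).1 = (Θ (v j)).1 → i = j := by
    intro i hi j hj hij
    have h2 : Θ (v i) = Θ (v j) := Prod.ext hij (by rw [hΘ1 i hi, hΘ1 j hj])
    have h3 : v i = v j := Θ.injective h2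
    obtain ⟨z, -, hz⟩ := h1 i
    have h4 : i ∈ ac v z := by rw [hz]; exact Finset.mem_singleton_self i
    have h5 : j ∈ ac v z := by
      rw [mem_ac, ← h3]
      exact mem_ac.1 h4
    rw [hz, Finset.mem_singleton] at h5
    exact h5.symm
  obtain ⟨A, hA⟩ : ∃ A : Finset E, A = (ac v x).image fun i => (Θ (v i)).1 := ⟨_, rfl⟩
  have key : ∀ z ∈ Po v, ∀ s : Finset ι, s.Nonempty → s ⊆ ac v x → ac v z = s →
      ∃ u, Mx A u = s.image fun i => (Θ (v i)).1 := by
    intro z hz s ⟨i₀, hi₀⟩ hs hzs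
    obtain ⟨u, c, hu⟩ := MAtV.repr Θ z
    refine ⟨u, ?_⟩
    have e0 : ⟪v i₀, z⟫_ℝ = 1 := mem_ac.1 (by rw [hzs]; exact hi₀)
    have e1 := hu (v i₀) (hΘ1 i₀ (hs hi₀))
    ext a
    rw [mem_Mx, hA, Finset.mem_image, Finset.mem_image]
    constructor
    · rintro ⟨⟨i, hi, rfl⟩, hmax⟩
      refine ⟨i, ?_, rfl⟩
      have e2 := hu (v i) (hΘ1 i hi)
      have e3 := hmax _ (Finset.mem_image_of_mem _ (hs hi₀))
      have e4 := mem_Po.1 hz i
      rw [← hzs, mem_ac]
      have e5 : ip (Θ (v i₀)).1 u ≤ ip (Θ (v i)).1 u := e3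
      linarith
    · rintro ⟨i, hi, rfl⟩
      refine ⟨⟨i, hs hi, rfl⟩, fun a' ha' => ?_⟩
      obtain ⟨j, hj, rfl⟩ := Finset.mem_image.1 ha'
      have e2 := hu (v i) (hΘ1 i (hs hi))
      have e3 := hu (v j) (hΘ1 j hj)
      have e4 := mem_Po.1 hz j
      have e5 : ⟪v i, z⟫_ℝ = 1 := mem_ac.1 (by rw [hzs]; exact hi)
      show ip (Θ (v j)).1 u ≤ ip (Θ (v i)).1 u
      linarith
  have hconv : ConvPos A := by
    intro a ha
    rw [hA] at ha
    obtain ⟨i, hi, rfl⟩ := Finset.mem_image.1 ha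
    obtain ⟨z, hz, hz1⟩ := h1 i
    obtain ⟨u, hu⟩ := key z hz {i} (Finset.singleton_nonempty i)
      (Finset.singleton_subset_iff.2 hi) hz1
    exact ⟨u, by rw [hu, Finset.image_singleton]⟩
  have hle : S.card ≤ (Ed A).card := by
    refine Finset.card_le_card_of_injOn (fun s => s.image fun i => (Θ (v i)).1) ?_ ?_
    · intro s hs
      obtain ⟨a1, a2, y, hy, hys⟩ := hS s hs
      have hne : s.Nonempty := by
        rw [← Finset.card_pos, a1]
        norm_num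
      show (s.image fun i => (Θ (v i)).1) ∈ Ed A
      rw [mem_Ed]
      refine ⟨?_, key y hy s hne a2 hys⟩
      rw [Finset.card_image_of_injOn fun i hi j hj hij =>
        hinj i (a2 (Finset.mem_coe.1 hi)) j (a2 (Finset.mem_coe.1 hj)) hij, a1]
    · intro s hs t ht hst
      obtain ⟨-, a2, -⟩ := hS s (Finset.mem_coe.1 hs)
      obtain ⟨-, b2, -⟩ := hS t (Finset.mem_coe.1 ht)
      have hst' : (s.image fun i => (Θ (v i)).1) = t.image fun i => (Θ (v i)).1 := hst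
      apply Finset.Subset.antisymm
      · intro i hi
        have h2 : (Θ (v i)).1 ∈ t.image fun i => (Θ (v i)).1 := by
          rw [← hst']; exact Finset.mem_image_of_mem _ hi
        obtain ⟨j, hj, hj2⟩ := Finset.mem_image.1 h2
        rw [hinj i (a2 hi) j (b2 hj) hj2.symm]
        exact hj
      · intro i hi
        have h2 : (Θ (v i)).1 ∈ s.image fun i => (Θ (v i)).1 := by
          rw [hst']; exact Finset.mem_image_of_mem _ hi
        obtain ⟨j, hj, hj2⟩ := Finset.mem_image.1 h2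
        rw [hinj i (b2 hi) j (a2 hj) hj2.symm]
        exact hj
  have h3 := (TPH.Closed.edge_lin A hconv).2.2
  have h4 : A.card ≤ (ac v x).card := by
    rw [hA]
    exact Finset.card_image_le
  omega

end KAG
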