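import Pool.Agent.KAL.Euler
import Pool.Agent.KPX.Closed

/-!
# Arbitrary 4-polytopes with facets in `k` collinear classes: definitions and basic facts

`v i` are points of `ℝ⁴`, `Po v = {x | ⟪v i, x⟫ ≤ 1 for all i}`, `ac v x` is the set of the `i` with
`⟪v i, x⟫ = 1`.
-/

set_option autoImplicit false

namespace KAG

open Finset QMark
open scoped InnerProductSpace

/-- The polyhedron `⟪v i, x⟫ ≤ 1`. -/
abbrev Po {ι : Type} (v : ι → E4) : Set E4 := Poly v (fun _ => 1)

/-- The active set of `x`. -/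
noncomputable abbrev ac {ι : Type} [Fintype ι] (v : ι → E4) (x : E4) : Finset ι :=
  act v (fun _ => 1) x

/-- The point `(v i, 1)`. -/
def hom {ι : Type} (v : ι → E4) (i : ι) : E4 × ℝ := (v i, 1)

/-- General position of the points with index in `s` with respect to the layers of `⟪·, d⟫`: at most
five of them are affinely independent if they are at most four or not all in one layer. -/
def GPos {ι : Type} (v : ι → E4) (d : E4) (s : Finset ι) : Prop :=
  ∀ S : Finset ι, S ⊆ s → S.card ≤ 5 →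
    (S.card ≤ 4 ∨ ∃ i ∈ S, ∃ j ∈ S, ⟪v i, d⟫_ℝ ≠ ⟪v j, d⟫_ℝ) →
    LinearIndepOn ℝ (hom v) (S : Set ι)

open Classical in
/-- The layer of `i`. -/
noncomputable def cls {ι : Type} [Fintype ι] (v : ι → E4) (d : E4) (i : ι) : Finset ι :=
  univ.filter fun j => ⟪v j, d⟫_ℝ = ⟪v i, d⟫_ℝ

/-- One more point. -/
def opt {ι : Type} (a : E4) (v : ι → E4) : Option ι → E4 := fun o => o.elim a v

open Classical in
/-- The vertices of the facet with functional `(u,s)` and maximal value `q`. -/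
noncomputable def vt (V : Finset (TPH.E × ℝ)) (u : TPH.E) (s q : ℝ) : Finset (TPH.E × ℝ) :=
  V.filter fun v => TPH.Tr.val u s v = q

section
variable {ι : Type} [Fintype ι]

theorem mem_Po {v : ι → E4} {x : E4} : x ∈ Po v ↔ ∀ i, ⟪v i, x⟫_ℝ ≤ 1 := Iff.rfl

theorem mem_ac {v : ι → E4} {x : E4} {i : ι} : i ∈ ac v x ↔ ⟪v i, x⟫_ℝ = 1 := by
  classical
  exact mem_act

theorem mem_cls {v : ι → E4} {d : E4} {i j : ι} : j ∈ cls v d i ↔ ⟪v j, d⟫_ℝ = ⟪v i, d⟫_ℝ := by
  classical
  simp [cls]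

theorem mem_vt {V : Finset (TPH.E × ℝ)} {u : TPH.E} {s q : ℝ} {v : TPH.E × ℝ} :
    v ∈ vt V u s q ↔ v ∈ V ∧ TPH.Tr.val u s v = q := by
  classical
  simp [vt]

end

end KAG
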