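import Pool.Agent.KAG.Stmts

/-!
# `StmtBdd`: boundedness of `Po v` persists under small changes of `v`
-/

set_option autoImplicit false

namespace KAG

open Finset QMark
open scoped InnerProductSpace

theorem t_Bdd : StmtBdd := by
  intro ι _ v hb
  obtain ⟨R, hR, hsub⟩ : ∃ R : ℝ, 0 < R ∧ Po v ⊆ Metric.closedBall 0 R := by
    obtain ⟨R, hR⟩ := hb.subset_closedBall 0
    exact ⟨max R 1, lt_of_lt_of_le one_pos (le_max_right _ _),
      hR.trans (Metric.closedBall_subset_closedBall (le_max_left _ _))⟩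
  have hR1 : 0 < R + 1 := by linarith
  have key : ∀ y : E4, ‖y‖ = 1 → ∃ i, 1 / (R + 1) < ⟪v i, y⟫_ℝ := by
    intro y hy
    by_contra hcon
    push Not at hcon
    have hmem : (R + 1) • y ∈ Po v := by
      rw [mem_Po]
      intro i
      have h1 : ⟪v i, (R + 1) • y⟫_ℝ = (R + 1) * ⟪v i, y⟫_ℝ := by
        rw [real_inner_smul_right]
      rw [h1]
      have h2 := hcon i
      calc (R + 1) * ⟪v i, y⟫_ℝ ≤ (R + 1) * (1 / (R + 1)) :=
            mul_le_mul_of_nonneg_left h2 hR1.le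
        _ = 1 := by field_simp
    have h3 := hsub hmem
    rw [Metric.mem_closedBall, dist_zero_right, norm_smul, hy, Real.norm_eq_abs,
      abs_of_pos hR1] at h3
    linarith
  have he : 0 < 1 / (2 * (R + 1)) := by positivity
  refine ⟨1 / (2 * (R + 1)), he, fun v' hv' => ?_⟩
  refine (Metric.isBounded_closedBall (x := (0 : E4)) (r := 2 * (R + 1))).subset ?_
  intro y' hy'
  rw [Metric.mem_closedBall, dist_zero_right]
  by_cases h0 : y' = 0
  · rw [h0, norm_zero]; positivity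
  have hn : 0 < ‖y'‖ := norm_pos_iff.mpr h0
  have hy1 : ‖(‖y'‖⁻¹ • y' : E4)‖ = 1 := by
    rw [norm_smul, norm_inv, norm_norm, inv_mul_cancel₀ hn.ne']
  obtain ⟨i, hi⟩ := key _ hy1
  have h4 : ⟪v i, y'⟫_ℝ = ‖y'‖ * ⟪v i, ‖y'‖⁻¹ • y'⟫_ℝ := by
    rw [real_inner_smul_right, ← mul_assoc, mul_inv_cancel₀ hn.ne', one_mul]
  have h5 : ‖y'‖ * (1 / (R + 1)) < ⟪v i, y'⟫_ℝ := by
    rw [h4]
    exact mul_lt_mul_of_pos_left hi hn
  have h6 : ⟪v i, y'⟫_ℝ - ⟪v' i, y'⟫_ℝ ≤ 1 / (2 * (R + 1)) * ‖y'‖ := by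
    rw [← inner_sub_left]
    refine (real_inner_le_norm _ _).trans ?_
    refine mul_le_mul_of_nonneg_right ?_ hn.le
    rw [norm_sub_rev]
    exact (hv' i).le
  have h7 : ⟪v' i, y'⟫_ℝ ≤ 1 := (mem_Po.mp hy') i
  have h8 : 1 / (R + 1) = 2 * (1 / (2 * (R + 1))) := by field_simp
  have h9 : ‖y'‖ * (1 / (2 * (R + 1))) ≤ 1 := by
    rw [h8] at h5
    nlinarith
  calc ‖y'‖ = ‖y'‖ * (1 / (2 * (R + 1))) * (2 * (R + 1)) := by field_simp
    _ ≤ 1 * (2 * (R + 1)) := mul_le_mul_of_nonneg_right h9 (by positivity)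
    _ = 2 * (R + 1) := one_mul _

end KAG
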