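import Pool.Agent.KAG.Stmts

/-!
# KAG, Cap: a point above the highest layer (helper78)
-/

set_option autoImplicit false

namespace KAG

open Finset QMark Filter Topology
open scoped InnerProductSpace

namespace MCap

variable {ι : Type} [Fintype ι]

/-- Some point has positive height. -/
theorem exists_pos {v : ι → E4} {d : E4} (hd : d ≠ 0) (hb : Bornology.IsBounded (Po v)) :
    ∃ j, 0 < ⟪v j, d⟫_ℝ := by
  by_contra hcon
  push Not at hcon
  obtain ⟨R, hR⟩ := hb.exists_norm_le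
  have hd' : 0 < ‖d‖ := norm_pos_iff.2 hd
  obtain ⟨N, hN⟩ := exists_nat_gt (R / ‖d‖)
  have h1 : ((N : ℝ) • d) ∈ Po v := by
    rw [mem_Po]
    intro i
    rw [inner_smul_right]
    have h2 : (N : ℝ) * ⟪v i, d⟫_ℝ ≤ 0 := mul_nonpos_of_nonneg_of_nonpos (Nat.cast_nonneg N) (hcon i)
    linarith
  have h3 := hR _ h1
  rw [norm_smul, Real.norm_of_nonneg (Nat.cast_nonneg N)] at h3
  rw [div_lt_iff₀ hd'] at hN
  linarith

theorem update_opt [DecidableEq ι] (a₀ a : E4) (v : ι → E4) :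
    Function.update (opt a₀ v) none a = opt a v := by
  funext o
  cases o with
  | none => simp [opt]
  | some i => simp [opt]

theorem insert_none [DecidableEq ι] :
    insert none ((univ : Finset ι).map Function.Embedding.some) = (univ : Finset (Option ι)) := by
  ext o
  cases o with
  | none => simp
  | some i => simp

/-- General position is transported along `some`. -/
theorem gpos_opt {v : ι → E4} {d : E4} (a₀ : E4) (h : GPos v d univ) :
    GPos (opt a₀ v) d ((univ : Finset ι).map Function.Embedding.some) := by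
  classical
  intro S hS hc hh
  obtain ⟨u, -, rfl⟩ := Finset.subset_map_iff.1 hS
  rw [card_map] at hc hh
  have h1 : LinearIndepOn ℝ (hom v) (u : Set ι) := by
    refine h u (subset_univ _) hc ?_
    rcases hh with hh | ⟨i, hi, j, hj, hij⟩
    · exact Or.inl hh
    · obtain ⟨i', hi', rfl⟩ := Finset.mem_map.1 hi
      obtain ⟨j', hj', rfl⟩ := Finset.mem_map.1 hj
      exact Or.inr ⟨i', hi', j', hj', hij⟩
  rw [coe_map]
  exact LinearIndepOn.image_of_comp (Function.Embedding.some : ι ↪ Option ι) (hom (opt a₀ v)) h1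

theorem inner_avg (A : Finset ι) (v : ι → E4) (x : E4) :
    ⟪(A.card : ℝ)⁻¹ • ∑ i ∈ A, v i, x⟫_ℝ = (A.card : ℝ)⁻¹ * ∑ i ∈ A, ⟪v i, x⟫_ℝ := by
  rw [real_inner_smul_left, sum_inner]

end MCap

open MCap in
theorem t_Cap (hStep : StmtStep) : StmtCap := by
  intro ι _ _ v d i₀ hd hG hb hmax hA5
  classical
  -- the height of the highest layer
  have hpos : 0 < ⟪v i₀, d⟫_ℝ := by
    obtain ⟨j, hj⟩ := exists_pos hd hb
    exact lt_of_lt_of_le hj (hmax j)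
  obtain ⟨A, hA⟩ : ∃ A, A = cls v d i₀ := ⟨_, rfl⟩
  rw [← hA] at hA5
  have hApos : (0 : ℝ) < (A.card : ℝ) := by
    have : 0 < A.card := by omega
    exact_mod_cast this
  obtain ⟨c, hc⟩ : ∃ c, c = (A.card : ℝ)⁻¹ • ∑ i ∈ A, v i := ⟨_, rfl⟩
  have hcd : ⟪c, d⟫_ℝ = ⟪v i₀, d⟫_ℝ := by
    rw [hc, inner_avg]
    have h1 : ∑ i ∈ A, ⟪v i, d⟫_ℝ = ∑ i ∈ A, ⟪v i₀, d⟫_ℝ := by
      refine sum_congr rfl fun i hi => ?_
      rw [hA, mem_cls] at hi
      exact hi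
    rw [h1, sum_const, nsmul_eq_mul, ← mul_assoc, inv_mul_cancel₀ hApos.ne', one_mul]
  -- the chosen points
  have hch : ∀ T : Finset ι, ∃ x : E4, (∃ y ∈ Po v, ac v y = T) → x ∈ Po v ∧ ac v x = T := by
    intro T
    by_cases h : ∃ y ∈ Po v, ac v y = T
    · obtain ⟨y, hy1, hy2⟩ := h
      exact ⟨y, fun _ => ⟨hy1, hy2⟩⟩
    · exact ⟨0, fun h' => absurd h' h⟩
  choose X hX using hch
  obtain ⟨𝒯, h𝒯⟩ : ∃ 𝒯 : Finset (Finset ι), ∀ T, T ∈ 𝒯 ↔ T.card ≤ 4 ∧ ∃ y ∈ Po v, ac v y = T :=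
    ⟨univ.filter fun T => T.card ≤ 4 ∧ ∃ y ∈ Po v, ac v y = T, fun T => by simp⟩
  have hcX : ∀ T ∈ 𝒯, ⟪c, X T⟫_ℝ < 1 := by
    intro T hT
    obtain ⟨h1, h2⟩ := (h𝒯 T).1 hT
    obtain ⟨h3, h4⟩ := hX T h2
    rw [mem_Po] at h3
    have h5 : ∃ i ∈ A, ⟪v i, X T⟫_ℝ < 1 := by
      by_contra hcon
      push Not at hcon
      have h6 : A ⊆ T := by
        intro i hi
        rw [← h4, mem_ac]
        exact le_antisymm (h3 i) (hcon i hi)
      have := card_le_card h6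
      omega
    obtain ⟨i, hi, hi1⟩ := h5
    have h6 : ∑ j ∈ A, ⟪v j, X T⟫_ℝ < ∑ j ∈ A, (1 : ℝ) :=
      sum_lt_sum (fun j _ => h3 j) ⟨i, hi, hi1⟩
    rw [sum_const, nsmul_eq_mul, mul_one] at h6
    rw [hc, inner_avg, inv_mul_lt_iff₀ hApos, mul_one]
    exact h6
  -- the factor
  obtain ⟨δ, hδ0, hδX⟩ : ∃ δ : ℝ, 0 < δ ∧ ∀ T ∈ 𝒯, ⟪(1 + δ) • c, X T⟫_ℝ < 1 := by
    have h1 : ∀ᶠ δ in 𝓝 (0 : ℝ), ∀ T ∈ 𝒯, ⟪(1 + δ) • c, X T⟫_ℝ < 1 := by
      rw [Filter.eventually_all_finset]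
      intro T hT
      have h2 : ContinuousAt (fun δ : ℝ => ⟪(1 + δ) • c, X T⟫_ℝ) 0 := by
        refine Continuous.continuousAt ?_
        fun_prop
      refine h2.eventually (gt_mem_nhds ?_)
      change ⟪((1 : ℝ) + 0) • c, X T⟫_ℝ < 1
      rw [add_zero, one_smul]
      exact hcX T hT
    have h2 : ∀ᶠ δ in 𝓝[>] (0 : ℝ), ∀ T ∈ 𝒯, ⟪(1 + δ) • c, X T⟫_ℝ < 1 :=
      h1.filter_mono nhdsWithin_le_nhds
    obtain ⟨δ, h3, h4⟩ := (h2.and self_mem_nhdsWithin).exists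
    exact ⟨δ, h4, h3⟩
  obtain ⟨ε, hε, hεX⟩ : ∃ ε : ℝ, 0 < ε ∧ ∀ a : E4, ‖a - (1 + δ) • c‖ < ε →
      ∀ T ∈ 𝒯, ⟪a, X T⟫_ℝ < 1 := by
    have h1 : ∀ᶠ a in 𝓝 ((1 + δ) • c), ∀ T ∈ 𝒯, ⟪a, X T⟫_ℝ < 1 := by
      rw [Filter.eventually_all_finset]
      intro T hT
      have h2 : ContinuousAt (fun a : E4 => ⟪a, X T⟫_ℝ) ((1 + δ) • c) := by
        refine Continuous.continuousAt ?_
        fun_prop
      exact h2.eventually (gt_mem_nhds (hδX T hT))
    obtain ⟨ε, h2, h3⟩ := Metric.eventually_nhds_iff.1 h1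
    exact ⟨ε, h2, fun a ha => h3 (by rw [dist_eq_norm]; exact ha)⟩
  -- the new point
  obtain ⟨a, ha1, ha2, ha3⟩ := hStep (Option ι) (opt ((1 + δ) • c) v) d
    ((univ : Finset ι).map Function.Embedding.some) none ε hd hε (by simp)
    (gpos_opt ((1 + δ) • c) hG)
  rw [update_opt, insert_none] at ha3
  have ha1' : ⟪a, d⟫_ℝ = (1 + δ) * ⟪v i₀, d⟫_ℝ := by
    rw [ha1]
    change ⟪(1 + δ) • c, d⟫_ℝ = _
    rw [real_inner_smul_left, hcd]
  have haX : ∀ T ∈ 𝒯, ⟪a, X T⟫_ℝ < 1 := hεX a ha2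
  have hbig : ∀ i, ⟪v i, d⟫_ℝ < ⟪a, d⟫_ℝ := by
    intro i
    rw [ha1']
    have h1 := hmax i
    nlinarith
  have hadpos : 0 < ⟪a, d⟫_ℝ := hpos.trans (hbig i₀)
  refine ⟨a, ha3, hbig, ?_, ?_, ?_⟩
  · refine hb.subset fun x hx => ?_
    rw [mem_Po] at hx ⊢
    exact fun i => hx (some i)
  · have hlt : ∀ i, ⟪v i, (⟪a, d⟫_ℝ)⁻¹ • d⟫_ℝ < 1 := by
      intro i
      rw [inner_smul_right, inv_mul_lt_iff₀ hadpos, mul_one]
      exact hbig i
    have heq : ⟪a, (⟪a, d⟫_ℝ)⁻¹ • d⟫_ℝ = 1 := by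
      rw [inner_smul_right, inv_mul_cancel₀ hadpos.ne']
    refine ⟨(⟪a, d⟫_ℝ)⁻¹ • d, ?_, ?_⟩
    · rw [mem_Po]
      intro o
      cases o with
      | none => exact heq.le
      | some i => exact (hlt i).le
    · ext o
      rw [mem_ac, mem_singleton]
      cases o with
      | none => exact ⟨fun _ => rfl, fun _ => heq⟩
      | some i =>
        refine ⟨fun h => absurd h (hlt i).ne, fun h => ?_⟩
        cases h
  · intro x hx hx4
    have hT : ac v x ∈ 𝒯 := (h𝒯 _).2 ⟨hx4, x, hx, rfl⟩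
    obtain ⟨h1, h2⟩ := hX (ac v x) ⟨x, hx, rfl⟩
    have h3 := haX _ hT
    refine ⟨X (ac v x), ?_, ?_⟩
    · rw [mem_Po] at h1 ⊢
      intro o
      cases o with
      | none => exact h3.le
      | some i => exact h1 i
    · ext o
      rw [mem_ac]
      cases o with
      | none =>
        refine ⟨fun h => absurd h h3.ne, fun h => ?_⟩
        simp at h
      | some i =>
        have h4 : i ∈ ac v (X (ac v x)) ↔ i ∈ ac v x := by rw [h2]
        rw [mem_ac] at h4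
        constructor
        · intro h
          exact mem_map_of_mem _ (h4.1 h)
        · intro h
          rw [Finset.mem_map] at h
          obtain ⟨j, hj, hij⟩ := h
          have hij' : j = i := Option.some_injective _ hij
          rw [hij'] at hj
          exact h4.2 hj

end KAG
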