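import Pool.Agent.KAG.Stmts
import Pool.Agent.TCC.Prim

/-!
# The facet data of the vertices on at least five facets (module KAG_Data)
-/

set_option autoImplicit false

namespace KAG

open Finset QMark
open scoped InnerProductSpace

namespace MData

variable {ι : Type} [Fintype ι] {v : ι → E4}

/-- The points are different. -/
theorem inj (hi : ∀ i, ∃ x ∈ Po v, ac v x = {i}) : Function.Injective v := by
  intro i j hij
  obtain ⟨x, -, hx⟩ := hi i
  have h1 : i ∈ ac v x := by rw [hx]; exact mem_singleton_self i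
  have h2 : j ∈ ac v x := by
    rw [mem_ac] at h1 ⊢
    rw [← hij]
    exact h1
  rw [hx, mem_singleton] at h2
  exact h2.symm

/-- A point strictly between two others is not extreme. -/
theorem mid {P : Set E4} {g r : E4} {s t w : ℝ} (hst : s < t) (htw : t < w)
    (h1 : g + s • r ∈ P) (h3 : g + w • r ∈ P) (h2 : g + t • r ∈ Set.extremePoints ℝ P)
    (hr : r ≠ 0) : False := by
  have hw : 0 < w - s := by linarith
  have hseg : g + t • r ∈ openSegment ℝ (g + s • r) (g + w • r) := by
    refine ⟨(w - t) / (w - s), (t - s) / (w - s), by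
      apply div_pos <;> linarith, by apply div_pos <;> linarith, ?_, ?_⟩
    · rw [← add_div, div_eq_one_iff_eq hw.ne']
      ring
    · have e1 : (w - t) / (w - s) + (t - s) / (w - s) = 1 := by
        rw [← add_div, div_eq_one_iff_eq hw.ne']
        ring
      have e2 : (w - t) / (w - s) * s + (t - s) / (w - s) * w = t := by
        field_simp
        ring
      rw [smul_add, smul_add, smul_smul, smul_smul]
      calc (((w - t) / (w - s)) • g + ((w - t) / (w - s) * s) • r)
            + (((t - s) / (w - s)) • g + ((t - s) / (w - s) * w) • r)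
          = ((w - t) / (w - s) + (t - s) / (w - s)) • g
            + ((w - t) / (w - s) * s + (t - s) / (w - s) * w) • r := by module
        _ = g + t • r := by rw [e1, e2, one_smul]
  have h4 := h2.2 h1 h3 hseg
  have h5 : (s - t) • r = 0 := by
    have : s • r = t • r := add_left_cancel h4
    rw [sub_smul, this, sub_self]
  rcases smul_eq_zero.1 h5 with h | h
  · linarith
  · exact hr h

/-- Three different points of a line are not all extreme. -/
theorem three {P : Set E4} {g r : E4} {s t w : ℝ} (hst : s ≠ t) (hsw : s ≠ w) (htw : t ≠ w)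
    (h1 : g + s • r ∈ Set.extremePoints ℝ P) (h2 : g + t • r ∈ Set.extremePoints ℝ P)
    (h3 : g + w • r ∈ Set.extremePoints ℝ P) (hr : r ≠ 0) : False := by
  rcases lt_or_gt_of_ne hst with a | a <;> rcases lt_or_gt_of_ne hsw with b | b <;>
    rcases lt_or_gt_of_ne htw with c | c
  · exact mid a c h1.1 h3.1 h2 hr
  · exact mid b c h1.1 h2.1 h3 hr
  · linarith
  · exact mid b a h3.1 h2.1 h1 hr
  · exact mid a b h2.1 h3.1 h1 hr
  · linarith
  · exact mid c b h2.1 h1.1 h3 hr
  · exact mid c a h3.1 h1.1 h2 hr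

/-- Three different points which are active at a common point are linearly independent. -/
theorem indep (hi : ∀ i, ∃ x ∈ Po v, ac v x = {i}) {a b c : ι} (hab : a ≠ b) (hac : a ≠ c)
    (hbc : b ≠ c) {g : E4} (ha : ⟪v a, g⟫_ℝ = 1) (hb : ⟪v b, g⟫_ℝ = 1) (hc : ⟪v c, g⟫_ℝ = 1) :
    LinearIndependent ℝ ![v a, v b, v c] := by
  have hz : ∀ i j : ι, i ≠ j → ∀ x ∈ Po v, ac v x = {i} → ⟪v i, x⟫_ℝ = 1 ∧ ⟪v j, x⟫_ℝ < 1 := by
    intro i j hij x hx hax
    refine ⟨mem_ac.1 (by rw [hax]; exact mem_singleton_self i), lt_of_le_of_ne (hx j) ?_⟩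
    intro h
    have h1 : j ∈ ac v x := mem_ac.2 h
    rw [hax, mem_singleton] at h1
    exact hij h1.symm
  rw [Fintype.linearIndependent_iff]
  intro l hl
  rw [Fin.sum_univ_three] at hl
  simp only [Matrix.cons_val_zero, Matrix.cons_val_one, Matrix.cons_val] at hl
  have hpair : ∀ x : E4, l 0 * ⟪v a, x⟫_ℝ + l 1 * ⟪v b, x⟫_ℝ + l 2 * ⟪v c, x⟫_ℝ = 0 := by
    intro x
    have h1 : ⟪l 0 • v a + l 1 • v b + l 2 • v c, x⟫_ℝ = 0 := by rw [hl, inner_zero_left]
    rw [inner_add_left, inner_add_left, real_inner_smul_left, real_inner_smul_left,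
      real_inner_smul_left] at h1
    exact h1
  have h0 := hpair g
  rw [ha, hb, hc] at h0
  obtain ⟨xa, hxa, hxa'⟩ := hi a
  obtain ⟨xb, hxb, hxb'⟩ := hi b
  obtain ⟨xc, hxc, hxc'⟩ := hi c
  have h1 := hpair xa
  have h2 := hpair xb
  have h3 := hpair xc
  have ab := hz a b hab xa hxa hxa'
  have ac' := hz a c hac xa hxa hxa'
  have ba := hz b a hab.symm xb hxb hxb'
  have bc := hz b c hbc xb hxb hxb'
  have ca := hz c a hac.symm xc hxc hxc'
  have cb := hz c b hbc.symm xc hxc hxc'
  rw [ab.1] at h1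
  rw [ba.1] at h2
  rw [ca.1] at h3
  set α := l 0 with hα
  set β := l 1 with hβ
  set γ := l 2 with hγ
  -- `β p + γ q = 0` and so on
  have k1 : β * (1 - ⟪v b, xa⟫_ℝ) + γ * (1 - ⟪v c, xa⟫_ℝ) = 0 := by linarith
  have k2 : α * (1 - ⟪v a, xb⟫_ℝ) + γ * (1 - ⟪v c, xb⟫_ℝ) = 0 := by linarith
  have k3 : α * (1 - ⟪v a, xc⟫_ℝ) + β * (1 - ⟪v b, xc⟫_ℝ) = 0 := by linarith
  have key : ∀ x y p q : ℝ, 0 < p → 0 < q → x * p + y * q = 0 → x * y ≤ 0 ∧ (x = 0 → y = 0) ∧
      (y = 0 → x = 0) := by
    intro x y p q hp hq h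
    refine ⟨?_, ?_, ?_⟩
    · by_contra hcon
      push Not at hcon
      have e1 : x * y * p + y ^ 2 * q = 0 := by
        have : x * y * p + y ^ 2 * q = y * (x * p + y * q) := by ring
        rw [this, h, mul_zero]
      have e2 : 0 < x * y * p := mul_pos hcon hp
      have e3 : 0 ≤ y ^ 2 * q := by positivity
      linarith
    · rintro rfl
      rw [zero_mul, zero_add] at h
      exact (mul_eq_zero.1 h).resolve_right hq.ne'
    · rintro rfl
      rw [zero_mul, add_zero] at h
      exact (mul_eq_zero.1 h).resolve_right hp.ne'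
  obtain ⟨m1, z1, z1'⟩ := key β γ _ _ (by linarith [ab.2]) (by linarith [ac'.2]) k1
  obtain ⟨m2, z2, z2'⟩ := key α γ _ _ (by linarith [ba.2]) (by linarith [bc.2]) k2
  obtain ⟨m3, z3, z3'⟩ := key α β _ _ (by linarith [ca.2]) (by linarith [cb.2]) k3
  have hprod : α = 0 := by
    by_contra hα0
    have hβ0 : β ≠ 0 := fun h => hα0 (z3' h)
    have hγ0 : γ ≠ 0 := fun h => hα0 (z2' h)
    have p1 : β * γ < 0 := lt_of_le_of_ne m1 (mul_ne_zero hβ0 hγ0)
    have p2 : α * γ < 0 := lt_of_le_of_ne m2 (mul_ne_zero hα0 hγ0)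
    have p3 : α * β < 0 := lt_of_le_of_ne m3 (mul_ne_zero hα0 hβ0)
    have p4 : 0 < (β * γ) * (α * γ) := mul_pos_of_neg_of_neg p1 p2
    have p5 : (β * γ) * (α * γ) = (α * β) * γ ^ 2 := by ring
    have p6 : (α * β) * γ ^ 2 ≤ 0 := by
      have : 0 ≤ γ ^ 2 := sq_nonneg γ
      nlinarith
    linarith
  intro i
  fin_cases i
  · exact hprod
  · exact z3 hprod
  · exact z2 hprod

/-- The points orthogonal to three independent vectors are on a line. -/
theorem line {a b c : E4} (h : LinearIndependent ℝ ![a, b, c]) :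
    ∃ r : E4, ∀ y : E4, ⟪a, y⟫_ℝ = 0 → ⟪b, y⟫_ℝ = 0 → ⟪c, y⟫_ℝ = 0 → ∃ t : ℝ, y = t • r := by
  set K := Submodule.span ℝ (Set.range ![a, b, c]) with hK
  have h0 : Module.finrank ℝ K = 3 := by
    have := finrank_span_eq_card h
    simpa using this
  have h1 := Submodule.finrank_add_finrank_orthogonal K
  rw [finrank_euclideanSpace_fin, h0] at h1
  have h2 : Module.finrank ℝ Kᗮ = 1 := by omega
  obtain ⟨r, -, hr⟩ := finrank_eq_one_iff'.1 h2
  refine ⟨r, fun y ha hb hc => ?_⟩
  have hy : y ∈ Kᗮ := by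
    rw [Submodule.mem_orthogonal]
    intro w hw
    rw [hK] at hw
    induction hw using Submodule.span_induction with
    | mem w hw =>
      obtain ⟨i, rfl⟩ := hw
      fin_cases i
      · exact ha
      · exact hb
      · exact hc
    | zero => exact inner_zero_left _
    | add w w' _ _ h h' => rw [inner_add_left, h, h', add_zero]
    | smul k w _ h => rw [real_inner_smul_left, h, mul_zero]
  obtain ⟨t, ht⟩ := hr ⟨y, hy⟩
  refine ⟨t, ?_⟩
  have := congrArg Subtype.val ht
  simpa using this.symm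

end MData

open MData in
/-- **The facet data of the vertices on at least five facets** -/
theorem t_Data (hExt : StmtExt) : StmtData := by
  classical
  intro ι _ _ v d hd _ hi
  have hl : (innerSL ℝ d).toLinearMap ≠ 0 := by
    intro h
    have h1 := congrArg (fun l : E4 →ₗ[ℝ] ℝ => l d) h
    simp only [ContinuousLinearMap.coe_coe, innerSL_apply_apply, LinearMap.zero_apply] at h1
    exact hd (inner_self_eq_zero.1 h1)
  obtain ⟨Θ, hΘ⟩ := TPH.Tr.exists_coord (W := E4) (by rw [finrank_euclideanSpace_fin])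
    (innerSL ℝ d).toLinearMap hl
  have hvinj := inj hi
  have hfinj : Function.Injective (fun i => Θ (v i)) := Θ.injective.comp hvinj
  have hfin : {x : E4 | x ∈ Set.extremePoints ℝ (Po v) ∧ 5 ≤ (ac v x).card}.Finite := by
    apply Set.Finite.of_finite_image (f := fun x : E4 => ac v x)
    · exact Set.toFinite _
    · intro x hx y hy hxy
      have hxy' : ac v x = ac v y := hxy
      have h1 := ((hExt ι v x).1 hx.1).2 (x - y) (by
        intro i hi
        have h2 : i ∈ ac v y := by rw [← hxy']; exact hi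
        rw [inner_sub_right, mem_ac.1 hi, mem_ac.1 h2, sub_self])
      exact sub_eq_zero.1 h1
  have hmemV : ∀ y, y ∈ univ.image (fun i => Θ (v i)) ↔ ∃ i, Θ (v i) = y := by
    intro y
    simp
  have hval : ∀ (x : E4) (i : ι), TPH.Tr.val (TCC.rep Θ x).1 (TCC.rep Θ x).2 (Θ (v i))
      = ⟪v i, x⟫_ℝ := fun x i => TCC.val_rep Θ x (v i)
  have hG : ∀ x, x ∈ hfin.toFinset ↔ x ∈ Set.extremePoints ℝ (Po v) ∧ 5 ≤ (ac v x).card := by
    intro x
    rw [Set.Finite.mem_toFinset]
    rfl
  refine ⟨univ.image (fun i => Θ (v i)), fun i => Θ (v i), hfin.toFinset,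
    fun x => (TCC.rep Θ x).1, fun x => (TCC.rep Θ x).2, fun _ => 1, ?_, ?_, ?_, ?_, hG, ?_⟩
  · refine ⟨?_, ?_, ?_, ?_, ?_, ?_, ?_⟩
    · -- nn
      intro g hg y hy
      obtain ⟨i, rfl⟩ := (hmemV y).1 hy
      rw [hval]
      exact ((hG g).1 hg).1.1 i
    · -- inj
      intro g hg g' _ h
      have h1 := ((hExt ι v g).1 ((hG g).1 hg).1).2 (g' - g) (by
        intro i hi
        have h2 := h (Θ (v i)) ((hmemV _).2 ⟨i, rfl⟩) (by rw [hval]; exact mem_ac.1 hi)
        rw [hval] at h2
        rw [inner_sub_right, h2, mem_ac.1 hi, sub_self])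
      exact (sub_eq_zero.1 h1).symm
    · -- span
      intro g hg u' s' q' h
      obtain ⟨y, hy⟩ := TCC.rep_surj Θ u' s'
      have h1 : y - q' • g = 0 := by
        apply ((hExt ι v g).1 ((hG g).1 hg).1).2
        intro i hi
        have h2 := h (Θ (v i)) ((hmemV _).2 ⟨i, rfl⟩) (by rw [hval]; exact mem_ac.1 hi)
        have h3 := hval y i
        rw [hy] at h3
        rw [inner_sub_right, inner_smul_right, mem_ac.1 hi, ← h3, h2, mul_one, sub_self]
      have h2 := TCC.rep_sub_smul Θ y g q' (sub_eq_zero.1 h1)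
      rw [hy] at h2
      exact ⟨q', h2.1, h2.2, (mul_one q').symm⟩
    · -- nz
      intro g hg hu hs
      have h1 : 0 < (ac v g).card := lt_of_lt_of_le (by norm_num) ((hG g).1 hg).2
      obtain ⟨i, hi⟩ := card_pos.1 h1
      have h2 := hval g i
      rw [mem_ac.1 hi] at h2
      rw [hu, hs] at h2
      simp [TPH.Tr.val, TPH.ip] at h2
    · -- five
      intro g hg
      refine ⟨(ac v g).image (fun i => Θ (v i)), ?_, ?_⟩
      · rw [card_image_of_injective _ hfinj]
        exact ((hG g).1 hg).2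
      · intro y hy
        obtain ⟨i, hi, rfl⟩ := mem_image.1 hy
        exact ⟨(hmemV _).2 ⟨i, rfl⟩, by rw [hval]; exact mem_ac.1 hi⟩
    · -- exp
      intro y hy
      obtain ⟨i, rfl⟩ := (hmemV y).1 hy
      obtain ⟨z, hz, hzi⟩ := hi i
      refine ⟨(TCC.rep Θ z).1, (TCC.rep Θ z).2, ?_⟩
      intro y' hy' hne
      obtain ⟨j, rfl⟩ := (hmemV y').1 hy'
      rw [hval, hval, mem_ac.1 (show i ∈ ac v z by rw [hzi]; exact mem_singleton_self i)]
      refine lt_of_le_of_ne (hz j) ?_
      intro h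
      have h1 : j ∈ ac v z := mem_ac.2 h
      rw [hzi, mem_singleton] at h1
      exact hne (by rw [h1])
    · -- two
      intro x hx y hy z hz hxy hxz hyz S hS hS'
      obtain ⟨a, rfl⟩ := (hmemV x).1 hx
      obtain ⟨b, rfl⟩ := (hmemV y).1 hy
      obtain ⟨c, rfl⟩ := (hmemV z).1 hz
      by_contra hcon
      push Not at hcon
      obtain ⟨g₁, h1, g₂, h2, g₃, h3, h12, h13, h23⟩ := two_lt_card.1 hcon
      have e1 := hS' g₁ h1
      have e2 := hS' g₂ h2
      have e3 := hS' g₃ h3
      simp only [hval] at e1 e2 e3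
      have hab : a ≠ b := fun h => hxy (by rw [h])
      have hac : a ≠ c := fun h => hxz (by rw [h])
      have hbc : b ≠ c := fun h => hyz (by rw [h])
      obtain ⟨r, hr⟩ := line (indep hi hab hac hbc e1.1 e1.2.1 e1.2.2)
      have hsub : ∀ (i : ι) (g g' : E4), ⟪v i, g⟫_ℝ = 1 → ⟪v i, g'⟫_ℝ = 1 →
          ⟪v i, g' - g⟫_ℝ = 0 := by
        intro i g g' h h'
        rw [inner_sub_right, h, h', sub_self]
      obtain ⟨t, ht⟩ := hr (g₂ - g₁) (hsub a _ _ e1.1 e2.1) (hsub b _ _ e1.2.1 e2.2.1)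
        (hsub c _ _ e1.2.2 e2.2.2)
      obtain ⟨w, hw⟩ := hr (g₃ - g₁) (hsub a _ _ e1.1 e3.1) (hsub b _ _ e1.2.1 e3.2.1)
        (hsub c _ _ e1.2.2 e3.2.2)
      have k1 : g₁ + (0 : ℝ) • r = g₁ := by rw [zero_smul, add_zero]
      have k2 : g₁ + t • r = g₂ := by rw [← ht]; abel
      have k3 : g₁ + w • r = g₃ := by rw [← hw]; abel
      refine three (P := Po v) (g := g₁) (r := r) (s := 0) (t := t) (w := w) ?_ ?_ ?_
        (by rw [k1]; exact ((hG _).1 (hS h1)).1) (by rw [k2]; exact ((hG _).1 (hS h2)).1)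
        (by rw [k3]; exact ((hG _).1 (hS h3)).1) ?_
      · intro h
        rw [← h, k1] at k2
        exact h12 k2
      · intro h
        rw [← h, k1] at k3
        exact h13 k3
      · intro h
        rw [← h, k2] at k3
        exact h23 k3
      · intro h
        rw [h, smul_zero, add_zero] at k2
        exact h12 k2
  · rw [card_image_of_injective _ hfinj, card_univ]
  · intro i
    refine ⟨(hmemV _).2 ⟨i, rfl⟩, ?_⟩
    rw [hΘ]
    simp only [ContinuousLinearMap.coe_coe, innerSL_apply_apply]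
    exact real_inner_comm _ _
  · intro y hy
    exact (hmemV y).1 hy
  · intro x hx
    have h1 : vt (univ.image (fun i => Θ (v i))) (TCC.rep Θ x).1 (TCC.rep Θ x).2 1
        = (ac v x).image (fun i => Θ (v i)) := by
      ext y
      rw [mem_vt]
      constructor
      · rintro ⟨hy, hy'⟩
        obtain ⟨i, rfl⟩ := (hmemV y).1 hy
        rw [hval] at hy'
        exact mem_image.2 ⟨i, mem_ac.2 hy', rfl⟩
      · intro h
        obtain ⟨i, hi, rfl⟩ := mem_image.1 h
        exact ⟨(hmemV _).2 ⟨i, rfl⟩, by rw [hval]; exact mem_ac.1 hi⟩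
    simp only
    rw [h1, card_image_of_injective _ hfinj]

end KAG
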