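import Pool.Agent.KAG.Stmts

/-!
# The vertices
-/

set_option autoImplicit false

namespace KAG

open Finset QMark
open scoped InnerProductSpace

theorem t_Ext : StmtExt := by
  intro ι _ v p
  constructor
  · intro hp
    refine ⟨hp.1, fun y hy => ?_⟩
    by_contra hne
    have hp1 : ∀ i, ⟪v i, p⟫_ℝ ≤ 1 := hp.1
    -- a small step in both directions
    have hδ : ∀ i : ι, ∃ δ : ℝ, 0 < δ ∧ ∀ t : ℝ, |t| ≤ δ → ⟪v i, p⟫_ℝ + t * ⟪v i, y⟫_ℝ ≤ 1 := by
      intro i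
      rcases eq_or_lt_of_le (hp1 i) with h | h
      · refine ⟨1, one_pos, fun t _ => ?_⟩
        rw [hy i (mem_ac.2 h), mul_zero, add_zero, h]
      · refine ⟨(1 - ⟪v i, p⟫_ℝ) / (|⟪v i, y⟫_ℝ| + 1), by
          have := abs_nonneg ⟪v i, y⟫_ℝ
          have h2 : 0 < 1 - ⟪v i, p⟫_ℝ := by linarith
          positivity, fun t ht => ?_⟩
        have h0 := abs_nonneg ⟪v i, y⟫_ℝ
        have h1 : t * ⟪v i, y⟫_ℝ ≤ |t| * |⟪v i, y⟫_ℝ| := by
          rw [← abs_mul]; exact le_abs_self _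
        have h2 : |t| * |⟪v i, y⟫_ℝ| ≤ |t| * (|⟪v i, y⟫_ℝ| + 1) := by
          have := abs_nonneg t
          nlinarith
        have h3 : |t| * (|⟪v i, y⟫_ℝ| + 1) ≤ 1 - ⟪v i, p⟫_ℝ := by
          rw [le_div_iff₀ (by positivity)] at ht
          exact ht
        linarith
    choose δ hδ0 hδ1 using hδ
    obtain ⟨ε, hε0, hε⟩ : ∃ ε : ℝ, 0 < ε ∧ ∀ i, ε ≤ δ i := by
      rcases isEmpty_or_nonempty ι with hn | hn
      · exact ⟨1, one_pos, fun i => (hn.false i).elim⟩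
      · obtain ⟨i, hi⟩ := Finite.exists_min δ
        exact ⟨δ i, hδ0 i, hi⟩
    have hplus : ∀ t : ℝ, |t| ≤ ε → p + t • y ∈ Po v := by
      intro t ht i
      rw [inner_add_right, inner_smul_right]
      exact hδ1 i t (ht.trans (hε i))
    have h1 := hplus ε (by rw [abs_of_pos hε0])
    have h2 := hplus (-ε) (by rw [abs_neg, abs_of_pos hε0])
    have h3 : p ∈ openSegment ℝ (p + ε • y) (p + (-ε) • y) :=
      ⟨1 / 2, 1 / 2, by norm_num, by norm_num, by norm_num, by module⟩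
    have h4 := hp.2 h1 h2 h3
    have h5 : ε • y = 0 := by
      have : p + ε • y = p + 0 := by rw [h4, add_zero]
      exact add_left_cancel this
    rcases smul_eq_zero.1 h5 with h | h
    · exact hε0.ne' h
    · exact hne h
  · rintro ⟨hp, hy⟩
    refine ⟨hp, ?_⟩
    intro x₁ hx₁ x₂ hx₂ hseg
    obtain ⟨α, β, hα, hβ, hαβ, hx⟩ := hseg
    have h : x₁ - x₂ = 0 := by
      apply hy
      intro i hi
      rw [mem_ac] at hi
      have h1 : ⟪v i, x₁⟫_ℝ ≤ 1 := hx₁ i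
      have h2 : ⟪v i, x₂⟫_ℝ ≤ 1 := hx₂ i
      rw [← hx, inner_add_right, inner_smul_right, inner_smul_right] at hi
      have h3 : α * (1 - ⟪v i, x₁⟫_ℝ) + β * (1 - ⟪v i, x₂⟫_ℝ) = 0 := by linarith
      have h4 : 0 ≤ α * (1 - ⟪v i, x₁⟫_ℝ) := mul_nonneg hα.le (by linarith)
      have h5 : 0 ≤ β * (1 - ⟪v i, x₂⟫_ℝ) := mul_nonneg hβ.le (by linarith)
      have h6 : α * (1 - ⟪v i, x₁⟫_ℝ) = 0 := by linarith
      have h7 : β * (1 - ⟪v i, x₂⟫_ℝ) = 0 := by linarith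
      rw [inner_sub_right]
      rcases mul_eq_zero.1 h6 with h | h
      · exact absurd h hα.ne'
      · rcases mul_eq_zero.1 h7 with h' | h'
        · exact absurd h' hβ.ne'
        · linarith
    have h' : x₁ = x₂ := sub_eq_zero.1 h
    rw [← hx, ← h', ← add_smul, hαβ, one_smul]

end KAG
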