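import Pool.Agent.KAG.Stmts

/-!
# The other end of an edge at a simple vertex

Module of helper10 for the project KAG of helper56 (MP_f8fadf_co).
-/

set_option autoImplicit false

namespace KAG

open Finset QMark
open scoped InnerProductSpace

namespace MFlip

variable {ι : Type} [Fintype ι] {v : ι → E4}

omit [Fintype ι] in
theorem ias (i : ι) (p d : E4) (t : ℝ) :
    ⟪v i, p + t • d⟫_ℝ = ⟪v i, p⟫_ℝ + t * ⟪v i, d⟫_ℝ := by
  rw [inner_add_right, inner_smul_right]

theorem exists_pos (h : Bornology.IsBounded (Po v)) {p d : E4} (hp : p ∈ Po v) (hd : d ≠ 0) :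
    ∃ j, 0 < ⟪v j, d⟫_ℝ := by
  by_contra hc
  push Not at hc
  obtain ⟨R, hR⟩ := h.subset_closedBall (0 : E4)
  have hdn : 0 < ‖d‖ := norm_pos_iff.mpr hd
  have hR0 : 0 ≤ R := by
    have := hR hp
    rw [mem_closedBall_zero_iff] at this
    exact (norm_nonneg _).trans this
  set t : ℝ := (R + ‖p‖ + 1) / ‖d‖ with ht
  have ht0 : 0 ≤ t := by positivity
  have hm : p + t • d ∈ Po v := by
    rw [mem_Po]
    intro i
    rw [ias]
    have h1 := mem_Po.mp hp i
    have h2 := mul_nonneg ht0 (neg_nonneg.mpr (hc i))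
    linarith
  have h3 := hR hm
  rw [mem_closedBall_zero_iff] at h3
  have h4 : ‖t • d‖ ≤ ‖p + t • d‖ + ‖p‖ := by
    calc ‖t • d‖ = ‖(p + t • d) - p‖ := by rw [add_sub_cancel_left]
      _ ≤ _ := norm_sub_le _ _
  rw [norm_smul, Real.norm_of_nonneg ht0, ht, div_mul_cancel₀ _ hdn.ne'] at h4
  linarith

theorem move (h : Bornology.IsBounded (Po v)) {p d : E4} (hp : p ∈ Po v) (hd : d ≠ 0)
    (ha : ∀ i ∈ ac v p, ⟪v i, d⟫_ℝ ≤ 0) :
    ∃ t : ℝ, 0 < t ∧ p + t • d ∈ Po v ∧ ∃ j, j ∉ ac v p ∧ j ∈ ac v (p + t • d) := by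
  classical
  obtain ⟨j0, hj0⟩ := exists_pos h hp hd
  have hne : (univ.filter fun j : ι => 0 < ⟪v j, d⟫_ℝ).Nonempty := ⟨j0, by simpa using hj0⟩
  obtain ⟨j, hj, hmin⟩ := exists_min_image _ (fun j => (1 - ⟪v j, p⟫_ℝ) / ⟪v j, d⟫_ℝ) hne
  simp only [mem_filter, mem_univ, true_and] at hj hmin
  have hja : j ∉ ac v p := fun hc => absurd (ha j hc) (not_le.mpr hj)
  have hjl : ⟪v j, p⟫_ℝ < 1 := lt_of_le_of_ne (mem_Po.mp hp j) fun hc => hja (mem_ac.mpr hc)
  refine ⟨(1 - ⟪v j, p⟫_ℝ) / ⟪v j, d⟫_ℝ, div_pos (by linarith) hj, ?_, j, hja, ?_⟩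
  · rw [mem_Po]
    intro i
    rw [ias]
    have hi := mem_Po.mp hp i
    rcases le_or_gt (⟪v i, d⟫_ℝ) 0 with h1 | h1
    · have h2 : 0 ≤ (1 - ⟪v j, p⟫_ℝ) / ⟪v j, d⟫_ℝ * (-⟪v i, d⟫_ℝ) :=
        mul_nonneg (div_pos (by linarith) hj).le (by linarith)
      linarith
    · have h2 := hmin i h1
      rw [le_div_iff₀ h1] at h2
      linarith
  · rw [mem_ac, ias, div_mul_cancel₀ _ hj.ne']
    ring

omit [Fintype ι] in
theorem orth0 {s : Finset ι} (h4 : s.card = 4) (hi : LinearIndepOn ℝ v (s : Set ι)) {r : E4}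
    (hr : ∀ i ∈ s, ⟪v i, r⟫_ℝ = 0) : r = 0 := by
  have hi' : LinearIndependent ℝ (fun i : s => v i) := hi
  have hne : Nonempty s := by
    rw [nonempty_coe_sort, ← card_pos, h4]
    norm_num
  have h1 := hi'.span_eq_top_of_card_eq_finrank (by
    rw [Fintype.card_coe, h4, finrank_euclideanSpace_fin])
  have h2 : r ∈ (⊤ : Submodule ℝ E4)ᗮ := by
    rw [← h1, Submodule.mem_orthogonal]
    intro w hw
    induction hw using Submodule.span_induction with
    | mem x hx =>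
      obtain ⟨i, rfl⟩ := hx
      exact hr i.1 i.2
    | zero => simp
    | add x y _ _ hx hy => rw [inner_add_left, hx, hy, add_zero]
    | smul a x _ hx => rw [inner_smul_left, hx, mul_zero]
  rw [Submodule.top_orthogonal_eq_bot] at h2
  simpa using h2

end MFlip

open MFlip in
theorem t_Flip (hExt : StmtExt) : StmtFlip := by
  intro ι _ _ v hb x hx h4 hi y hy hy3
  -- the fourth index
  obtain ⟨d, hd⟩ : ∃ d, ac v x \ y = {d} := by
    rw [← card_eq_one, card_sdiff_of_subset hy]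
    omega
  have hdm : d ∈ ac v x \ y := by rw [hd]; exact mem_singleton_self d
  rw [mem_sdiff] at hdm
  have hdy : ∀ i ∈ ac v x, i = d ∨ i ∈ y := by
    intro i hia
    by_cases hiy : i ∈ y
    · exact Or.inr hiy
    · left
      have : i ∈ ac v x \ y := mem_sdiff.mpr ⟨hia, hiy⟩
      rw [hd] at this
      exact mem_singleton.mp this
  -- the direction
  obtain ⟨r, hr0, hry, hrd⟩ : ∃ r : E4, r ≠ 0 ∧ (∀ i ∈ y, ⟪v i, r⟫_ℝ = 0) ∧ ⟪v d, r⟫_ℝ < 0 := by
    have hlt : Module.finrank ℝ (Submodule.span ℝ (Set.range fun i : y => v i)) < 4 := by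
      have h1 := finrank_range_le_card (R := ℝ) (fun i : y => v i)
      rw [Set.finrank, Fintype.card_coe] at h1
      omega
    obtain ⟨r, hr0, hr⟩ := exists_orth _ hlt
    have hr' : ∀ i ∈ y, ⟪v i, r⟫_ℝ = 0 := fun i hi => hr ⟨i, hi⟩
    have hne : ⟪v d, r⟫_ℝ ≠ 0 := by
      intro hc
      apply hr0
      apply orth0 h4 hi
      intro i hia
      rcases hdy i hia with rfl | h
      · exact hc
      · exact hr' i h
    rcases lt_or_gt_of_ne hne with h | h
    · exact ⟨r, hr0, hr', h⟩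
    · refine ⟨-r, neg_ne_zero.mpr hr0, fun i hi => ?_, ?_⟩
      · rw [inner_neg_right, hr' i hi, neg_zero]
      · rw [inner_neg_right]
        linarith
  obtain ⟨t, ht, hx', j, hj, hj'⟩ := move hb hx hr0 (by
    intro i hia
    rcases hdy i hia with rfl | h
    · exact hrd.le
    · exact (hry i h).le)
  have hjr : 0 < ⟪v j, r⟫_ℝ := by
    have h1 : ⟪v j, x⟫_ℝ < 1 := lt_of_le_of_ne (mem_Po.mp hx j) fun hc => hj (mem_ac.mpr hc)
    rw [mem_ac, ias] at hj'
    by_contra hc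
    push Not at hc
    have h2 := mul_nonneg ht.le (neg_nonneg.mpr hc)
    linarith
  have hysub : y ⊆ ac v (x + t • r) := by
    intro i hiy
    rw [mem_ac, ias, hry i hiy, mul_zero, add_zero]
    exact mem_ac.mp (hy hiy)
  refine ⟨x + t • r, ?_, hysub, ?_⟩
  · rw [hExt]
    refine ⟨hx', fun z hz => ?_⟩
    have hzr : z - (⟪v d, z⟫_ℝ / ⟪v d, r⟫_ℝ) • r = 0 := by
      apply orth0 h4 hi
      intro i hia
      rw [inner_sub_right, inner_smul_right]
      rcases hdy i hia with rfl | h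
      · rw [div_mul_cancel₀ _ hrd.ne, sub_self]
      · rw [hry i h, mul_zero, sub_zero]
        exact hz i (hysub h)
    have hz1 : z = (⟪v d, z⟫_ℝ / ⟪v d, r⟫_ℝ) • r := sub_eq_zero.mp hzr
    have hzj := hz j hj'
    rw [hz1, inner_smul_right] at hzj
    rcases mul_eq_zero.mp hzj with h | h
    · rw [hz1, h, zero_smul]
    · exact absurd h hjr.ne'
  · intro hc
    rw [hc] at hj'
    exact hj hj'

end KAG
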