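import Pool.Agent.KAG.Stmts

/-!
# All points in general position
-/

set_option autoImplicit false

namespace KAG

open Finset QMark
open scoped InnerProductSpace

theorem t_Gen (hStep : StmtStep) : StmtGen := by
  intro ι _ _ v d ε hd hε
  have key : ∀ s : Finset ι, ∃ v' : ι → E4, (∀ i, ⟪v' i, d⟫_ℝ = ⟪v i, d⟫_ℝ) ∧
      (∀ i, ‖v' i - v i‖ < ε) ∧ (∀ i, i ∉ s → v' i = v i) ∧ GPos v' d s := by
    intro s
    induction s using Finset.induction_on with
    | empty =>
      refine ⟨v, fun _ => rfl, fun i => by simpa using hε, fun _ _ => rfl, ?_⟩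
      intro S hS _ _
      have hS0 : S = ∅ := Finset.subset_empty.1 hS
      subst hS0
      rw [Finset.coe_empty]
      exact linearIndepOn_empty ℝ (hom v)
    | insert i s hi ih =>
      obtain ⟨v', h1, h2, h3, h4⟩ := ih
      obtain ⟨a, ha1, ha2, ha3⟩ := hStep ι v' d s i ε hd hε hi h4
      refine ⟨Function.update v' i a, ?_, ?_, ?_, ha3⟩
      · intro j
        by_cases hj : j = i
        · subst hj
          rw [Function.update_self, ha1, h1]
        · rw [Function.update_of_ne hj, h1]
      · intro j
        by_cases hj : j = i
        · subst hj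
          rw [Function.update_self, ← h3 j hi]
          exact ha2
        · rw [Function.update_of_ne hj]
          exact h2 j
      · intro j hj
        rw [Finset.mem_insert, not_or] at hj
        rw [Function.update_of_ne hj.1]
        exact h3 j hj.2
  obtain ⟨v', h1, h2, -, h4⟩ := key univ
  exact ⟨v', h1, h2, h4⟩

end KAG
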