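import Pool.Agent.KAG.Stmts
import Pool.Agent.KAL.Ineq

/-!
# A 2-face with simple vertices keeps its number of vertices
-/

set_option autoImplicit false

namespace KAG

open Finset QMark
open scoped InnerProductSpace

namespace MKeep

variable {ι κ : Type} [Fintype ι] [DecidableEq ι] [Fintype κ] [DecidableEq κ]

omit [DecidableEq ι] in
theorem indep_ext (hExt : StmtExt) {v : ι → E4} {x : E4}
    (hx : x ∈ Set.extremePoints ℝ (Po v)) (h4 : (ac v x).card = 4) :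
    LinearIndepOn ℝ v (ac v x : Set ι) := by
  have h := ((hExt ι v x).mp hx).2
  change LinearIndependent ℝ (fun i : (ac v x : Finset ι) => v i)
  rw [linearIndependent_iff_card_eq_finrank_span]
  by_contra hc
  have h1 := finrank_range_le_card (R := ℝ) (fun i : (ac v x : Finset ι) => v i)
  obtain ⟨d, hd, hd0⟩ := exists_orth (fun i : (ac v x : Finset ι) => v i) (by
    rw [Set.finrank] at h1 hc
    rw [Fintype.card_coe] at h1 hc
    omega)
  exact hd (h d fun i hi => hd0 ⟨i, hi⟩)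

omit [DecidableEq ι] in
theorem inj_ext (hExt : StmtExt) {v : ι → E4} {x x' : E4}
    (hx : x ∈ Set.extremePoints ℝ (Po v)) (hs : ac v x ⊆ ac v x') : x' = x := by
  have h := ((hExt ι v x).mp hx).2 (x' - x) fun i hi => by
    rw [inner_sub_right, mem_ac.mp hi, mem_ac.mp (hs hi), sub_self]
  exact sub_eq_zero.mp h

/-- The two vertices over a triple. -/
theorem two_of (hExt : StmtExt) (hFlip : StmtFlip) {v : ι → E4} {w : κ → E4} {e : ι ↪ κ}
    (hb : Bornology.IsBounded (Po v)) (hS : SP w (fun _ => 1))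
    (hw : ∀ x ∈ Po v, LinearIndepOn ℝ v (ac v x : Set ι) →
      ∃ x' ∈ Po w, ac w x' = (ac v x).map e)
    {s : Finset ι} (hs : s.card = 2)
    (h4 : ∀ x ∈ Set.extremePoints ℝ (Po v), s ⊆ ac v x → (ac v x).card = 4)
    {x : E4} (hx : x ∈ Set.extremePoints ℝ (Po v)) (hsx : s ⊆ ac v x) {z : ι}
    (hz : z ∈ ac v x) (hzs : z ∉ s) {t : Finset κ} (ht : t ∈ tets w (fun _ => 1))
    (hst : (insert z s).map e ⊆ t) :
    ∃ x' ∈ Set.extremePoints ℝ (Po v), s ⊆ ac v x' ∧ t = (ac v x').map e := by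
  classical
  have hmem : ∀ x' ∈ Set.extremePoints ℝ (Po v), s ⊆ ac v x' →
      (ac v x').map e ∈ tets w (fun _ => 1) := by
    intro x' hx' hs'
    obtain ⟨p, hp, hpa⟩ := hw x' ((hExt ι v x').mp hx').1 (indep_ext hExt hx' (h4 x' hx' hs'))
    exact mem_tets.mpr ⟨by rw [card_map, h4 x' hx' hs'], p, hp, hpa⟩
  have hy3 : (insert z s).card = 3 := by rw [card_insert_of_notMem hzs, hs]
  have hyx : insert z s ⊆ ac v x := insert_subset hz hsx
  obtain ⟨x1, hx1, hy1, hne⟩ := hFlip ι v hb x ((hExt ι v x).mp hx).1 (h4 x hx hsx)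
    (indep_ext hExt hx (h4 x hx hsx)) (insert z s) hyx hy3
  have hs1 : s ⊆ ac v x1 := (subset_insert _ _).trans hy1
  by_contra hcon
  push Not at hcon
  have hc := card_three hS (y := (insert z s).map e) (by rw [card_map, hy3]) ht hst
  have hsub : ({t, (ac v x).map e, (ac v x1).map e} : Finset (Finset κ)) ⊆
      (tets w (fun _ => 1)).filter fun t => (insert z s).map e ⊆ t := by
    intro r hr
    simp only [mem_insert, mem_singleton] at hr
    rw [mem_filter]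
    rcases hr with rfl | rfl | rfl
    · exact ⟨ht, hst⟩
    · exact ⟨hmem x hx hsx, map_subset_map.mpr hyx⟩
    · exact ⟨hmem x1 hx1 hs1, map_subset_map.mpr hy1⟩
  have h3 : ({t, (ac v x).map e, (ac v x1).map e} : Finset (Finset κ)).card = 3 := by
    rw [card_eq_three]
    refine ⟨t, _, _, hcon x hx hsx, hcon x1 hx1 hs1, ?_, rfl⟩
    intro he
    exact hne (map_injective e he).symm
  have := card_le_card hsub
  omega

end MKeep

open MKeep in
theorem t_Keep (hExt : StmtExt) (hFaceV : StmtFaceV) (hFlip : StmtFlip) : StmtKeep := by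
  intro ι κ _ _ _ _ v w e hb hS hw s hs hex h4
  classical
  have hmem : ∀ x' ∈ Set.extremePoints ℝ (Po v), s ⊆ ac v x' →
      (ac v x').map e ∈ tets w (fun _ => 1) := by
    intro x' hx' hs'
    obtain ⟨p, hp, hpa⟩ := hw x' ((hExt ι v x').mp hx').1 (indep_ext hExt hx' (h4 x' hx' hs'))
    exact mem_tets.mpr ⟨by rw [card_map, h4 x' hx' hs'], p, hp, hpa⟩
  obtain ⟨x₀, hx₀, hx₀s⟩ := hex
  obtain ⟨x, hx, hsx⟩ := hFaceV ι v hb x₀ hx₀
  rw [hx₀s] at hsx
  have hcs : (s.map e).card = 2 := by rw [card_map, hs]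
  -- the closed set
  set Z : Finset κ := (univ.filter fun z : ι => z ∉ s ∧
    ∃ x ∈ Set.extremePoints ℝ (Po v), s ⊆ ac v x ∧ z ∈ ac v x).map e with hZ
  have hmZ : ∀ k, k ∈ Z ↔ ∃ z : ι, (z ∉ s ∧
      ∃ x ∈ Set.extremePoints ℝ (Po v), s ⊆ ac v x ∧ z ∈ ac v x) ∧ e z = k := by
    intro k
    rw [hZ, mem_map]
    constructor
    · rintro ⟨z, hz, rfl⟩
      exact ⟨z, (mem_filter.mp hz).2, rfl⟩
    · rintro ⟨z, hz, rfl⟩
      exact ⟨z, mem_filter.mpr ⟨mem_univ _, hz⟩, rfl⟩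
  have hall : ∀ t ∈ tets w (fun _ => 1), s.map e ⊆ t → (∃ k ∈ t, k ∈ Z) →
      ∃ x' ∈ Set.extremePoints ℝ (Po v), s ⊆ ac v x' ∧ t = (ac v x').map e := by
    intro t ht hst ⟨k, hk, hkZ⟩
    obtain ⟨z, ⟨hzs, x1, hx1, hs1, hz1⟩, rfl⟩ := (hmZ k).mp hkZ
    refine two_of hExt hFlip hb hS hw hs h4 hx1 hs1 hz1 hzs ht ?_
    rw [map_insert]
    exact insert_subset hk hst
  have hZlk : Z = KAL.lk w (fun _ => 1) (s.map e) := by
    refine KAL.conn hS hcs ?_ ?_ ?_
    · intro k hk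
      obtain ⟨z, ⟨hzs, x1, hx1, hs1, hz1⟩, rfl⟩ := (hmZ k).mp hk
      rw [KAL.mem_lk]
      refine ⟨?_, (ac v x1).map e, hmem x1 hx1 hs1, map_subset_map.mpr hs1,
        mem_map_of_mem e hz1⟩
      intro hc
      exact hzs ((mem_map' e).mp hc)
    · obtain ⟨z, hz, hzs⟩ : ∃ z ∈ ac v x, z ∉ s := by
        by_contra hcon
        push Not at hcon
        have h1 := card_le_card (show ac v x ⊆ s from hcon)
        have h2 := h4 x hx hsx
        omega
      exact ⟨e z, (hmZ _).mpr ⟨z, ⟨hzs, x, hx, hsx, hz⟩, rfl⟩⟩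
    · intro t ht hst k hk hkZ k' hk' hk's
      obtain ⟨x1, hx1, hs1, rfl⟩ := hall t ht hst ⟨k, hk, hkZ⟩
      obtain ⟨z', hz', rfl⟩ := mem_map.mp hk'
      exact (hmZ _).mpr ⟨z', ⟨fun hc => hk's (mem_map_of_mem e hc), x1, hx1, hs1, hz'⟩, rfl⟩
  have hall' : ∀ t ∈ tets w (fun _ => 1), s.map e ⊆ t →
      ∃ x' ∈ Set.extremePoints ℝ (Po v), s ⊆ ac v x' ∧ t = (ac v x').map e := by
    intro t ht hst
    refine hall t ht hst ?_
    obtain ⟨k, hk, hks⟩ : ∃ k ∈ t, k ∉ s.map e := by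
      by_contra hcon
      push Not at hcon
      have h1 := card_le_card (show t ⊆ s.map e from hcon)
      have h2 := (mem_tets.mp ht).1
      omega
    refine ⟨k, hk, ?_⟩
    rw [hZlk, KAL.mem_lk]
    exact ⟨hks, t, ht, hst, hk⟩
  refine ⟨mem_faces.mpr ⟨hcs, _, hmem x hx hsx, map_subset_map.mpr hsx⟩, ?_⟩
  have hinj : Set.InjOn (fun x : E4 => (ac v x).map e)
      {x | x ∈ Set.extremePoints ℝ (Po v) ∧ s ⊆ ac v x} := by
    intro a ha a' _ haa
    have h1 : ac v a = ac v a' := map_injective e haa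
    exact (inj_ext hExt ha.1 h1.subset).symm
  rw [← hinj.ncard_image, size, ← Set.ncard_coe_finset]
  congr 1
  ext t
  rw [mem_coe, mem_filter]
  constructor
  · rintro ⟨ht, hst⟩
    obtain ⟨x1, hx1, hs1, rfl⟩ := hall' t ht hst
    exact ⟨x1, ⟨hx1, hs1⟩, rfl⟩
  · rintro ⟨x1, ⟨hx1, hs1⟩, rfl⟩
    exact ⟨hmem x1 hx1 hs1, map_subset_map.mpr hs1⟩

end KAG
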