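import Pool.Agent.KAG.Stmts

/-!
# Persistence of the vertices with linearly independent active sets
-/

set_option autoImplicit false

namespace KAG

open Finset QMark
open scoped InnerProductSpace

/-- **StmtPersist.** -/
theorem t_Persist (hBdd : StmtBdd) (hTet : StmtTet) : StmtPersist := by
  intro ι _ _ v hb
  obtain ⟨ε₀, h0, hε0⟩ := hBdd ι v hb
  have key : ∀ T : Finset ι, ∃ ε : ℝ, 0 < ε ∧ ∀ v' : ι → E4, (∀ i, ‖v' i - v i‖ < ε) →
      ∀ x ∈ Po v, ac v x = T → LinearIndepOn ℝ v (ac v x : Set ι) →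
        ∃ x' ∈ Po v', ac v' x' = ac v x := by
    intro T
    by_cases h : ∃ x ∈ Po v, ac v x = T ∧ LinearIndepOn ℝ v (ac v x : Set ι)
    · obtain ⟨x, hx, hT, hl⟩ := h
      obtain ⟨ε, hε, h⟩ := hTet ι v x hx hl
      refine ⟨ε, hε, fun v' hv' y _ hy _ => ?_⟩
      obtain ⟨x', hx', e⟩ := h v' hv'
      exact ⟨x', hx', by rw [e, hT, hy]⟩
    · exact ⟨1, one_pos, fun v' _ x hx hT hl => absurd ⟨x, hx, hT, hl⟩ h⟩
  choose ε hε hεT using key
  have hne : (univ : Finset (Finset ι)).Nonempty := ⟨∅, mem_univ _⟩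
  refine ⟨min ε₀ (univ.inf' hne ε), lt_min h0 ?_, fun v' hv' => ⟨hε0 v' fun i => ?_, ?_⟩⟩
  · rw [Finset.lt_inf'_iff]
    exact fun T _ => hε T
  · exact lt_of_lt_of_le (hv' i) (min_le_left _ _)
  · intro x hx hl
    refine hεT (ac v x) v' (fun i => ?_) x hx rfl hl
    exact lt_of_lt_of_le (hv' i) ((min_le_right _ _).trans (Finset.inf'_le _ (mem_univ _)))

end KAG
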