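import Pool.Agent.KAG.Stmts

/-!
# Reduction to a simple polytope
-/

set_option autoImplicit false

namespace KAG

open Finset QMark
open scoped InnerProductSpace

namespace MRed

theorem gpos_neg {ι : Type} {v : ι → E4} {d : E4} {s : Finset ι} (h : GPos v d s) :
    GPos v (-d) s := by
  intro S hS h5 h4
  refine h S hS h5 (h4.imp_right ?_)
  rintro ⟨i, hi, j, hj, hne⟩
  refine ⟨i, hi, j, hj, fun hc => hne ?_⟩
  rw [inner_neg_right, inner_neg_right, hc]

theorem image_neg {ι : Type} [Fintype ι] (v : ι → E4) (d : E4) :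
    (univ.image fun k => ⟪v k, -d⟫_ℝ).card = (univ.image fun k => ⟪v k, d⟫_ℝ).card := by
  have h : (univ.image fun k => ⟪v k, -d⟫_ℝ) =
      (univ.image fun k => ⟪v k, d⟫_ℝ).image (fun t => -t) := by
    rw [image_image]
    refine image_congr fun k _ => ?_
    simp only [Function.comp_apply]
    rw [inner_neg_right]
  rw [h, card_image_of_injective _ neg_injective]

theorem cls_neg {ι : Type} [Fintype ι] (v : ι → E4) (d : E4) (i : ι) :
    cls v (-d) i = cls v d i := by
  ext j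
  rw [mem_cls, mem_cls, inner_neg_right, inner_neg_right, neg_inj]

/-- A bounded polyhedron in general position all of whose inequalities are facets. -/
structure Good {κ : Type} [Fintype κ] (w : κ → E4) (d : E4) : Prop where
  gp : GPos w d univ
  bdd : Bornology.IsBounded (Po w)
  pt : ∀ k, ∃ x ∈ Po w, ac w x = {k}

theorem Good.neg {κ : Type} [Fintype κ] {w : κ → E4} {d : E4} (h : Good w d) : Good w (-d) :=
  ⟨gpos_neg h.gp, h.bdd, h.pt⟩

/-- One step: cutting off the highest layer if it is large. -/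
theorem step (hCap : StmtCap) {κ : Type} [Fintype κ] [DecidableEq κ] [Nonempty κ] (w : κ → E4)
    (d : E4) (hd : d ≠ 0) (h : Good w d) :
    ∃ (κ' : Type) (_ : Fintype κ') (_ : DecidableEq κ') (e : κ ↪ κ') (w' : κ' → E4),
      Fintype.card κ' ≤ Fintype.card κ + 1 ∧
      (univ.image fun k => ⟪w' k, d⟫_ℝ).card ≤ (univ.image fun k => ⟪w k, d⟫_ℝ).card + 1 ∧
      Good w' d ∧
      (∀ x ∈ Po w, (ac w x).card ≤ 4 → ∃ x' ∈ Po w', ac w' x' = (ac w x).map e) ∧
      (∀ k, w' (e k) = w k) ∧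
      (∀ k', (∀ j, ⟪w' j, d⟫_ℝ ≤ ⟪w' k', d⟫_ℝ) → (cls w' d k').card ≤ 4) ∧
      (∀ k', (∃ k, e k = k') ∨ ∀ k, ⟪w k, d⟫_ℝ < ⟪w' k', d⟫_ℝ) := by
  obtain ⟨i₀, hi₀⟩ := Finite.exists_max (fun k => ⟪w k, d⟫_ℝ)
  rcases Nat.lt_or_ge (cls w d i₀).card 5 with h4 | h5
  · refine ⟨κ, inferInstance, inferInstance, Function.Embedding.refl κ, w, Nat.le_succ _,
      Nat.le_succ _, h, ?_, fun _ => rfl, ?_, fun k' => Or.inl ⟨k', rfl⟩⟩
    · intro x hx _
      exact ⟨x, hx, by rw [map_refl]⟩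
    · intro k' hk'
      have he : ⟪w k', d⟫_ℝ = ⟪w i₀, d⟫_ℝ := le_antisymm (hi₀ k') (hk' i₀)
      have hc : cls w d k' = cls w d i₀ := by
        ext j
        rw [mem_cls, mem_cls, he]
      rw [hc]
      omega
  · obtain ⟨a, hg, hh, hb, hn, hk⟩ := hCap κ w d i₀ hd h.gp h.bdd hi₀ h5
    refine ⟨Option κ, inferInstance, inferInstance, Function.Embedding.some, opt a w, ?_, ?_,
      ⟨hg, hb, ?_⟩, hk, fun _ => rfl, ?_, ?_⟩
    · rw [Fintype.card_option]
    · have hsub : (univ.image fun k => ⟪opt a w k, d⟫_ℝ) ⊆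
          insert ⟪a, d⟫_ℝ (univ.image fun k => ⟪w k, d⟫_ℝ) := by
        intro t ht
        obtain ⟨o, -, rfl⟩ := mem_image.mp ht
        cases o with
        | none => exact mem_insert_self _ _
        | some k => exact mem_insert_of_mem (mem_image.mpr ⟨k, mem_univ k, rfl⟩)
      exact (card_le_card hsub).trans (card_insert_le _ _)
    · intro o
      cases o with
      | none => exact hn
      | some k =>
        obtain ⟨x, hx, hxk⟩ := h.pt k
        obtain ⟨x', hx', hx'k⟩ := hk x hx (by rw [hxk, card_singleton]; norm_num)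
        refine ⟨x', hx', ?_⟩
        rw [hx'k, hxk, map_singleton]
        rfl
    · intro o ho
      have hon : o = none := by
        cases o with
        | none => rfl
        | some k => exact absurd (ho none) (not_le.mpr (hh k))
      subst hon
      have hsub : cls (opt a w) d none ⊆ {none} := by
        intro o ho'
        rw [mem_cls] at ho'
        cases o with
        | none => exact mem_singleton_self _
        | some k => exact absurd ho' (hh k).ne
      have := card_le_card hsub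
      rw [card_singleton] at this
      omega
    · intro o
      cases o with
      | none => exact Or.inr hh
      | some k => exact Or.inl ⟨k, rfl⟩

theorem nonempty_of_bdd {ι : Type} [Fintype ι] {v : ι → E4} (h : Bornology.IsBounded (Po v))
    {d : E4} (hd : d ≠ 0) : Nonempty ι := by
  by_contra hne
  rw [not_nonempty_iff] at hne
  have hu : Po v = Set.univ := by
    ext x
    simp only [Set.mem_univ, iff_true]
    exact fun i => (hne.false i).elim
  rw [hu] at h
  obtain ⟨R, hR⟩ := h.subset_closedBall (0 : E4)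
  have hdn : 0 < ‖d‖ := norm_pos_iff.mpr hd
  have h1 := hR (Set.mem_univ (((|R| + 1) / ‖d‖) • d))
  rw [mem_closedBall_zero_iff, norm_smul, Real.norm_of_nonneg (by positivity),
    div_mul_cancel₀ _ hdn.ne'] at h1
  have := le_abs_self R
  linarith

end MRed

open MRed

theorem t_Red (hGen : StmtGen) (hSimple : StmtSimple) (hPersist : StmtPersist)
    (hCap : StmtCap) : StmtRed := by
  intro ι _ _ v d hd hb hpt
  have hne : Nonempty ι := nonempty_of_bdd hb hd
  obtain ⟨ε, hε, hper⟩ := hPersist ι v hb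
  obtain ⟨v', hv'h, hv'n, hv'g⟩ := hGen ι v d ε hd hε
  obtain ⟨hb', hk'⟩ := hper v' hv'n
  have hG' : Good v' d := by
    refine ⟨hv'g, hb', fun i => ?_⟩
    obtain ⟨x, hx, hxi⟩ := hpt i
    have hi1 : ⟪v i, x⟫_ℝ = 1 := mem_ac.mp (by rw [hxi]; exact mem_singleton_self i)
    have hvi : v i ≠ 0 := by
      intro h0
      rw [h0, inner_zero_left] at hi1
      exact zero_ne_one hi1
    obtain ⟨x', hx', hx'i⟩ := hk' x hx (by
      rw [hxi, coe_singleton]
      exact LinearIndepOn.singleton hvi)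
    exact ⟨x', hx', hx'i.trans hxi⟩
  obtain ⟨κ₁, i1, i1', e₁, w₁, hc₁, hh₁, hG₁, hk₁, hw₁, hm₁, hn₁⟩ := step hCap v' d hd hG'
  have hne₁ : Nonempty κ₁ := hne.map e₁
  obtain ⟨κ₂, i2, i2', e₂, w₂, hc₂, hh₂, hG₂, hk₂, hw₂, hm₂, hn₂⟩ :=
    step hCap w₁ (-d) (neg_ne_zero.mpr hd) hG₁.neg
  have hG : Good w₂ d := by
    have := hG₂.neg
    rwa [neg_neg] at this
  -- the heights of `v'`
  have hv'im : (univ.image fun i => ⟪v' i, d⟫_ℝ) = (univ.image fun i => ⟪v i, d⟫_ℝ) :=
    image_congr fun i _ => hv'h i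
  -- the highest layer of `w₂`
  have hhigh : ∀ k', (∀ j, ⟪w₂ j, d⟫_ℝ ≤ ⟪w₂ k', d⟫_ℝ) → (cls w₂ d k').card ≤ 4 := by
    intro k' hk'max
    have hlow : ∀ k'', (¬ ∃ k, e₂ k = k'') → ∀ k, ⟪w₂ k'', d⟫_ℝ < ⟪w₁ k, d⟫_ℝ := by
      intro k'' hk'' k
      rcases hn₂ k'' with h | h
      · exact absurd h hk''
      · have := h k
        rw [inner_neg_right, inner_neg_right] at this
        linarith
    obtain ⟨k₀⟩ := hne₁
    have hex : ∃ k, e₂ k = k' := by
      by_contra hc
      have h1 := hlow k' hc k₀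
      have h2 := hk'max (e₂ k₀)
      rw [hw₂] at h2
      linarith
    obtain ⟨k, rfl⟩ := hex
    rw [hw₂] at hk'max
    have hcls : cls w₂ d (e₂ k) ⊆ (cls w₁ d k).map e₂ := by
      intro j hj
      rw [mem_cls, hw₂] at hj
      by_cases hj' : ∃ l, e₂ l = j
      · obtain ⟨l, rfl⟩ := hj'
        rw [hw₂] at hj
        exact mem_map.mpr ⟨l, mem_cls.mpr hj, rfl⟩
      · exact absurd hj (hlow j hj' k).ne
    have h3 := card_le_card hcls
    rw [card_map] at h3
    refine h3.trans (hm₁ k fun j => ?_)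
    have := hk'max (e₂ j)
    rwa [hw₂] at this
  have hsimple : ∀ x ∈ Po w₂, (ac w₂ x).card ≤ 4 := by
    refine hSimple κ₂ w₂ d hd hG.gp fun k => ?_
    by_cases h1 : ∀ j, ⟪w₂ j, d⟫_ℝ ≤ ⟪w₂ k, d⟫_ℝ
    · exact Or.inl (hhigh k h1)
    by_cases h2 : ∀ j, ⟪w₂ k, d⟫_ℝ ≤ ⟪w₂ j, d⟫_ℝ
    · left
      rw [← cls_neg]
      refine hm₂ k fun j => ?_
      rw [inner_neg_right, inner_neg_right]
      exact neg_le_neg (h2 j)
    push Not at h1 h2
    exact Or.inr ⟨h1, h2⟩
  refine ⟨κ₂, i2, i2', e₁.trans e₂, w₂, by omega, ?_, ⟨hG.bdd, hsimple⟩, hG.pt, ?_⟩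
  · rw [MRed.image_neg, MRed.image_neg] at hh₂
    rw [hv'im] at hh₁
    omega
  · intro x hx hli
    obtain ⟨x', hx', hxx'⟩ := hk' x hx hli
    have hc4 : (ac v x).card ≤ 4 := by
      have h1 : LinearIndependent ℝ (fun i : (ac v x : Set ι) => v i) := hli
      have h2 := h1.fintype_card_le_finrank
      have h3 : Module.finrank ℝ E4 = 4 := by simp
      rw [h3] at h2
      simpa using h2
    obtain ⟨x₁, hx₁, hxx₁⟩ := hk₁ x' hx' (by rw [hxx']; exact hc4)
    obtain ⟨x₂, hx₂, hxx₂⟩ := hk₂ x₁ hx₁ (by rw [hxx₁, card_map, hxx']; exact hc4)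
    refine ⟨x₂, hx₂, ?_⟩
    rw [hxx₂, hxx₁, hxx', map_map]

end KAG
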