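import Pool.Agent.KAG.Data
import Pool.Agent.KAL.Sd

/-!
# The facet data of all vertices (`KAL.SD`)
-/

set_option autoImplicit false

namespace KAG

open Finset QMark
open scoped InnerProductSpace

/-- At an extreme point at least four functionals are active. -/
theorem MData.four (hExt : StmtExt) {ι : Type} [Fintype ι] {v : ι → E4} {x : E4}
    (hx : x ∈ Set.extremePoints ℝ (Po v)) : 4 ≤ (ac v x).card := by
  classical
  by_contra hc
  have hlt : Module.finrank ℝ (Submodule.span ℝ (Set.range fun i : ac v x => v i)) < 4 := by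
    have h1 := finrank_range_le_card (R := ℝ) (fun i : ac v x => v i)
    rw [Fintype.card_coe] at h1
    rw [Set.finrank] at h1
    omega
  obtain ⟨y, hy0, hy⟩ := exists_orth _ hlt
  exact hy0 (((hExt ι v x).1 hx).2 y fun i hi => hy ⟨i, hi⟩)

/-- **The facet data of all vertices** -/
theorem t_Sd (hExt : StmtExt) : ∀ (ι : Type) [Fintype ι] [DecidableEq ι] (v : ι → E4) (d : E4),
    d ≠ 0 → Bornology.IsBounded (Po v) → (∀ i, ∃ x ∈ Po v, ac v x = {i}) →
    ∃ (V : Finset (TPH.E × ℝ)) (f : ι → TPH.E × ℝ) (G : Finset E4) (u : E4 → TPH.E)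
      (s q : E4 → ℝ), KAL.SD V G u s q ∧ V.card = Fintype.card ι ∧
      (∀ i, f i ∈ V ∧ (f i).2 = ⟪v i, d⟫_ℝ) ∧ (∀ y ∈ V, ∃ i, f i = y) ∧ Function.Injective f ∧
      (∀ x, x ∈ G ↔ x ∈ Set.extremePoints ℝ (Po v)) ∧
      ∀ x ∈ G, ∀ i, TPH.Tr.val (u x) (s x) (f i) = q x ↔ i ∈ ac v x := by
  classical
  intro ι _ _ v d hd _ hi
  have hl : (innerSL ℝ d).toLinearMap ≠ 0 := by
    intro h
    have h1 := congrArg (fun l : E4 →ₗ[ℝ] ℝ => l d) h
    simp only [ContinuousLinearMap.coe_coe, innerSL_apply_apply, LinearMap.zero_apply] at h1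
    exact hd (inner_self_eq_zero.1 h1)
  obtain ⟨Θ, hΘ⟩ := TPH.Tr.exists_coord (W := E4) (by rw [finrank_euclideanSpace_fin])
    (innerSL ℝ d).toLinearMap hl
  have hvinj := MData.inj hi
  have hfinj : Function.Injective (fun i => Θ (v i)) := Θ.injective.comp hvinj
  have hfin : {x : E4 | x ∈ Set.extremePoints ℝ (Po v)}.Finite := by
    apply Set.Finite.of_finite_image (f := fun x : E4 => ac v x)
    · exact Set.toFinite _
    · intro x hx y hy hxy
      have hxy' : ac v x = ac v y := hxy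
      have h1 := ((hExt ι v x).1 hx).2 (x - y) (by
        intro i hi
        have h2 : i ∈ ac v y := by rw [← hxy']; exact hi
        rw [inner_sub_right, mem_ac.1 hi, mem_ac.1 h2, sub_self])
      exact sub_eq_zero.1 h1
  have hmemV : ∀ y, y ∈ univ.image (fun i => Θ (v i)) ↔ ∃ i, Θ (v i) = y := by
    intro y
    simp
  have hval : ∀ (x : E4) (i : ι), TPH.Tr.val (TCC.rep Θ x).1 (TCC.rep Θ x).2 (Θ (v i))
      = ⟪v i, x⟫_ℝ := fun x i => TCC.val_rep Θ x (v i)
  have hG : ∀ x, x ∈ hfin.toFinset ↔ x ∈ Set.extremePoints ℝ (Po v) := by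
    intro x
    rw [Set.Finite.mem_toFinset]
    rfl
  refine ⟨univ.image (fun i => Θ (v i)), fun i => Θ (v i), hfin.toFinset,
    fun x => (TCC.rep Θ x).1, fun x => (TCC.rep Θ x).2, fun _ => 1, ?_, ?_, ?_, ?_, hfinj, hG, ?_⟩
  · refine ⟨?_, ?_, ?_, ?_, ?_, ?_⟩
    · -- nn
      intro g hg y hy
      obtain ⟨i, rfl⟩ := (hmemV y).1 hy
      rw [hval]
      exact ((hG g).1 hg).1 i
    · -- inj
      intro g hg g' _ h
      have h1 := ((hExt ι v g).1 ((hG g).1 hg)).2 (g' - g) (by
        intro i hi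
        have h2 := h (Θ (v i)) ((hmemV _).2 ⟨i, rfl⟩) (by rw [hval]; exact mem_ac.1 hi)
        rw [hval] at h2
        rw [inner_sub_right, h2, mem_ac.1 hi, sub_self])
      exact (sub_eq_zero.1 h1).symm
    · -- nz
      intro g hg hu hs
      have h1 : 0 < (ac v g).card :=
        lt_of_lt_of_le (by norm_num) (MData.four hExt ((hG g).1 hg))
      obtain ⟨i, hi⟩ := card_pos.1 h1
      have h2 := hval g i
      rw [mem_ac.1 hi] at h2
      rw [hu, hs] at h2
      simp [TPH.Tr.val, TPH.ip] at h2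
    · -- four
      intro g hg
      refine ⟨(ac v g).image (fun i => Θ (v i)), ?_, ?_⟩
      · rw [card_image_of_injective _ hfinj]
        exact MData.four hExt ((hG g).1 hg)
      · intro y hy
        obtain ⟨i, hi, rfl⟩ := mem_image.1 hy
        exact ⟨(hmemV _).2 ⟨i, rfl⟩, by rw [hval]; exact mem_ac.1 hi⟩
    · -- exp
      intro y hy
      obtain ⟨i, rfl⟩ := (hmemV y).1 hy
      obtain ⟨z, hz, hzi⟩ := hi i
      refine ⟨(TCC.rep Θ z).1, (TCC.rep Θ z).2, ?_⟩
      intro y' hy' hne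
      obtain ⟨j, rfl⟩ := (hmemV y').1 hy'
      rw [hval, hval, mem_ac.1 (show i ∈ ac v z by rw [hzi]; exact mem_singleton_self i)]
      refine lt_of_le_of_ne (hz j) ?_
      intro h
      have h1 : j ∈ ac v z := mem_ac.2 h
      rw [hzi, mem_singleton] at h1
      exact hne (by rw [h1])
    · -- two
      intro x hx y hy z hz hxy hxz hyz S hS hS'
      obtain ⟨a, rfl⟩ := (hmemV x).1 hx
      obtain ⟨b, rfl⟩ := (hmemV y).1 hy
      obtain ⟨c, rfl⟩ := (hmemV z).1 hz
      by_contra hcon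
      push Not at hcon
      obtain ⟨g₁, h1, g₂, h2, g₃, h3, h12, h13, h23⟩ := two_lt_card.1 hcon
      have e1 := hS' g₁ h1
      have e2 := hS' g₂ h2
      have e3 := hS' g₃ h3
      simp only [hval] at e1 e2 e3
      have hab : a ≠ b := fun h => hxy (by rw [h])
      have hac : a ≠ c := fun h => hxz (by rw [h])
      have hbc : b ≠ c := fun h => hyz (by rw [h])
      obtain ⟨r, hr⟩ := MData.line (MData.indep hi hab hac hbc e1.1 e1.2.1 e1.2.2)
      have hsub : ∀ (i : ι) (g g' : E4), ⟪v i, g⟫_ℝ = 1 → ⟪v i, g'⟫_ℝ = 1 →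
          ⟪v i, g' - g⟫_ℝ = 0 := by
        intro i g g' h h'
        rw [inner_sub_right, h, h', sub_self]
      obtain ⟨t, ht⟩ := hr (g₂ - g₁) (hsub a _ _ e1.1 e2.1) (hsub b _ _ e1.2.1 e2.2.1)
        (hsub c _ _ e1.2.2 e2.2.2)
      obtain ⟨w, hw⟩ := hr (g₃ - g₁) (hsub a _ _ e1.1 e3.1) (hsub b _ _ e1.2.1 e3.2.1)
        (hsub c _ _ e1.2.2 e3.2.2)
      have k1 : g₁ + (0 : ℝ) • r = g₁ := by rw [zero_smul, add_zero]
      have k2 : g₁ + t • r = g₂ := by rw [← ht]; abel
      have k3 : g₁ + w • r = g₃ := by rw [← hw]; abel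
      refine MData.three (P := Po v) (g := g₁) (r := r) (s := 0) (t := t) (w := w) ?_ ?_ ?_
        (by rw [k1]; exact (hG _).1 (hS h1)) (by rw [k2]; exact (hG _).1 (hS h2))
        (by rw [k3]; exact (hG _).1 (hS h3)) ?_
      · intro h
        rw [← h, k1] at k2
        exact h12 k2
      · intro h
        rw [← h, k1] at k3
        exact h13 k3
      · intro h
        rw [← h, k2] at k3
        exact h23 k3
      · intro h
        rw [h, smul_zero, add_zero] at k2
        exact h12 k2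
  · rw [card_image_of_injective _ hfinj, card_univ]
  · intro i
    refine ⟨(hmemV _).2 ⟨i, rfl⟩, ?_⟩
    rw [hΘ]
    simp only [ContinuousLinearMap.coe_coe, innerSL_apply_apply]
    exact real_inner_comm _ _
  · intro y hy
    exact (hmemV y).1 hy
  · intro x hx i
    simp only
    rw [hval, mem_ac]

end KAG
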