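import Pool.Agent.KAG.Stmts

/-!
# `StmtSimple`: general position and small extreme layers give a simple polytope
-/

set_option autoImplicit false

namespace KAG

open Finset QMark
open scoped InnerProductSpace

namespace MSimple

/-- The functional `(y, c) ↦ ⟪y, x⟫ - h * c`. -/
noncomputable def fn (x : E4) (h : ℝ) : (E4 × ℝ) →ₗ[ℝ] ℝ where
  toFun z := ⟪z.1, x⟫_ℝ - h * z.2
  map_add' a b := by
    simp only [Prod.fst_add, Prod.snd_add, inner_add_left]
    ring
  map_smul' c a := by
    simp only [Prod.smul_fst, Prod.smul_snd, real_inner_smul_left, smul_eq_mul, RingHom.id_apply]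
    ring

theorem fn_apply (x : E4) (h : ℝ) (z : E4 × ℝ) : fn x h z = ⟪z.1, x⟫_ℝ - h * z.2 := rfl

theorem finrank_prod : Module.finrank ℝ (E4 × ℝ) = 5 := by
  rw [Module.finrank_prod, finrank_euclideanSpace, Module.finrank_self]
  simp

theorem finrank_ker (x : E4) : Module.finrank ℝ (LinearMap.ker (fn x 1)) = 4 := by
  have h1 := (fn x 1).finrank_range_add_finrank_ker
  have h2 : LinearMap.range (fn x 1) = ⊤ := by
    rw [LinearMap.range_eq_top]
    intro r
    refine ⟨(0, -r), ?_⟩
    rw [fn_apply]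
    simp
  rw [h2, finrank_top, Module.finrank_self, finrank_prod] at h1
  omega

variable {ι : Type}

theorem finrank_span {v : ι → E4} {S : Finset ι} (h : LinearIndepOn ℝ (hom v) (S : Set ι)) :
    Module.finrank ℝ (Submodule.span ℝ (hom v '' (S : Set ι))) = S.card := by
  have h1 := finrank_span_eq_card (R := ℝ) (b := fun i : (S : Set ι) => hom v i) h
  rw [← Set.image_eq_range] at h1
  rw [h1]
  simp

theorem span_le {v : ι → E4} {S : Finset ι} {x : E4} {h : ℝ}
    (hx : ∀ i ∈ S, ⟪v i, x⟫_ℝ = h) :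
    Submodule.span ℝ (hom v '' (S : Set ι)) ≤ LinearMap.ker (fn x h) := by
  rw [Submodule.span_le]
  rintro _ ⟨i, hi, rfl⟩
  simp only [SetLike.mem_coe, LinearMap.mem_ker, fn_apply, hom]
  rw [hx i (by simpa using hi)]
  ring

end MSimple

open MSimple in
theorem t_Simple : StmtSimple := by
  intro ι _ _ v d hd hG hl x hx
  by_contra hc
  have hc5 : 5 ≤ (ac v x).card := by omega
  have hac : ∀ i ∈ ac v x, ⟪v i, x⟫_ℝ = 1 := fun i hi => mem_ac.1 hi
  by_cases hdiff : ∃ i ∈ ac v x, ∃ j ∈ ac v x, ⟪v i, d⟫_ℝ ≠ ⟪v j, d⟫_ℝ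
  · obtain ⟨i, hi, j, hj, hij⟩ := hdiff
    have hsub : ({i, j} : Finset ι) ⊆ ac v x := by
      intro a ha
      rw [Finset.mem_insert, Finset.mem_singleton] at ha
      rcases ha with rfl | rfl
      · exact hi
      · exact hj
    have hcard : ({i, j} : Finset ι).card ≤ 5 := le_trans (Finset.card_le_two) (by norm_num)
    obtain ⟨S, hS1, hS2, hS3⟩ := Finset.exists_subsuperset_card_eq hsub hcard hc5
    have hli := hG S (Finset.subset_univ _) hS3.le
      (Or.inr ⟨i, hS1 (by simp), j, hS1 (by simp), hij⟩)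
    have h1 := finrank_span hli
    have h2 : Submodule.span ℝ (hom v '' (S : Set ι)) ≤ LinearMap.ker (fn x 1) :=
      span_le fun a ha => hac a (hS2 ha)
    have h3 := Submodule.finrank_mono h2
    rw [finrank_ker, h1, hS3] at h3
    omega
  · push Not at hdiff
    have hne : (ac v x).Nonempty := Finset.card_pos.1 (by omega)
    obtain ⟨i₀, hi₀⟩ := hne
    have hsub : ac v x ⊆ cls v d i₀ := by
      intro a ha
      rw [mem_cls]
      exact hdiff a ha i₀ hi₀
    have hbig : 5 ≤ (cls v d i₀).card := hc5.trans (Finset.card_le_card hsub)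
    rcases hl i₀ with h | ⟨⟨j, hj⟩, ⟨j', hj'⟩⟩
    · omega
    obtain ⟨S, hS2, hS3⟩ := Finset.exists_subset_card_eq (show 4 ≤ (ac v x).card by omega)
    have hli := hG S (Finset.subset_univ _) (by omega) (Or.inl (by omega))
    have h1 := finrank_span hli
    have h2 : Submodule.span ℝ (hom v '' (S : Set ι)) ≤ LinearMap.ker (fn x 1) :=
      span_le fun a ha => hac a (hS2 ha)
    have h3 : Submodule.span ℝ (hom v '' (S : Set ι)) = LinearMap.ker (fn x 1) := by
      apply Submodule.eq_of_le_of_finrank_eq h2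
      rw [h1, hS3, finrank_ker]
    have h4 : Submodule.span ℝ (hom v '' (S : Set ι)) ≤ LinearMap.ker (fn d ⟪v i₀, d⟫_ℝ) :=
      span_le fun a ha => hdiff a (hS2 ha) i₀ hi₀
    rw [h3] at h4
    have key : ∀ y : E4, ⟪y, d⟫_ℝ = ⟪v i₀, d⟫_ℝ * ⟪y, x⟫_ℝ := by
      intro y
      have h5 : (y, ⟪y, x⟫_ℝ) ∈ LinearMap.ker (fn x 1) := by
        rw [LinearMap.mem_ker, fn_apply]
        ring
      have h6 := h4 h5
      rw [LinearMap.mem_ker, fn_apply] at h6
      linarith
    have hpos : ⟪v i₀, d⟫_ℝ ≠ 0 := by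
      intro h0
      apply hd
      have h7 := key d
      rw [h0, zero_mul] at h7
      exact inner_self_eq_zero.1 h7
    rcases lt_or_gt_of_ne hpos with hneg | hpos
    · have h8 := key (v j')
      have h9 : ⟪v j', x⟫_ℝ ≤ 1 := (mem_Po.1 hx) j'
      nlinarith
    · have h8 := key (v j)
      have h9 : ⟪v j, x⟫_ℝ ≤ 1 := (mem_Po.1 hx) j
      nlinarith

end KAG
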