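import Pool.Agent.KAG.Stmts

/-!
# KAG: one more point in general position
-/

set_option autoImplicit false

namespace KAG

open Finset QMark
open scoped InnerProductSpace

namespace MStep

/-- the span of the lifted points -/
noncomputable def N {ι : Type} (v : ι → E4) (S : Finset ι) : Submodule ℝ (E4 × ℝ) :=
  Submodule.span ℝ (hom v '' (S : Set ι))

theorem mem_N {ι : Type} {v : ι → E4} {S : Finset ι} {j : ι} (hj : j ∈ S) : (v j, (1 : ℝ)) ∈ N v S :=
  Submodule.subset_span ⟨j, hj, rfl⟩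

theorem finrank_N {ι : Type} (v : ι → E4) (S : Finset ι) : Module.finrank ℝ (N v S) ≤ S.card := by
  classical
  have h := finrank_span_finset_le_card (R := ℝ) (S.image (hom v))
  have h2 : (S.image (hom v)).card ≤ S.card := Finset.card_image_le
  have h3 : Module.finrank ℝ (N v S) = ((S.image (hom v) : Finset (E4 × ℝ)) : Set (E4 × ℝ)).finrank ℝ := by
    unfold N Set.finrank
    rw [Finset.coe_image]
  rw [h3]
  exact h.trans h2

/-- the horizontal space -/
noncomputable def P (d : E4) : Submodule ℝ (E4 × ℝ) :=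
  Submodule.map (LinearMap.inl ℝ E4 ℝ) (ℝ ∙ d)ᗮ

theorem finrank_P {d : E4} (hd : d ≠ 0) : Module.finrank ℝ (P d) = 3 := by
  have hf : Module.finrank ℝ E4 = 3 + 1 := by simp
  have : Fact (Module.finrank ℝ E4 = 3 + 1) := ⟨hf⟩
  have h1 : Module.finrank ℝ (ℝ ∙ d)ᗮ = 3 :=
    Submodule.finrank_orthogonal_span_singleton (n := 3) hd
  unfold P
  rw [← h1]
  exact ((Submodule.equivMapOfInjective (LinearMap.inl ℝ E4 ℝ)
    LinearMap.inl_injective (ℝ ∙ d)ᗮ).finrank_eq).symm

theorem mem_orth {d w : E4} : w ∈ (ℝ ∙ d)ᗮ ↔ ⟪w, d⟫_ℝ = 0 := by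
  rw [Submodule.mem_orthogonal_singleton_iff_inner_left]

/-- good sets -/
def GoodS {ι : Type} (v : ι → E4) (d : E4) (S : Finset ι) : Prop :=
  S.card ≤ 3 ∨ ∃ j ∈ S, ∃ k ∈ S, ⟪v j, d⟫_ℝ ≠ ⟪v k, d⟫_ℝ

theorem exists_w {ι : Type} {v : ι → E4} {d : E4} (hd : d ≠ 0) {S : Finset ι} (hS : S.card ≤ 4)
    (hg : GoodS v d S) : ∃ w : E4, ⟪w, d⟫_ℝ = 0 ∧ ((w, (0 : ℝ)) : E4 × ℝ) ∉ N v S := by
  by_contra hcon
  push Not at hcon
  have hle : P d ≤ N v S := by
    rintro _ ⟨w, hw, rfl⟩
    exact hcon w (mem_orth.1 hw)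
  have h3 := finrank_P hd
  have hN := finrank_N v S
  have hnot1 : ∀ y : E4, ((y, (1 : ℝ)) : E4 × ℝ) ∉ P d := by
    rintro y ⟨w, _, hw⟩
    have : (0 : ℝ) = 1 := congrArg Prod.snd hw
    exact zero_ne_one this
  have hmono := Submodule.finrank_mono hle
  rcases hg with hg | ⟨j, hj, k, hk, hjk⟩
  · have hne : S.Nonempty := by
      rw [Finset.nonempty_iff_ne_empty]
      rintro rfl
      rw [Finset.card_empty] at hN
      omega
    obtain ⟨j, hj⟩ := hne
    have hlt : P d < N v S := lt_of_le_of_ne hle (fun h => hnot1 (v j) (h ▸ mem_N hj))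
    have := Submodule.finrank_lt_finrank_of_lt hlt
    omega
  · set Q : Submodule ℝ (E4 × ℝ) := N v S ⊓ LinearMap.ker (LinearMap.snd ℝ E4 ℝ) with hQ
    have hPQ : P d ≤ Q := by
      rintro _ ⟨w, hw, rfl⟩
      exact ⟨hle ⟨w, hw, rfl⟩, by simp⟩
    have hmem : ((v j - v k, (0 : ℝ)) : E4 × ℝ) ∈ Q := by
      refine ⟨?_, by simp⟩
      have := (N v S).sub_mem (mem_N (v := v) hj) (mem_N (v := v) hk)
      simpa using this
    have hPQ' : P d < Q := by
      refine lt_of_le_of_ne hPQ fun h => ?_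
      rw [← h] at hmem
      obtain ⟨w, hw, hw2⟩ := hmem
      have h5 : w = v j - v k := congrArg Prod.fst hw2
      have h6 := mem_orth.1 hw
      rw [h5, inner_sub_left] at h6
      exact hjk (sub_eq_zero.1 h6)
    have hQN : Q < N v S := by
      refine lt_of_le_of_ne inf_le_left fun h => ?_
      have h7 : ((v j, (1 : ℝ)) : E4 × ℝ) ∈ Q := h ▸ mem_N hj
      have h8 := h7.2
      simp at h8
    have h9 := Submodule.finrank_lt_finrank_of_lt hPQ'
    have h10 := Submodule.finrank_lt_finrank_of_lt hQN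
    omega

/-- the heights in a layer -/
theorem height_N {ι : Type} {v : ι → E4} {d : E4} {S : Finset ι} {h : ℝ}
    (hS : ∀ j ∈ S, ⟪v j, d⟫_ℝ = h) {x : E4 × ℝ} (hx : x ∈ N v S) : ⟪x.1, d⟫_ℝ = h * x.2 := by
  unfold N at hx
  induction hx using Submodule.span_induction with
  | mem y hy =>
    obtain ⟨j, hj, rfl⟩ := hy
    simp [hom, hS j hj]
  | zero => simp
  | add y z _ _ h1 h2 =>
    simp only [Prod.fst_add, Prod.snd_add, inner_add_left, h1, h2]
    ring
  | smul c y _ h1 =>
    simp only [Prod.smul_fst, Prod.smul_snd, real_inner_smul_left, h1, smul_eq_mul]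
    ring

/-- a common direction -/
theorem exists_common {ι : Type} {v : ι → E4} {d : E4} (hd : d ≠ 0) (s : Finset ι) :
    ∃ w : E4, ⟪w, d⟫_ℝ = 0 ∧ ∀ S ⊆ s, S.card ≤ 4 → GoodS v d S →
      ((w, (0 : ℝ)) : E4 × ℝ) ∉ N v S := by
  classical
  let U : Finset ι → Subspace ℝ ((ℝ ∙ d)ᗮ : Submodule ℝ E4) := fun S =>
    (N v S).comap ((LinearMap.inl ℝ E4 ℝ).comp (Submodule.subtype (ℝ ∙ d)ᗮ))
  let F : Finset (Subspace ℝ ((ℝ ∙ d)ᗮ : Submodule ℝ E4)) :=
    (s.powerset.filter fun S => S.card ≤ 4 ∧ GoodS v d S).image U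
  have hF : (⊤ : Subspace ℝ ((ℝ ∙ d)ᗮ : Submodule ℝ E4)) ∉ F := by
    intro h
    obtain ⟨S, hS, hSU⟩ := Finset.mem_image.1 h
    obtain ⟨_, hS2, hS3⟩ := Finset.mem_filter.1 hS
    obtain ⟨w, hw1, hw2⟩ := exists_w hd hS2 hS3
    have h1 : (⟨w, mem_orth.2 hw1⟩ : ((ℝ ∙ d)ᗮ : Submodule ℝ E4)) ∈ U S := by
      rw [hSU]
      exact Submodule.mem_top
    exact hw2 h1
  have h2 := Subspace.biUnion_ne_univ_of_top_notMem hF
  obtain ⟨w, hw⟩ := (Set.ne_univ_iff_exists_notMem _).1 h2
  refine ⟨w.1, mem_orth.1 w.2, fun S hS hc hg hmem => hw ?_⟩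
  refine Set.mem_iUnion₂.2 ⟨U S, Finset.mem_image.2 ⟨S, Finset.mem_filter.2
    ⟨Finset.mem_powerset.2 hS, hc, hg⟩, rfl⟩, hmem⟩

end MStep

open MStep in
theorem t_Step : StmtStep := by
  classical
  intro ι _ v d s i ε hd hε hi hG
  obtain ⟨w, hwd, hw⟩ := exists_common (v := v) hd s
  -- bad parameters
  let B : Set ℝ := ⋃ S ∈ (s.powerset.filter fun S => S.card ≤ 4 ∧ GoodS v d S),
    {τ : ℝ | ((v i + τ • w, (1 : ℝ)) : E4 × ℝ) ∈ N v S}
  have hB : B.Finite := by
    refine Set.Finite.biUnion (Finset.finite_toSet _) fun S hS => ?_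
    obtain ⟨hS1, hS2, hS3⟩ := Finset.mem_filter.1 hS
    refine Set.Subsingleton.finite fun τ hτ σ hσ => ?_
    by_contra hne
    refine hw S (Finset.mem_powerset.1 hS1) hS2 hS3 ?_
    have h1 := (N v S).sub_mem hτ hσ
    have h2 := (N v S).smul_mem (τ - σ)⁻¹ h1
    have h3 : τ - σ ≠ 0 := sub_ne_zero.2 hne
    convert h2 using 1
    rw [Prod.mk_sub_mk, Prod.smul_mk]
    congr 1
    · rw [add_sub_add_left_eq_sub, ← sub_smul, smul_smul, inv_mul_cancel₀ h3, one_smul]
    · simp
  have hpos : 0 < ε / (‖w‖ + 1) := by positivity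
  have hinf : (Set.Ioo 0 (ε / (‖w‖ + 1))).Infinite := Set.Ioo_infinite hpos
  obtain ⟨τ, hτ, hτB⟩ := (hinf.sdiff hB).nonempty
  have ha : ⟪v i + τ • w, d⟫_ℝ = ⟪v i, d⟫_ℝ := by
    rw [inner_add_left, real_inner_smul_left, hwd, mul_zero, add_zero]
  refine ⟨v i + τ • w, ha, ?_, ?_⟩
  · rw [add_sub_cancel_left, norm_smul, Real.norm_eq_abs, abs_of_pos hτ.1]
    have h1 : τ * (‖w‖ + 1) < ε := (lt_div_iff₀ (by positivity)).1 hτ.2
    nlinarith [hτ.1, norm_nonneg w]
  · intro S' hS' hc hor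
    by_cases hiS : i ∈ S'
    · obtain ⟨S, hSdef⟩ : ∃ S, S = S'.erase i := ⟨_, rfl⟩
      have hSs : S ⊆ s := by
        rw [hSdef]
        intro j hj
        obtain ⟨h1, h2⟩ := Finset.mem_erase.1 hj
        exact (Finset.mem_insert.1 (hS' h2)).resolve_left h1
      have hS'eq : S' = insert i S := by
        rw [hSdef, Finset.insert_erase hiS]
      have hiS2 : i ∉ S := fun h => hi (hSs h)
      have hcard : S'.card = S.card + 1 := by
        rw [hS'eq, Finset.card_insert_of_notMem hiS2]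
      have hS4 : S.card ≤ 4 := by omega
      have hcongr : Set.EqOn (hom v) (hom (Function.update v i (v i + τ • w))) (S : Set ι) := by
        intro j hj
        have hji : j ≠ i := fun h => hiS2 (h ▸ hj)
        simp [hom, Function.update_of_ne hji]
      have hli : LinearIndepOn ℝ (hom (Function.update v i (v i + τ • w))) (S : Set ι) :=
        (hG S hSs (by omega) (Or.inl hS4)).congr hcongr
      have himg : hom (Function.update v i (v i + τ • w)) '' (S : Set ι) = hom v '' (S : Set ι) :=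
        (Set.EqOn.image_eq hcongr).symm
      have hself : hom (Function.update v i (v i + τ • w)) i = (v i + τ • w, (1 : ℝ)) := by
        simp [hom]
      have hnot : hom (Function.update v i (v i + τ • w)) i ∉
          Submodule.span ℝ (hom (Function.update v i (v i + τ • w)) '' (S : Set ι)) := by
        rw [himg, hself]
        intro hmem
        by_cases hgood : GoodS v d S
        · exact hτB (Set.mem_iUnion₂.2 ⟨S, Finset.mem_filter.2
            ⟨Finset.mem_powerset.2 hSs, hS4, hgood⟩, hmem⟩)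
        · unfold GoodS at hgood
          push Not at hgood
          obtain ⟨hg1, hg2⟩ := hgood
          have h5 : ¬ S'.card ≤ 4 := by omega
          obtain ⟨j, hj, k, hk, hjk⟩ := hor.resolve_left h5
          obtain ⟨l, hl⟩ : S.Nonempty := Finset.card_pos.1 (by omega)
          have hall : ∀ m ∈ S, ⟪v m, d⟫_ℝ = ⟪v l, d⟫_ℝ := fun m hm => hg2 m hm l hl
          have h6 := height_N hall hmem
          simp only [mul_one] at h6
          have h7 : ∀ m ∈ S', ⟪Function.update v i (v i + τ • w) m, d⟫_ℝ = ⟪v l, d⟫_ℝ := by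
            intro m hm
            by_cases hmi : m = i
            · subst hmi
              rw [Function.update_self]
              exact h6
            · rw [Function.update_of_ne hmi]
              refine hall m ?_
              rw [hSdef]
              exact Finset.mem_erase.2 ⟨hmi, hm⟩
          exact hjk ((h7 j hj).trans (h7 k hk).symm)
      rw [hS'eq, Finset.coe_insert]
      exact hli.insert hnot
    · have hSs : S' ⊆ s := fun j hj =>
        (Finset.mem_insert.1 (hS' hj)).resolve_left (fun h => hiS (h ▸ hj))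
      have hcongr : Set.EqOn (hom v) (hom (Function.update v i (v i + τ • w))) (S' : Set ι) := by
        intro j hj
        have hji : j ≠ i := fun h => hiS (h ▸ hj)
        simp [hom, Function.update_of_ne hji]
      refine (hG S' hSs hc ?_).congr hcongr
      refine hor.imp id ?_
      rintro ⟨j, hj, k, hk, hjk⟩
      refine ⟨j, hj, k, hk, ?_⟩
      have hji : j ≠ i := fun h => hiS (h ▸ hj)
      have hki : k ≠ i := fun h => hiS (h ▸ hk)
      rwa [Function.update_of_ne hji, Function.update_of_ne hki] at hjk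

end KAG
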