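import Pool.Agent.KAG.Stmts

/-!
# Points with linearly independent active set persist
-/

set_option autoImplicit false

namespace KAG

open Finset QMark Filter Topology
open scoped InnerProductSpace Matrix

namespace MTet

/-- dual vectors. -/
theorem exists_dual {ι : Type} [Fintype ι] [DecidableEq ι] (v : ι → E4) (T : Finset ι)
    (h : LinearIndepOn ℝ v (T : Set ι)) :
    ∃ y : T → E4, ∀ i k : T, ⟪v i, y k⟫_ℝ = if i = k then 1 else 0 := by
  classical
  -- the linear map y ↦ (⟪v i, y⟫)
  have hli : LinearIndependent ℝ (fun i : T => v i) := h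
  let L : E4 →ₗ[ℝ] (T → ℝ) := LinearMap.pi fun i => (innerSL ℝ (v i)).toLinearMap
  have hL : ∀ y i, L y i = ⟪v i, y⟫_ℝ := fun y i => rfl
  have hsurj : LinearMap.range L = ⊤ := by
    by_contra hne
    obtain ⟨f, hf, hfr⟩ := Submodule.exists_le_ker_of_lt_top _ (lt_top_iff_ne_top.2 hne)
    -- f = ∑ c i * z i
    have hfz : ∀ z : T → ℝ, f z = ∑ i, z i * f (Pi.single i 1) := by
      intro z
      conv_lhs => rw [← Finset.univ_sum_single z]
      rw [map_sum]
      refine Finset.sum_congr rfl fun i _ => ?_
      have : (Pi.single i (z i) : T → ℝ) = z i • Pi.single i (1 : ℝ) := by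
        ext j
        by_cases hj : j = i
        · subst hj; simp
        · simp [Pi.single_eq_of_ne hj]
      rw [this, map_smul, smul_eq_mul]
    have h0 : ∑ i : T, f (Pi.single i 1) • v i = 0 := by
      have h1 : ∀ y : E4, ⟪∑ i : T, f (Pi.single i 1) • v i, y⟫_ℝ = 0 := by
        intro y
        have h2 : L y ∈ LinearMap.ker f := hfr ⟨y, rfl⟩
        rw [LinearMap.mem_ker, hfz] at h2
        rw [sum_inner, ← h2]
        refine Finset.sum_congr rfl fun i _ => ?_
        rw [inner_smul_left, hL]
        simp [mul_comm]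
      exact inner_self_eq_zero.1 (h1 _)
    have h3 := Fintype.linearIndependent_iff.1 hli _ h0
    apply hf
    ext z
    simp [h3]
  have hs : Function.Surjective L := LinearMap.range_eq_top.1 hsurj
  choose y hy using fun k : T => hs (Pi.single k 1)
  refine ⟨y, fun i k => ?_⟩
  rw [← hL, hy]
  by_cases hik : i = k
  · subst hik; simp
  · simp [hik]

end MTet

open MTet in
theorem t_Tet : StmtTet := by
  intro ι _ _ v x hx hli
  set T := ac v x with hT
  obtain ⟨y, hy⟩ := exists_dual v T hli
  let M : (ι → E4) → Matrix T T ℝ := fun w => Matrix.of fun i k => ⟪w i, y k⟫_ℝ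
  let r : (ι → E4) → T → ℝ := fun w i => 1 - ⟪w i, x⟫_ℝ
  let c : (ι → E4) → T → ℝ := fun w => (M w).det⁻¹ • ((M w).adjugate *ᵥ r w)
  let X : (ι → E4) → E4 := fun w => x + ∑ k, c w k • y k
  have hM : M v = 1 := by
    ext i k
    simp only [M, Matrix.of_apply, hy, Matrix.one_apply]
  have hr : r v = 0 := by
    ext i
    have := mem_ac.1 i.2
    simp only [r, Pi.zero_apply]
    linarith
  have hMc : Continuous M := by
    refine continuous_matrix fun i k => ?_
    simp only [M, Matrix.of_apply]
    fun_prop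
  have hrc : Continuous r := by
    refine continuous_pi fun i => ?_
    simp only [r]
    fun_prop
  have hdc : Continuous fun w => (M w).det := hMc.matrix_det
  have hac : Continuous fun w => (M w).adjugate *ᵥ r w := hMc.matrix_adjugate.matrix_mulVec hrc
  have hdet : (M v).det ≠ 0 := by rw [hM]; simp
  have hcc : ContinuousAt c v := (hdc.continuousAt.inv₀ hdet).smul hac.continuousAt
  have hXc : ContinuousAt X v := by
    refine continuousAt_const.add (tendsto_finsetSum _ fun k _ => ?_)
    exact (((continuous_apply k).continuousAt.comp hcc).smul continuousAt_const)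
  have hXv : X v = x := by
    have : c v = 0 := by
      simp only [c, hr, Matrix.mulVec_zero, smul_zero]
    simp [X, this]
  have hkey : ∀ w, (M w).det ≠ 0 → ∀ i : T, ⟪w i, X w⟫_ℝ = 1 := by
    intro w hw i
    have h1 : M w *ᵥ c w = r w := by
      simp only [c]
      rw [Matrix.mulVec_smul, Matrix.mulVec_mulVec, Matrix.mul_adjugate, Matrix.smul_mulVec,
        Matrix.one_mulVec, smul_smul, inv_mul_cancel₀ hw, one_smul]
    have h2 := congrFun h1 i
    simp only [Matrix.mulVec, dotProduct, M, Matrix.of_apply, r] at h2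
    simp only [X]
    rw [inner_add_right, inner_sum]
    have h3 : ∑ k, ⟪w i, c w k • y k⟫_ℝ = ∑ k, ⟪w i, y k⟫_ℝ * c w k := by
      refine Finset.sum_congr rfl fun k _ => ?_
      rw [real_inner_smul_right, mul_comm]
    rw [h3, h2]
    ring
  -- neighbourhood
  have hev1 : ∀ᶠ w in 𝓝 v, (M w).det ≠ 0 := hdc.continuousAt.eventually_ne hdet
  have hev2 : ∀ᶠ w in 𝓝 v, ∀ j : ι, j ∉ T → ⟪w j, X w⟫_ℝ < 1 := by
    rw [eventually_all]
    intro j
    by_cases hj : j ∈ T
    · exact Eventually.of_forall fun w h => absurd hj h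
    · have h1 : ⟪v j, X v⟫_ℝ < 1 := by
        rw [hXv]
        refine lt_of_le_of_ne (hx j) fun h => hj ?_
        exact mem_ac.2 h
      have h2 : ContinuousAt (fun w : ι → E4 => ⟪w j, X w⟫_ℝ) v :=
        ((continuous_apply j).continuousAt).inner hXc
      filter_upwards [h2.eventually_lt continuousAt_const h1] with w hw _ using hw
  obtain ⟨ε, hε, hball⟩ := Metric.eventually_nhds_iff.1 (hev1.and hev2)
  refine ⟨ε, hε, fun w hw => ?_⟩
  have hd : dist w v < ε := by
    rw [dist_pi_lt_iff hε]
    intro i
    rw [dist_eq_norm]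
    exact hw i
  obtain ⟨h1, h2⟩ := hball hd
  have h3 := hkey w h1
  have hmem : X w ∈ Po w := by
    intro j
    by_cases hj : j ∈ T
    · exact (h3 ⟨j, hj⟩).le
    · exact (h2 j hj).le
  refine ⟨X w, hmem, ?_⟩
  ext j
  rw [mem_ac]
  constructor
  · intro h
    by_contra hj
    exact absurd h (h2 j hj).ne
  · intro hj
    exact h3 ⟨j, hj⟩

end KAG
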