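import Pool.Agent.KAG.Stmts
import Pool.Agent.KPX.TotalP

/-!
# Facets which are a layer, and the closed form of the weighted bound

`KPX.MTotalP.zeroP`, `KPX.MTotalP.threeP`, `KPX.Closed.totalP` give `StmtZeroW`, `StmtLargeW`, `StmtWeight`.
-/

set_option autoImplicit false

namespace KAG

namespace MZeroW

theorem vt_eq (V : Finset (TPH.E × ℝ)) (u : TPH.E) (s q : ℝ) : vt V u s q = KPX.vt V u s q := by
  ext v
  rw [mem_vt, KPX.MTotalP.mem_vt]

end MZeroW

open MZeroW

theorem t_ZeroW : StmtZeroW := by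
  intro ι V G u s q D S hS hu
  have h := KPX.MTotalP.zeroP D S hS hu
  calc ∑ g ∈ S, (vt V (u g) (s g) (q g)).card
      = ∑ g ∈ S, (KPX.vt V (u g) (s g) (q g)).card :=
        Finset.sum_congr rfl fun g _ => by rw [vt_eq]
    _ ≤ V.card := h

/-- `StmtLargeW`, from `KPX.MTotalP.threeP`. -/
theorem c_LargeW : StmtLargeW := by
  intro ι V G u s q D t S hS h
  exact KPX.MTotalP.threeP D TPH.Closed.edge_lin one_pos S hS (fun g hg => (h g hg).1)
    (fun g hg => (h g hg).2)

/-- **The weighted bound**, `StmtWeight` closed, from `KPX.Closed.totalP`. -/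
theorem c_Weight : StmtWeight := by
  obtain ⟨K, hK0, hK⟩ := KPX.Closed.totalP
  refine ⟨K, hK0, ?_⟩
  intro ι V G u s q D T hT
  have h := hK ι V G u s q D T hT
  have h1 : ((∑ g ∈ G, (vt V (u g) (s g) (q g)).card : ℕ) : ℝ) =
      ∑ g ∈ G, ((KPX.vt V (u g) (s g) (q g)).card : ℝ) := by
    push_cast
    exact Finset.sum_congr rfl fun g _ => by rw [vt_eq]
  rw [h1]
  exact h

end KAG
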