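import Pool.Agent.KAG.LocalQ
import Pool.Agent.KAG.Ext
import Pool.Agent.KAG.AtV
import Pool.Agent.KAG.Red
import Pool.Agent.KAG.Gen
import Pool.Agent.KAG.Step
import Pool.Agent.KAG.Simple
import Pool.Agent.KAG.Bdd
import Pool.Agent.KAG.Tet
import Pool.Agent.KAG.Persist
import Pool.Agent.KAG.Cap
import Pool.Agent.KAG.Flip
import Pool.Agent.KAG.Keep
import Pool.Agent.KAG.ZeroW
import Pool.Agent.KAG.Data
import Pool.Agent.KAG.SdData
import Pool.Agent.KAL.WClosed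

/-!
# The bound for arbitrary polytopes with facets in `k` collinear classes: conclusion
-/

set_option autoImplicit false

namespace KAG.Closed

open scoped InnerProductSpace

theorem simpB : StmtSimpB := t_SimpB t_Ext (t_Sd t_Ext) KAL.topW KAL.botW

theorem red : StmtRed := t_Red (t_Gen t_Step) t_Simple (t_Persist t_Bdd t_Tet) (t_Cap t_Step)

theorem keep : StmtKeep := t_Keep t_Ext (t_FaceV t_Ext) (t_Flip t_Ext)

theorem genB : StmtGenB := general_bound t_Ext red keep t_AtV (t_Data t_Ext) c_Weight simpB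

/-- **The upper bound** for arbitrary polytopes, local form. -/
theorem upperM :
    ∃ K : ℝ, 0 < K ∧ ∀ (n : ℕ) (u : Fin n → TCC.E4) (b : Fin n → ℝ) (p₀ d : TCC.E4)
      (L : Set (Fin n)),
      TCC.IsPoly4 u b → (∀ i ∈ L, ⟪u i, p₀⟫_ℝ < b i) → d ≠ 0 →
      ((NonQuadsIn u b L).ncard : ℝ) ≤ K *
        ((((fun i => ⟪u i, d⟫_ℝ / (b i - ⟪u i, p₀⟫_ℝ)) '' L).ncard : ℕ) : ℝ) ^ (3 / 2 : ℝ) *
        (L.ncard : ℝ) ^ (3 / 2 : ℝ) :=
  KAG.upperM t_Ext genB

end KAG.Closed
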