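import Pool.Agent.KAG.Stmts

/-!
# The vertices of one facet
-/

set_option autoImplicit false

namespace KAG.MDecomp

open TPH KPH KPX Finset

/-- Three elements of different heights, sorted. -/
theorem three {α : Type} [DecidableEq α] (S : Finset α) (h : α → ℝ)
    (hinj : ∀ x ∈ S, ∀ y ∈ S, h x = h y → x = y) (h3 : 2 < S.card) :
    ∃ a ∈ S, ∃ b ∈ S, ∃ c ∈ S, h a < h b ∧ h b < h c := by
  obtain ⟨a, b, c, ha, hb, hc, hab, hac, hbc⟩ := Finset.two_lt_card_iff.1 h3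
  have h1 : h a ≠ h b := fun e => hab (hinj a ha b hb e)
  have h2 : h a ≠ h c := fun e => hac (hinj a ha c hc e)
  have h4 : h b ≠ h c := fun e => hbc (hinj b hb c hc e)
  rcases lt_or_gt_of_ne h1 with k1 | k1 <;> rcases lt_or_gt_of_ne h2 with k2 | k2 <;>
    rcases lt_or_gt_of_ne h4 with k3 | k3
  · exact ⟨a, ha, b, hb, c, hc, k1, k3⟩
  · exact ⟨a, ha, c, hc, b, hb, k2, k3⟩
  · exact absurd (k1.trans k3) (not_lt.2 k2.le)
  · exact ⟨c, hc, a, ha, b, hb, k2, k1⟩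
  · exact ⟨b, hb, a, ha, c, hc, k1, k2⟩
  · exact absurd (k1.trans k2) (not_lt.2 (by exact k3.le))
  · exact ⟨b, hb, c, hc, a, ha, k3, k2⟩
  · exact ⟨c, hc, b, hb, a, ha, k3, k1⟩

end KAG.MDecomp

namespace KAG

open TPH KPH KPX Finset MDecomp

open Classical in
/-- **Decomp.** -/
theorem t_Decomp : StmtDecomp := by
  intro V T u s q hT
  set W := vt V u s q with hW
  set z : ℝ → Finset (E × ℝ) := fun t => Zr V u s q t with hz
  have mz : ∀ {t : ℝ} {v : E × ℝ}, v ∈ z t ↔ v ∈ V ∧ v.2 = t ∧ Tr.val u s v = q := by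
    intro t v
    exact Tr.mem_zer
  have mW : ∀ {v : E × ℝ}, v ∈ W ↔ v ∈ V ∧ Tr.val u s v = q := by
    intro v
    exact mem_vt
  have zself : ∀ v ∈ W, v ∈ z v.2 := fun v hv => mz.2 ⟨(mW.1 hv).1, rfl, (mW.1 hv).2⟩
  -- the pieces
  set TA := T.filter (fun t => 3 ≤ (Zr V u s q t).card) with hTA
  set TB := T.filter (fun t => IsMid V u s q T t) with hTB
  set TC := T.filter (fun t => (Zr V u s q t).card = 2 ∧ ¬ IsMid V u s q T t) with hTC
  set D := V.filter (fun c => IsMed V u s q c) with hD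
  set E1 : ℝ → Finset (E × ℝ) := fun σ => W.filter (fun c => z c.2 = {c} ∧
    ¬ ∃ x ∈ sd V σ c, ∃ y ∈ sd V σ c, x ≠ y ∧ Tr.val u s x = q ∧ Tr.val u s y = q) with hE1
  have hcover : W ⊆ ((TA.biUnion z ∪ TB.biUnion z) ∪ TC.biUnion z) ∪ (D ∪ (E1 1 ∪ E1 (-1))) := by
    intro v hv
    have hvT : v.2 ∈ T := hT v (mW.1 hv).1
    have hvz := zself v hv
    have hpos : 0 < (z v.2).card := Finset.card_pos.2 ⟨v, hvz⟩
    simp only [Finset.mem_union, Finset.mem_biUnion]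
    by_cases h3 : 3 ≤ (z v.2).card
    · exact Or.inl (Or.inl (Or.inl ⟨v.2, Finset.mem_filter.2 ⟨hvT, h3⟩, hvz⟩))
    by_cases h2 : (z v.2).card = 2
    · by_cases hm : IsMid V u s q T v.2
      · exact Or.inl (Or.inl (Or.inr ⟨v.2, Finset.mem_filter.2 ⟨hvT, hm⟩, hvz⟩))
      · exact Or.inl (Or.inr ⟨v.2, Finset.mem_filter.2 ⟨hvT, h2, hm⟩, hvz⟩)
    have h1 : (z v.2).card = 1 := by omega
    have h1' : z v.2 = {v} := by
      obtain ⟨w, hw⟩ := Finset.card_eq_one.1 h1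
      rw [hw] at hvz ⊢
      rw [Finset.mem_singleton.1 hvz]
    right
    by_cases hm : IsMed V u s q v
    · exact Or.inl (Finset.mem_filter.2 ⟨(mW.1 hv).1, hm⟩)
    · right
      have : ∃ σ : ℝ, (σ = 1 ∨ σ = -1) ∧ ¬ ∃ x ∈ sd V σ v, ∃ y ∈ sd V σ v, x ≠ y ∧
          Tr.val u s x = q ∧ Tr.val u s y = q := by
        by_contra hcon
        push Not at hcon
        exact hm ⟨h1', fun σ hσ => hcon σ hσ⟩
      obtain ⟨σ, hσ | hσ, hσ2⟩ := this
      · subst hσ
        exact Or.inl (Finset.mem_filter.2 ⟨hv, h1', hσ2⟩)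
      · subst hσ
        exact Or.inr (Finset.mem_filter.2 ⟨hv, h1', hσ2⟩)
  have cA : (TA.biUnion z).card ≤ ∑ t ∈ TA, (Zr V u s q t).card := Finset.card_biUnion_le
  have cB : (TB.biUnion z).card ≤ 2 * TB.card := by
    refine Finset.card_biUnion_le.trans ?_
    rw [mul_comm]
    refine Finset.sum_le_card_nsmul TB _ 2 (fun t ht => ?_)
    exact ((Finset.mem_filter.1 ht).2.1).le
  have cC : (TC.biUnion z).card ≤ 4 := by
    have h2 : TC.card ≤ 2 := by
      by_contra hcon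
      obtain ⟨a, ha, b, hb, c, hc, hab, hbc⟩ := three TC id (fun x _ y _ h => h) (not_le.1 hcon)
      rw [Finset.mem_filter] at ha hb hc
      refine hb.2.2 ⟨hb.2.1, a, ha.1, c, hc.1, Or.inl ⟨hab, hbc⟩, ?_, ?_⟩
      · exact Finset.card_pos.1 (by rw [ha.2.1]; norm_num)
      · exact Finset.card_pos.1 (by rw [hc.2.1]; norm_num)
    refine Finset.card_biUnion_le.trans ?_
    have h3 : ∑ t ∈ TC, (z t).card ≤ TC.card • 2 :=
      Finset.sum_le_card_nsmul TC _ 2 (fun t ht => ((Finset.mem_filter.1 ht).2.1).le)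
    rw [smul_eq_mul] at h3
    omega
  have cE : ∀ σ : ℝ, σ ≠ 0 → (E1 σ).card ≤ 2 := by
    intro σ hσ
    by_contra hcon
    have hinj : ∀ x ∈ E1 σ, ∀ y ∈ E1 σ, σ * x.2 = σ * y.2 → x = y := by
      intro x hx y hy hxy
      have e : x.2 = y.2 := mul_left_cancel₀ hσ hxy
      have h1 := (Finset.mem_filter.1 hx).2.1
      have h2 := (Finset.mem_filter.1 hy).2.1
      rw [e, h2] at h1
      exact (Finset.singleton_injective h1).symm
    obtain ⟨a, ha, b, hb, c, hc, hab, hbc⟩ := three (E1 σ) (fun x => σ * x.2) hinj (not_le.1 hcon)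
    have ha' := Finset.mem_filter.1 ha
    have hb' := mW.1 (Finset.mem_filter.1 hb).1
    have hc' := mW.1 (Finset.mem_filter.1 hc).1
    refine ha'.2.2 ⟨b, ?_, c, ?_, ?_, hb'.2, hc'.2⟩
    · refine Finset.mem_filter.2 ⟨hb'.1, ?_⟩
      have : σ * a.2 < σ * b.2 := hab
      linarith [mul_sub σ b.2 a.2]
    · refine Finset.mem_filter.2 ⟨hc'.1, ?_⟩
      have : σ * a.2 < σ * b.2 := hab
      have : σ * b.2 < σ * c.2 := hbc
      linarith [mul_sub σ c.2 a.2]
    · intro e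
      have : σ * b.2 < σ * c.2 := hbc
      rw [e] at this
      exact lt_irrefl _ this
  have e1 := cE 1 one_ne_zero
  have e2 := cE (-1) (by norm_num)
  have u0 := Finset.card_le_card hcover
  have u1 := Finset.card_union_le ((TA.biUnion z ∪ TB.biUnion z) ∪ TC.biUnion z)
    (D ∪ (E1 1 ∪ E1 (-1)))
  have u2 := Finset.card_union_le (TA.biUnion z ∪ TB.biUnion z) (TC.biUnion z)
  have u3 := Finset.card_union_le (TA.biUnion z) (TB.biUnion z)
  have u4 := Finset.card_union_le D (E1 1 ∪ E1 (-1))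
  have u5 := Finset.card_union_le (E1 1) (E1 (-1))
  omega

end KAG
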