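import Pool.Agent.KAG.Stmts

/-!
# FaceV: every face of the bounded polyhedron `Po v` has a vertex
-/

set_option autoImplicit false

namespace KAG

open Finset QMark
open scoped InnerProductSpace

namespace MFaceV

section
variable {ι : Type} [Fintype ι] {v : ι → E4}

omit [Fintype ι] in
theorem ip_add_smul (i : ι) (p d : E4) (t : ℝ) :
    ⟪v i, p + t • d⟫_ℝ = ⟪v i, p⟫_ℝ + t * ⟪v i, d⟫_ℝ := by
  rw [inner_add_right, inner_smul_right]

theorem exists_pos (h : Bornology.IsBounded (Po v)) {p d : E4} (hp : p ∈ Po v) (hd : d ≠ 0) :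
    ∃ j, 0 < ⟪v j, d⟫_ℝ := by
  by_contra hc
  push Not at hc
  obtain ⟨R, hR⟩ := h.subset_closedBall (0 : E4)
  have hdn : 0 < ‖d‖ := norm_pos_iff.mpr hd
  have hR0 : 0 ≤ R := by
    have := hR hp
    rw [mem_closedBall_zero_iff] at this
    exact (norm_nonneg _).trans this
  set t : ℝ := (R + ‖p‖ + 1) / ‖d‖ with ht
  have ht0 : 0 ≤ t := by positivity
  have hm : p + t • d ∈ Po v := by
    intro i
    rw [ip_add_smul]
    have h1 := hp i
    have h2 := mul_nonneg ht0 (neg_nonneg.mpr (hc i))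
    linarith
  have h3 := hR hm
  rw [mem_closedBall_zero_iff] at h3
  have h4 : ‖t • d‖ ≤ ‖p + t • d‖ + ‖p‖ := by
    calc ‖t • d‖ = ‖(p + t • d) - p‖ := by rw [add_sub_cancel_left]
      _ ≤ _ := norm_sub_le _ _
  rw [norm_smul, Real.norm_of_nonneg ht0, ht, div_mul_cancel₀ _ hdn.ne'] at h4
  linarith

/-- Moving in the direction `d` until a further inequality becomes an equality. -/
theorem move (h : Bornology.IsBounded (Po v)) {p d : E4} (hp : p ∈ Po v) (hd : d ≠ 0)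
    (ha : ∀ i ∈ ac v p, ⟪v i, d⟫_ℝ ≤ 0) :
    ∃ t : ℝ, 0 < t ∧ p + t • d ∈ Po v ∧ ∃ j, j ∉ ac v p ∧ j ∈ ac v (p + t • d) := by
  classical
  obtain ⟨j0, hj0⟩ := exists_pos h hp hd
  have hne : (univ.filter fun j : ι => 0 < ⟪v j, d⟫_ℝ).Nonempty := ⟨j0, by simpa using hj0⟩
  obtain ⟨j, hj, hmin⟩ := exists_min_image _ (fun j => (1 - ⟪v j, p⟫_ℝ) / ⟪v j, d⟫_ℝ) hne
  simp only [mem_filter, mem_univ, true_and] at hj hmin
  have hja : j ∉ ac v p := fun hc => absurd (ha j hc) (not_le.mpr hj)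
  have hjl : ⟪v j, p⟫_ℝ < 1 := lt_of_le_of_ne (hp j) fun hc => hja (mem_ac.mpr hc)
  refine ⟨(1 - ⟪v j, p⟫_ℝ) / ⟪v j, d⟫_ℝ, div_pos (by linarith) hj, ?_, j, hja, ?_⟩
  · intro i
    rw [ip_add_smul]
    have hi := hp i
    rcases le_or_gt (⟪v i, d⟫_ℝ) 0 with h1 | h1
    · have h2 : 0 ≤ (1 - ⟪v j, p⟫_ℝ) / ⟪v j, d⟫_ℝ * (-⟪v i, d⟫_ℝ) :=
        mul_nonneg (div_pos (by linarith) hj).le (by linarith)
      linarith
    · have h2 := hmin i h1
      rw [le_div_iff₀ h1] at h2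
      linarith
  · rw [mem_ac, ip_add_smul, div_mul_cancel₀ _ hj.ne']
    ring

end

end MFaceV

open MFaceV in
theorem t_FaceV (hExt : StmtExt) : StmtFaceV := by
  classical
  intro ι _ _ v hb x hx
  -- the active sets above `ac v x`
  obtain ⟨S, hS⟩ : ∃ S : Finset (Finset ι),
      S = univ.filter (fun T => ∃ y ∈ Po v, ac v y = T ∧ ac v x ⊆ ac v y) := ⟨_, rfl⟩
  have hne : S.Nonempty := ⟨ac v x, by
    rw [hS, mem_filter]
    exact ⟨mem_univ _, x, hx, rfl, subset_refl _⟩⟩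
  obtain ⟨T, hT, hmax⟩ := exists_max_image S card hne
  rw [hS, mem_filter] at hT
  obtain ⟨_, y, hy, hyT, hxy⟩ := hT
  refine ⟨y, (hExt ι v y).mpr ⟨hy, fun z hz => ?_⟩, hxy⟩
  by_contra hz0
  obtain ⟨t, _, hp, j, hj1, hj2⟩ := move hb hy hz0 fun i hi => (hz i hi).le
  have hsub : ac v y ⊆ ac v (y + t • z) := by
    intro i hi
    rw [mem_ac, ip_add_smul, hz i hi, mul_zero, add_zero]
    exact mem_ac.mp hi
  have hlt : (ac v y).card < (ac v (y + t • z)).card :=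
    card_lt_card ⟨hsub, fun hc => hj1 (hc hj2)⟩
  have hle := hmax (ac v (y + t • z)) (by
    rw [hS, mem_filter]
    exact ⟨mem_univ _, y + t • z, hp, rfl, hxy.trans hsub⟩)
  rw [← hyT] at hle
  omega

end KAG
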