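import Pool.Agent.KAG.Simp
import Pool.Agent.TCC.Upper

/-!
# The bound for arbitrary polytopes with facets in `k` collinear classes
-/

set_option autoImplicit false

namespace KAG

open Finset QMark
open scoped InnerProductSpace

/-- **StmtSimpB.** The simple case. -/
def StmtSimpB : Prop := ∃ K : ℝ, 0 < K ∧ ∀ (κ : Type) [Fintype κ] [DecidableEq κ] (w : κ → E4)
  (d : E4), d ≠ 0 → SP w (fun _ => 1) → (∀ k, ∃ x ∈ Po w, ac w x = {k}) →
  ((nonq w (fun _ => 1)).card : ℝ) ≤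
    K * ((univ.image fun k => ⟪w k, d⟫_ℝ).card : ℝ) ^ (3 / 2 : ℝ) *
      (Fintype.card κ : ℝ) ^ (3 / 2 : ℝ)

theorem t_SimpB (hExt : StmtExt) (hSd : StmtSd) (hTop : KAL.StmtTopW) (hBot : KAL.StmtBotW) :
    StmtSimpB := by
  classical
  obtain ⟨K, hK, h⟩ := simple_bound hExt hSd hTop hBot
  refine ⟨K, hK, ?_⟩
  intro κ _ _ w d hd hSP hfac
  have := h κ w d hd hSP hfac
  convert this

namespace MFinal

theorem three_pow {k : ℕ} (hk : 1 ≤ k) :
    ((k + 2 : ℕ) : ℝ) ^ (3 / 2 : ℝ) ≤ (3 : ℝ) ^ (3 / 2 : ℝ) * (k : ℝ) ^ (3 / 2 : ℝ) := by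
  rw [← Real.mul_rpow (by norm_num) (Nat.cast_nonneg k)]
  apply Real.rpow_le_rpow (Nat.cast_nonneg _) _ (by norm_num)
  have : (1 : ℝ) ≤ k := by exact_mod_cast hk
  push_cast
  linarith

theorem three_three : (3 : ℝ) ^ (3 / 2 : ℝ) * (3 : ℝ) ^ (3 / 2 : ℝ) = 27 := by
  rw [← Real.rpow_add (by norm_num)]
  norm_num

/-- A vertex is on at least four facets. -/
theorem four_le (hExt : StmtExt) {ι : Type} [Fintype ι] [DecidableEq ι] {v : ι → E4} {x : E4}
    (hx : x ∈ Set.extremePoints ℝ (Po v)) : 4 ≤ (ac v x).card := by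
  by_contra hcon
  push Not at hcon
  have hlt : Module.finrank ℝ (Submodule.span ℝ (Set.range fun i : ac v x => v i)) < 4 := by
    have h1 := finrank_range_le_card (R := ℝ) (fun i : ac v x => v i)
    rw [Set.finrank, Fintype.card_coe] at h1
    omega
  obtain ⟨y, hy0, hy⟩ := exists_orth _ hlt
  exact hy0 (((hExt ι v x).1 hx).2 y fun i hi => hy ⟨i, hi⟩)

end MFinal

open MFinal in
/-- **Arbitrary polytopes**, in terms of the points `v`. -/
theorem general_bound (hExt : StmtExt) (hRed : StmtRed) (hKeep : StmtKeep) (hAtV : StmtAtV)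
    (hData : StmtData) (hWeight : StmtWeight) (hSimpB : StmtSimpB) :
    ∃ K : ℝ, 0 < K ∧ ∀ (ι : Type) [Fintype ι] [DecidableEq ι] (v : ι → E4) (d : E4), d ≠ 0 →
      Bornology.IsBounded (Po v) → (∀ i, ∃ x ∈ Po v, ac v x = {i}) →
      ∀ S : Finset (Finset ι), (∀ s ∈ S, s.card = 2 ∧ (∃ y ∈ Po v, ac v y = s) ∧
        {x | x ∈ Set.extremePoints ℝ (Po v) ∧ s ⊆ ac v x}.ncard ≠ 4) →
      (S.card : ℝ) ≤ K * ((univ.image fun i => ⟪v i, d⟫_ℝ).card : ℝ) ^ (3 / 2 : ℝ) *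
        (Fintype.card ι : ℝ) ^ (3 / 2 : ℝ) := by
  classical
  obtain ⟨K₁, hK₁, h1⟩ := hSimpB
  obtain ⟨K₂, hK₂, h2⟩ := hWeight
  refine ⟨27 * K₁ + 12 * K₂, by positivity, ?_⟩
  intro ι _ _ v d hd hbd hfac S hS
  set T : Finset ℝ := univ.image fun i => ⟪v i, d⟫_ℝ with hT
  rcases isEmpty_or_nonempty ι with hemp | hne
  · -- no facets
    have : S = ∅ := by
      rw [eq_empty_iff_forall_notMem]
      intro s hs
      have h3 := (hS s hs).1
      have h4 : s = ∅ := by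
        rw [eq_empty_iff_forall_notMem]
        intro i
        exact (hemp.false i).elim
      rw [h4, card_empty] at h3
      omega
    rw [this, card_empty, Nat.cast_zero]
    positivity
  have hk1 : 1 ≤ T.card := card_pos.mpr (univ_nonempty.image _)
  have hn1 : 1 ≤ Fintype.card ι := Fintype.card_pos
  -- the two parts
  set S₁ := S.filter fun s => ∀ x ∈ Set.extremePoints ℝ (Po v), s ⊆ ac v x → (ac v x).card = 4
    with hS₁
  set S₂ := S.filter fun s => ¬ ∀ x ∈ Set.extremePoints ℝ (Po v), s ⊆ ac v x → (ac v x).card = 4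
    with hS₂
  have hSc : S.card = S₁.card + S₂.card := (card_filter_add_card_filter_not _).symm
  -- simple vertices only
  have b1 : (S₁.card : ℝ) ≤
      27 * K₁ * ((T.card : ℝ) ^ (3 / 2 : ℝ) * (Fintype.card ι : ℝ) ^ (3 / 2 : ℝ)) := by
    obtain ⟨κ, _, _, e, w, hκ, hTw, hSP, hfacw, hkeep⟩ := hRed ι v d hd hbd hfac
    have h3 := h1 κ w d hd hSP hfacw
    have h4 : S₁.card ≤ (nonq w (fun _ => 1)).card := by
      apply card_le_card_of_injOn (fun s => s.map e)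
      · intro s hs
        rw [mem_coe, hS₁, mem_filter] at hs
        obtain ⟨a1, a2, a3⟩ := hS s hs.1
        obtain ⟨a4, a5⟩ := hKeep ι κ v w e hbd hSP hkeep s a1 a2 hs.2
        rw [mem_coe, nonq, mem_filter]
        exact ⟨a4, by rw [a5]; exact a3⟩
      · intro s _ s' _ hss
        exact map_injective e hss
    have h5 : (S₁.card : ℝ) ≤ (nonq w (fun _ => 1)).card := by exact_mod_cast h4
    have h6 : ((univ.image fun k => ⟪w k, d⟫_ℝ).card : ℝ) ^ (3 / 2 : ℝ) ≤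
        (3 : ℝ) ^ (3 / 2 : ℝ) * (T.card : ℝ) ^ (3 / 2 : ℝ) := by
      refine le_trans ?_ (three_pow hk1)
      exact Real.rpow_le_rpow (Nat.cast_nonneg _) (by exact_mod_cast hTw) (by norm_num)
    have h7 : (Fintype.card κ : ℝ) ^ (3 / 2 : ℝ) ≤
        (3 : ℝ) ^ (3 / 2 : ℝ) * (Fintype.card ι : ℝ) ^ (3 / 2 : ℝ) := by
      refine le_trans ?_ (three_pow hn1)
      exact Real.rpow_le_rpow (Nat.cast_nonneg _) (by exact_mod_cast hκ) (by norm_num)
    have h8 := mul_le_mul h6 h7 (Real.rpow_nonneg (Nat.cast_nonneg _) _) (by positivity)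
    have h9 : (3 : ℝ) ^ (3 / 2 : ℝ) * (T.card : ℝ) ^ (3 / 2 : ℝ) *
        ((3 : ℝ) ^ (3 / 2 : ℝ) * (Fintype.card ι : ℝ) ^ (3 / 2 : ℝ)) =
        27 * ((T.card : ℝ) ^ (3 / 2 : ℝ) * (Fintype.card ι : ℝ) ^ (3 / 2 : ℝ)) := by
      rw [← three_three]; ring
    rw [h9] at h8
    calc (S₁.card : ℝ) ≤ (nonq w (fun _ => 1)).card := h5
      _ ≤ K₁ * (((univ.image fun k => ⟪w k, d⟫_ℝ).card : ℝ) ^ (3 / 2 : ℝ) *
          (Fintype.card κ : ℝ) ^ (3 / 2 : ℝ)) := by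
        rw [← mul_assoc]
        convert h3
      _ ≤ K₁ * (27 * ((T.card : ℝ) ^ (3 / 2 : ℝ) * (Fintype.card ι : ℝ) ^ (3 / 2 : ℝ))) :=
        mul_le_mul_of_nonneg_left h8 hK₁.le
      _ = _ := by ring
  -- the 2-faces with a vertex on at least five facets
  have b2 : (S₂.card : ℝ) ≤
      12 * K₂ * ((T.card : ℝ) ^ (3 / 2 : ℝ) * (Fintype.card ι : ℝ) ^ (3 / 2 : ℝ)) := by
    obtain ⟨V, f, G, u, s, q, D, hVc, hf, hfs, hG, hvt⟩ := hData ι v d hd hbd hfac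
    have h3 := h2 E4 V G u s q D T (by
      intro y hy
      obtain ⟨i, rfl⟩ := hfs y hy
      rw [(hf i).2, hT]
      exact mem_image_of_mem _ (mem_univ _))
    rw [hVc] at h3
    have h4 : S₂ ⊆ G.biUnion fun x => S₂.filter fun s => s ⊆ ac v x := by
      intro s hs
      have hs' := hs
      rw [hS₂, mem_filter] at hs'
      obtain ⟨-, hs2⟩ := hs'
      push Not at hs2
      obtain ⟨x, hx, hsx, h4⟩ := hs2
      have h5 := four_le hExt hx
      rw [mem_biUnion]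
      exact ⟨x, (hG x).2 ⟨hx, by omega⟩, mem_filter.mpr ⟨hs, hsx⟩⟩
    have h5 : S₂.card ≤ ∑ x ∈ G, 12 * (ac v x).card := by
      refine (card_le_card h4).trans (card_biUnion_le.trans (sum_le_sum fun x hx => ?_))
      refine hAtV ι v hfac x ((hExt ι v x).1 ((hG x).1 hx).1).1 _ ?_
      intro s hs
      rw [mem_filter, hS₂, mem_filter] at hs
      obtain ⟨a1, a2, -⟩ := hS s hs.1.1
      exact ⟨a1, hs.2, a2⟩
    have h6 : ∑ x ∈ G, 12 * (ac v x).card = 12 * ∑ x ∈ G, (vt V (u x) (s x) (q x)).card := by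
      rw [mul_sum]
      exact sum_congr rfl fun x hx => by rw [hvt x hx]
    rw [h6] at h5
    have h7 : (S₂.card : ℝ) ≤ 12 * ((∑ x ∈ G, (vt V (u x) (s x) (q x)).card : ℕ) : ℝ) := by
      exact_mod_cast h5
    calc (S₂.card : ℝ) ≤ 12 * ((∑ x ∈ G, (vt V (u x) (s x) (q x)).card : ℕ) : ℝ) := h7
      _ ≤ 12 * (K₂ * (T.card : ℝ) ^ (3 / 2 : ℝ) * (Fintype.card ι : ℝ) ^ (3 / 2 : ℝ)) :=
        mul_le_mul_of_nonneg_left h3 (by norm_num)
      _ = _ := by ring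
  rw [hSc]
  push_cast
  have : (27 * K₁ + 12 * K₂) * (T.card : ℝ) ^ (3 / 2 : ℝ) * (Fintype.card ι : ℝ) ^ (3 / 2 : ℝ) =
      27 * K₁ * ((T.card : ℝ) ^ (3 / 2 : ℝ) * (Fintype.card ι : ℝ) ^ (3 / 2 : ℝ)) +
      12 * K₂ * ((T.card : ℝ) ^ (3 / 2 : ℝ) * (Fintype.card ι : ℝ) ^ (3 / 2 : ℝ)) := by ring
  rw [this]
  linarith

/-! ### translation to polytopes given by inequalities -/

section Prim

variable {n : ℕ} {u : Fin n → TCC.E4} {b : Fin n → ℝ} {p₀ : TCC.E4}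

theorem mem_Po_xv (h₀ : ∀ i, ⟪u i, p₀⟫_ℝ < b i) (p : E4) :
    p - p₀ ∈ Po (TCC.xv u b p₀) ↔ p ∈ TCC.Poly u b := by
  constructor
  · intro h i
    exact (TCC.inner_xv_le (h₀ i) p).1.1 (h i)
  · intro h i
    exact (TCC.inner_xv_le (h₀ i) p).1.2 (h i)

theorem mem_ac_xv (h₀ : ∀ i, ⟪u i, p₀⟫_ℝ < b i) (p : E4) (i : Fin n) :
    i ∈ ac (TCC.xv u b p₀) (p - p₀) ↔ ⟪u i, p⟫_ℝ = b i := by
  rw [mem_ac, (TCC.inner_xv_le (h₀ i) p).2]

theorem bdd_xv (h₀ : ∀ i, ⟪u i, p₀⟫_ℝ < b i) (h : Bornology.IsBounded (TCC.Poly u b)) :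
    Bornology.IsBounded (Po (TCC.xv u b p₀)) := by
  obtain ⟨R, hR⟩ := h.exists_norm_le
  rw [isBounded_iff_forall_norm_le]
  refine ⟨R + ‖p₀‖, fun x hx => ?_⟩
  have h1 : x + p₀ ∈ TCC.Poly u b := by
    rw [← mem_Po_xv h₀, add_sub_cancel_right]
    exact hx
  have h2 := hR _ h1
  calc ‖x‖ = ‖(x + p₀) - p₀‖ := by rw [add_sub_cancel_right]
    _ ≤ ‖x + p₀‖ + ‖p₀‖ := norm_sub_le _ _
    _ ≤ R + ‖p₀‖ := by linarith

theorem ext_xv (hExt : StmtExt) (h₀ : ∀ i, ⟪u i, p₀⟫_ℝ < b i) (p : E4) :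
    p - p₀ ∈ Set.extremePoints ℝ (Po (TCC.xv u b p₀)) ↔
      p ∈ Set.extremePoints ℝ (TCC.Poly u b) := by
  rw [hExt, TCC.mem_extreme, mem_Po_xv h₀]
  have key : ∀ (i : Fin n) (y : E4), ⟪TCC.xv u b p₀ i, y⟫_ℝ = 0 ↔ ⟪u i, y⟫_ℝ = 0 := by
    intro i y
    have h1 : (b i - ⟪u i, p₀⟫_ℝ)⁻¹ ≠ 0 := inv_ne_zero (by have := h₀ i; linarith)
    rw [TCC.inner_xv, mul_eq_zero]
    constructor
    · rintro (h | h)
      · exact absurd h h1
      · exact h
    · exact Or.inr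
  refine and_congr_right fun _ => forall_congr' fun y => imp_congr_left ?_
  constructor
  · intro h i hi
    exact (key i y).1 (h i ((mem_ac_xv h₀ p i).2 hi))
  · intro h i hi
    exact (key i y).2 (h i ((mem_ac_xv h₀ p i).1 hi))

end Prim

open Classical in
/-- **The upper bound** for arbitrary polytopes. -/
theorem upper (hExt : StmtExt) (hRed : StmtRed) (hKeep : StmtKeep) (hAtV : StmtAtV)
    (hData : StmtData) (hWeight : StmtWeight) (hSimpB : StmtSimpB) :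
    ∃ K : ℝ, 0 < K ∧ ∀ (n k : ℕ) (u : Fin n → TCC.E4) (b : Fin n → ℝ) (p₀ d : TCC.E4)
      (s : Fin k → ℝ) (c : Fin n → Fin k),
      TCC.IsPoly4 u b → (∀ i, ⟪u i, p₀⟫_ℝ < b i) → d ≠ 0 →
      (∀ i, ⟪u i, d⟫_ℝ = s (c i) * (b i - ⟪u i, p₀⟫_ℝ)) →
      ((TCC.NonQuads u b).ncard : ℝ) ≤ K * (k : ℝ) ^ (3 / 2 : ℝ) * (n : ℝ) ^ (3 / 2 : ℝ) := by
  obtain ⟨K, hK, h⟩ := general_bound hExt hRed hKeep hAtV hData hWeight hSimpB
  refine ⟨K, hK, ?_⟩
  intro n k u b p₀ d s c hP h₀ hd hcl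
  have hbd := bdd_xv h₀ hP.bounded
  have hfac : ∀ i, ∃ x ∈ Po (TCC.xv u b p₀), ac (TCC.xv u b p₀) x = {i} := by
    intro i
    obtain ⟨p, hp, hpi⟩ := hP.facet i
    refine ⟨p - p₀, (mem_Po_xv h₀ p).2 hp, ?_⟩
    ext j
    rw [mem_ac_xv h₀, mem_singleton]
    exact hpi j
  have hfin : (TCC.NonQuads u b).Finite := Set.toFinite _
  obtain ⟨S, hS⟩ : ∃ S : Finset (Finset (Fin n)),
      S = hfin.toFinset.image fun e => ({e.1, e.2} : Finset (Fin n)) := ⟨_, rfl⟩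
  have hcard : S.card = (TCC.NonQuads u b).ncard := by
    rw [hS, card_image_of_injOn, Set.ncard_eq_toFinset_card _ hfin]
    intro e he e' he' hee
    rw [mem_coe, Set.Finite.mem_toFinset] at he he'
    have h1 : e.1 < e.2 := he.1
    have h2 : e'.1 < e'.2 := he'.1
    have hee' : ({e.1, e.2} : Finset (Fin n)) = {e'.1, e'.2} := hee
    have a1 : e.1 ∈ ({e'.1, e'.2} : Finset (Fin n)) := by rw [← hee']; simp
    have a2 : e.2 ∈ ({e'.1, e'.2} : Finset (Fin n)) := by rw [← hee']; simp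
    rw [mem_insert, mem_singleton] at a1 a2
    rcases a1 with a1 | a1 <;> rcases a2 with a2 | a2
    · rw [a1, a2] at h1
      exact absurd h1 (lt_irrefl _)
    · exact Prod.ext a1 a2
    · rw [a1, a2] at h1
      exact absurd h1 h2.asymm
    · rw [a1, a2] at h1
      exact absurd h1 (lt_irrefl _)
  have h1 := h (Fin n) (TCC.xv u b p₀) d hd hbd hfac S (by
    intro t ht
    rw [hS, mem_image] at ht
    obtain ⟨e, he, rfl⟩ := ht
    rw [Set.Finite.mem_toFinset] at he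
    obtain ⟨a1, a2, a3⟩ := he
    have hne : e.1 ≠ e.2 := a1.ne
    refine ⟨card_pair hne, ?_, ?_⟩
    · obtain ⟨p, hp, hpk⟩ := TCC.exists_two hP hne a2
      refine ⟨p - p₀, (mem_Po_xv h₀ p).2 hp, ?_⟩
      ext j
      rw [mem_ac_xv h₀, mem_insert, mem_singleton]
      exact hpk j
    · have h5 : {x | x ∈ Set.extremePoints ℝ (Po (TCC.xv u b p₀)) ∧
          ({e.1, e.2} : Finset (Fin n)) ⊆ ac (TCC.xv u b p₀) x} =
          (fun p => p - p₀) '' Set.extremePoints ℝ (TCC.Facet u b e.1 ∩ TCC.Facet u b e.2) := by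
        rw [(TCC.isExtreme_two u b e.1 e.2).extremePoints_eq]
        ext x
        constructor
        · rintro ⟨b1, b2⟩
          have hx : x = (x + p₀) - p₀ := by rw [add_sub_cancel_right]
          refine ⟨x + p₀, ?_, hx.symm⟩
          rw [hx, ext_xv hExt h₀] at b1
          have b3 := b2 (mem_insert_self _ _)
          have b4 := b2 (mem_insert_of_mem (mem_singleton_self _))
          rw [hx, mem_ac_xv h₀] at b3 b4
          exact ⟨⟨⟨b1.1, b3⟩, b1.1, b4⟩, b1⟩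
        · rintro ⟨p, ⟨⟨b1, b2⟩, b3⟩, rfl⟩
          refine ⟨(ext_xv hExt h₀ p).2 b3, ?_⟩
          intro j hj
          rw [mem_insert, mem_singleton] at hj
          rw [mem_ac_xv h₀]
          rcases hj with rfl | rfl
          · exact b1.2
          · exact b2.2
      rw [h5, Set.ncard_image_of_injective _ (sub_left_injective)]
      exact a3)
  rw [hcard, Fintype.card_fin] at h1
  have h6 : (univ.image fun i => ⟪TCC.xv u b p₀ i, d⟫_ℝ).card ≤ k := by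
    have h7 : (univ.image fun i => ⟪TCC.xv u b p₀ i, d⟫_ℝ) ⊆ univ.image s := by
      intro y hy
      obtain ⟨i, -, rfl⟩ := mem_image.mp hy
      have h8 : b i - ⟪u i, p₀⟫_ℝ ≠ 0 := by have := h₀ i; linarith
      rw [TCC.inner_xv, hcl, mul_comm (s (c i)), ← mul_assoc, inv_mul_cancel₀ h8, one_mul]
      exact mem_image_of_mem _ (mem_univ _)
    refine (card_le_card h7).trans (card_image_le.trans ?_)
    rw [card_univ, Fintype.card_fin]
  have h8 : ((univ.image fun i => ⟪TCC.xv u b p₀ i, d⟫_ℝ).card : ℝ) ^ (3 / 2 : ℝ) ≤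
      (k : ℝ) ^ (3 / 2 : ℝ) :=
    Real.rpow_le_rpow (Nat.cast_nonneg _) (by exact_mod_cast h6) (by norm_num)
  refine h1.trans ?_
  exact mul_le_mul_of_nonneg_right (mul_le_mul_of_nonneg_left h8 hK.le)
    (Real.rpow_nonneg (Nat.cast_nonneg _) _)

end KAG
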