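import Pool.Agent.KAG.Stmts
import Pool.Agent.TPH.Closed

/-!
# Facets with at least three vertices in a layer: the sum of the numbers of these vertices
-/

set_option autoImplicit false

namespace KAG

open Finset

namespace MLargeW

open TPH TPH.Tr

/-- The weighted form of `TPH.Tr.count_three`. -/
theorem sum_three {V : Finset (TPH.E × ℝ)} {ι : Type} {G : Finset ι} {u : ι → TPH.E} {s q : ι → ℝ}
    (D : Data V G u s q) {t k : ℝ} (hk : 0 < k) (S : Finset ι)
    (hS : S ⊆ G) (hu : ∀ g ∈ S, u g ≠ 0) (h3 : ∀ g ∈ S, 3 ≤ (zer V t (u g) (s g) (q g)).card) :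
    ∑ g ∈ S, (zer V t (u g) (s g) (q g)).card ≤ 12 * (lay V t).card := by
  classical
  have hne : ∀ g ∈ S, (zer V t (u g) (s g) (q g)).Nonempty := by
    intro g hg
    rw [← Finset.card_pos]
    have := h3 g hg
    omega
  have hcard : ∀ g ∈ S, (Mx (img V t k) (u g)).card = (zer V t (u g) (s g) (q g)).card :=
    fun g hg => card_Mx hk (D.nn g (hS hg)) (hne g hg)
  have hmaps : ∀ g ∈ S, Mx (img V t k) (u g) ∈ Faces (img V t k) := by
    intro g hg
    rw [mem_Faces]
    refine ⟨?_, u g, hu g hg, rfl⟩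
    rw [hcard g hg]
    exact h3 g hg
  have hfib : ∀ F ∈ Faces (img V t k), (S.filter (fun g => Mx (img V t k) (u g) = F)).card ≤ 2 := by
    intro F hF
    rw [mem_Faces] at hF
    obtain ⟨a, b, c, ha, hb, hc, hab, hac, hbc⟩ := Finset.two_lt_card_iff.1 (by omega : 2 < F.card)
    obtain ⟨w, -, hw⟩ := hF.2
    have hsub : F ⊆ img V t k := by rw [← hw]; exact Mx_subset _ _
    obtain ⟨x, hx, rfl⟩ := mem_img.1 (hsub ha)
    obtain ⟨y, hy, rfl⟩ := mem_img.1 (hsub hb)
    obtain ⟨z, hz, rfl⟩ := mem_img.1 (hsub hc)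
    refine D.two x (mem_lay.1 hx).1 y (mem_lay.1 hy).1 z (mem_lay.1 hz).1 ?_ ?_ ?_ _
      ((Finset.filter_subset _ _).trans hS) ?_
    · rintro rfl; exact hab rfl
    · rintro rfl; exact hac rfl
    · rintro rfl; exact hbc rfl
    · intro g hg
      rw [Finset.mem_filter] at hg
      have hnn := D.nn g (hS hg.1)
      have hn := hne g hg.1
      refine ⟨?_, ?_, ?_⟩
      · rw [← mem_Mx_img hk hnn hn hx, hg.2]; exact ha
      · rw [← mem_Mx_img hk hnn hn hy, hg.2]; exact hb
      · rw [← mem_Mx_img hk hnn hn hz, hg.2]; exact hc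
  have hsum : ∑ g ∈ S, (zer V t (u g) (s g) (q g)).card
      ≤ ∑ F ∈ Faces (img V t k), 2 * F.card := by
    rw [← Finset.sum_fiberwise_of_maps_to hmaps (fun g => (zer V t (u g) (s g) (q g)).card)]
    refine Finset.sum_le_sum fun F hF => ?_
    have h1 : ∑ g ∈ S.filter (fun g => Mx (img V t k) (u g) = F),
        (zer V t (u g) (s g) (q g)).card
        = ∑ g ∈ S.filter (fun g => Mx (img V t k) (u g) = F), F.card := by
      refine Finset.sum_congr rfl fun g hg => ?_
      rw [Finset.mem_filter] at hg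
      rw [← hcard g hg.1, hg.2]
    rw [h1, Finset.sum_const, smul_eq_mul]
    exact Nat.mul_le_mul_right _ (hfib F hF)
  have h2 := (TPH.Closed.edge_lin (img V t k) (convPos_img hk D.exp)).2.1
  rw [card_img hk] at h2
  rw [← Finset.mul_sum] at hsum
  omega

end MLargeW

theorem t_LargeW : StmtLargeW := by
  intro ι V G u s q D t S hS h
  exact MLargeW.sum_three D one_pos S hS (fun g hg => (h g hg).1) (fun g hg => (h g hg).2)

end KAG
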