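import Pool.Agent.KAG.Final
import Pool.Agent.KAG.FaceV

/-!
# The local bound: 2-faces with vertices on facets in a subset `L` only
-/

set_option autoImplicit false

namespace KAG

open Finset QMark
open scoped InnerProductSpace

/-- **StmtGenB.** The general bound. -/
def StmtGenB : Prop := ∃ K : ℝ, 0 < K ∧ ∀ (ι : Type) [Fintype ι] [DecidableEq ι] (v : ι → E4)
  (d : E4), d ≠ 0 → Bornology.IsBounded (Po v) → (∀ i, ∃ x ∈ Po v, ac v x = {i}) →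
  ∀ S : Finset (Finset ι), (∀ s ∈ S, s.card = 2 ∧ (∃ y ∈ Po v, ac v y = s) ∧
    {x | x ∈ Set.extremePoints ℝ (Po v) ∧ s ⊆ ac v x}.ncard ≠ 4) →
  (S.card : ℝ) ≤ K * ((univ.image fun i => ⟪v i, d⟫_ℝ).card : ℝ) ^ (3 / 2 : ℝ) *
    (Fintype.card ι : ℝ) ^ (3 / 2 : ℝ)

namespace MLocal

/-- A smallest set of additional inequalities: each of them defines a facet. -/
theorem prune {α τ : Type} [Fintype τ] [DecidableEq τ] (f : α → E4) (w : τ → E4) :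
    ∃ J : Finset τ,
      (∀ x : E4, (∀ a, ⟪f a, x⟫_ℝ ≤ 1) → (∀ j ∈ J, ⟪w j, x⟫_ℝ ≤ 1) → ∀ j, ⟪w j, x⟫_ℝ ≤ 1) ∧
      ∀ j ∈ J, ∃ x : E4, (∀ a, ⟪f a, x⟫_ℝ < 1) ∧ ⟪w j, x⟫_ℝ = 1 ∧
        ∀ j' ∈ J, j' ≠ j → ⟪w j', x⟫_ℝ < 1 := by
  classical
  obtain ⟨Q, hQ⟩ : ∃ Q : Finset (Finset τ), Q = univ.filter fun J : Finset τ =>
      ∀ x : E4, (∀ a, ⟪f a, x⟫_ℝ ≤ 1) → (∀ j ∈ J, ⟪w j, x⟫_ℝ ≤ 1) → ∀ j, ⟪w j, x⟫_ℝ ≤ 1 :=
    ⟨_, rfl⟩
  have hne : Q.Nonempty := ⟨univ, by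
    rw [hQ, mem_filter]
    exact ⟨mem_univ _, fun x _ h j => h j (mem_univ j)⟩⟩
  obtain ⟨J, hJ, hmin⟩ := exists_min_image Q card hne
  rw [hQ, mem_filter] at hJ
  refine ⟨J, hJ.2, fun j hj => ?_⟩
  have h1 : J.erase j ∉ Q := fun h => by
    have h2 := hmin _ h
    have h3 := card_erase_lt_of_mem hj
    omega
  rw [hQ, mem_filter, not_and] at h1
  have h2 := h1 (mem_univ _)
  push Not at h2
  obtain ⟨x, hx1, hx2, j₀, hj₀⟩ := h2
  have hxj : 1 < ⟪w j, x⟫_ℝ := by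
    by_contra hcon
    push Not at hcon
    have h3 := hJ.2 x hx1 (fun j' hj' => by
      by_cases h : j' = j
      · rw [h]; exact hcon
      · exact hx2 j' (mem_erase.mpr ⟨h, hj'⟩)) j₀
    linarith
  have hpos : 0 < ⟪w j, x⟫_ℝ := by linarith
  have hl : (⟪w j, x⟫_ℝ)⁻¹ < 1 := inv_lt_one_of_one_lt₀ hxj
  have hl0 : 0 < (⟪w j, x⟫_ℝ)⁻¹ := inv_pos.mpr hpos
  have key : ∀ y : E4, ⟪y, x⟫_ℝ ≤ 1 → ⟪y, (⟪w j, x⟫_ℝ)⁻¹ • x⟫_ℝ < 1 := by
    intro y hy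
    rw [inner_smul_right]
    rcases le_or_gt (⟪y, x⟫_ℝ) 0 with h | h
    · have : (⟪w j, x⟫_ℝ)⁻¹ * ⟪y, x⟫_ℝ ≤ 0 := mul_nonpos_of_nonneg_of_nonpos hl0.le h
      linarith
    · calc (⟪w j, x⟫_ℝ)⁻¹ * ⟪y, x⟫_ℝ ≤ (⟪w j, x⟫_ℝ)⁻¹ * 1 := mul_le_mul_of_nonneg_left hy hl0.le
        _ < 1 := by rw [mul_one]; exact hl
  refine ⟨(⟪w j, x⟫_ℝ)⁻¹ • x, fun a => key _ (hx1 a), ?_, ?_⟩
  · rw [inner_smul_right, inv_mul_cancel₀ hpos.ne']
  · intro j' hj' hne'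
    exact key _ (hx2 j' (mem_erase.mpr ⟨hne', hj'⟩))

/-- A small cross polytope. -/
noncomputable def cu (ρ : ℝ) : Fin 4 × Bool → E4 := fun p =>
  (if p.2 then ρ else -ρ) • EuclideanSpace.single p.1 (1 : ℝ)

theorem inner_cu (ρ : ℝ) (p : Fin 4 × Bool) (x : E4) :
    ⟪cu ρ p, x⟫_ℝ = (if p.2 then ρ else -ρ) * x p.1 := by
  rw [cu, inner_smul_left, EuclideanSpace.inner_single_left]
  simp

theorem cu_bdd {ρ : ℝ} (hρ : 0 < ρ) : Bornology.IsBounded {x : E4 | ∀ p, ⟪cu ρ p, x⟫_ℝ ≤ 1} := by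
  rw [isBounded_iff_forall_norm_le]
  refine ⟨√(∑ _i : Fin 4, (ρ⁻¹) ^ 2), fun x hx => ?_⟩
  rw [EuclideanSpace.norm_eq]
  apply Real.sqrt_le_sqrt
  apply sum_le_sum
  intro i _
  have h1 := hx (i, true)
  have h2 := hx (i, false)
  rw [inner_cu] at h1 h2
  simp only [if_true, Bool.false_eq_true, if_false] at h1 h2
  have h3 : x i ≤ ρ⁻¹ := by
    rw [← one_div, le_div_iff₀ hρ]
    linarith
  have h4 : -x i ≤ ρ⁻¹ := by
    rw [← one_div, le_div_iff₀ hρ]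
    linarith
  have h5 : ‖x i‖ ≤ ρ⁻¹ := by
    rw [Real.norm_eq_abs]
    exact abs_le.mpr ⟨by linarith, h3⟩
  exact pow_le_pow_left₀ (norm_nonneg _) h5 2

theorem cu_lt {R : ℝ} (hR : 0 ≤ R) {x : E4} (hx : ‖x‖ ≤ R) (p : Fin 4 × Bool) :
    ⟪cu (R + 1)⁻¹ p, x⟫_ℝ < 1 := by
  have h0 : 0 < (R + 1)⁻¹ := by positivity
  have h1 : |x p.1| ≤ ‖x‖ := by
    have := EuclideanSpace.norm_eq x
    rw [this, ← Real.sqrt_sq_eq_abs]
    apply Real.sqrt_le_sqrt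
    calc x p.1 ^ 2 = ‖x p.1‖ ^ 2 := by rw [Real.norm_eq_abs, sq_abs]
      _ ≤ ∑ i, ‖x i‖ ^ 2 := single_le_sum (f := fun i => ‖x i‖ ^ 2)
          (fun i _ => by positivity) (mem_univ p.1)
  have h2 : ⟪cu (R + 1)⁻¹ p, x⟫_ℝ ≤ (R + 1)⁻¹ * |x p.1| := by
    rw [inner_cu]
    split_ifs
    · exact mul_le_mul_of_nonneg_left (le_abs_self _) h0.le
    · rw [neg_mul, ← mul_neg]
      exact mul_le_mul_of_nonneg_left (neg_le_abs _) h0.le
  have h3 : (R + 1)⁻¹ * |x p.1| ≤ (R + 1)⁻¹ * R := mul_le_mul_of_nonneg_left (h1.trans hx) h0.le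
  have h4 : (R + 1)⁻¹ * R < 1 := by
    rw [inv_mul_lt_iff₀ (by positivity)]
    linarith
  linarith

theorem six_pow {k : ℕ} (hk : 1 ≤ k) :
    ((k + 8 : ℕ) : ℝ) ^ (3 / 2 : ℝ) ≤ (9 : ℝ) ^ (3 / 2 : ℝ) * (k : ℝ) ^ (3 / 2 : ℝ) := by
  rw [← Real.mul_rpow (by norm_num) (Nat.cast_nonneg k)]
  apply Real.rpow_le_rpow (Nat.cast_nonneg _) _ (by norm_num)
  have : (1 : ℝ) ≤ k := by exact_mod_cast hk
  push_cast
  linarith

theorem nine_nine : (9 : ℝ) ^ (3 / 2 : ℝ) * (9 : ℝ) ^ (3 / 2 : ℝ) = 729 := by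
  rw [← Real.rpow_add (by norm_num)]
  norm_num

section
variable {ι : Type} [Fintype ι] [DecidableEq ι]

omit [DecidableEq ι] in
/-- A point `x` outside `Po v` which satisfies the inequalities of `L`: the segment from `y` to `x`
leaves `Po v` through a facet not in `L`. -/
theorem exit {v : ι → E4} {L : Finset ι} {x y : E4} (hy : y ∈ Po v) (hx : x ∉ Po v)
    (hxL : ∀ i ∈ L, ⟪v i, x⟫_ℝ ≤ 1) :
    ∃ z ∈ Po v, (∀ i, ⟪v i, x⟫_ℝ = 1 → ⟪v i, y⟫_ℝ = 1 → i ∈ ac v z) ∧ ∃ l ∉ L, l ∈ ac v z := by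
  have hne : (univ.filter fun j : ι => 1 < ⟪v j, x⟫_ℝ).Nonempty := by
    have h1 : ∃ j, 1 < ⟪v j, x⟫_ℝ := by
      by_contra hcon
      push Not at hcon
      exact hx hcon
    obtain ⟨j, hj⟩ := h1
    exact ⟨j, by simpa using hj⟩
  obtain ⟨j, hj, hmin⟩ := exists_min_image _
    (fun j => (1 - ⟪v j, y⟫_ℝ) / (⟪v j, x⟫_ℝ - ⟪v j, y⟫_ℝ)) hne
  simp only [mem_filter, mem_univ, true_and] at hj hmin
  have hjy := hy j
  have hden : 0 < ⟪v j, x⟫_ℝ - ⟪v j, y⟫_ℝ := by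
    have : ⟪v j, y⟫_ℝ ≤ 1 := hjy
    linarith
  obtain ⟨t, ht⟩ : ∃ t, t = (1 - ⟪v j, y⟫_ℝ) / (⟪v j, x⟫_ℝ - ⟪v j, y⟫_ℝ) := ⟨_, rfl⟩
  rw [← ht] at hmin
  have ht0 : 0 ≤ t := by
    rw [ht]
    have : ⟪v j, y⟫_ℝ ≤ 1 := hjy
    exact div_nonneg (by linarith) hden.le
  have ht1 : t ≤ 1 := by
    rw [ht, div_le_one hden]
    linarith
  have hval : ∀ i, ⟪v i, y + t • (x - y)⟫_ℝ = ⟪v i, y⟫_ℝ + t * (⟪v i, x⟫_ℝ - ⟪v i, y⟫_ℝ) := by
    intro i
    rw [inner_add_right, inner_smul_right, inner_sub_right]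
  refine ⟨y + t • (x - y), ?_, ?_, j, ?_, ?_⟩
  · intro i
    rw [hval]
    have hiy : ⟪v i, y⟫_ℝ ≤ 1 := hy i
    rcases le_or_gt (⟪v i, x⟫_ℝ) 1 with h | h
    · nlinarith
    · have h2 := hmin i h
      have h3 : 0 < ⟪v i, x⟫_ℝ - ⟪v i, y⟫_ℝ := by linarith
      rw [le_div_iff₀ h3] at h2
      linarith
  · intro i h1 h2
    rw [mem_ac, hval, h1, h2]
    ring
  · intro hjL
    have := hxL j hjL
    linarith
  · rw [mem_ac, hval, ht, div_mul_cancel₀ _ hden.ne']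
    ring

end

end MLocal

open MLocal in
/-- **The local bound**, in terms of the points `v`. -/
theorem local_bound (hExt : StmtExt) (hFaceV : StmtFaceV) (hGB : StmtGenB) :
    ∃ K : ℝ, 0 < K ∧ ∀ (ι : Type) [Fintype ι] [DecidableEq ι] (v : ι → E4) (d : E4), d ≠ 0 →
      Bornology.IsBounded (Po v) → (∀ i, ∃ x ∈ Po v, ac v x = {i}) →
      ∀ (L : Finset ι) (S : Finset (Finset ι)), (∀ s ∈ S, s.card = 2 ∧ (∃ y ∈ Po v, ac v y = s) ∧
        (∀ x ∈ Set.extremePoints ℝ (Po v), s ⊆ ac v x → ac v x ⊆ L) ∧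
        {x | x ∈ Set.extremePoints ℝ (Po v) ∧ s ⊆ ac v x}.ncard ≠ 4) →
      (S.card : ℝ) ≤ K * ((L.image fun i => ⟪v i, d⟫_ℝ).card : ℝ) ^ (3 / 2 : ℝ) *
        (L.card : ℝ) ^ (3 / 2 : ℝ) := by
  classical
  obtain ⟨K, hK, hB⟩ := hGB
  refine ⟨729 * K, by positivity, ?_⟩
  intro ι _ _ v d hd hbd hfac L S hS
  rcases S.eq_empty_or_nonempty with hSe | ⟨s₀, hs₀⟩
  · rw [hSe, card_empty, Nat.cast_zero]
    positivity
  -- the subsets are in `L`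
  have hsL : ∀ s ∈ S, s ⊆ L := by
    intro s hs
    obtain ⟨-, ⟨y, hy, hys⟩, h3, -⟩ := hS s hs
    obtain ⟨x, hx, hxy⟩ := hFaceV ι v hbd y hy
    rw [hys] at hxy
    exact hxy.trans (h3 x hx hxy)
  have hL1 : 1 ≤ L.card := by
    have h1 := card_le_card (hsL s₀ hs₀)
    have h2 := (hS s₀ hs₀).1
    omega
  have hk1 : 1 ≤ (L.image fun i => ⟪v i, d⟫_ℝ).card :=
    card_pos.mpr ((card_pos.mp (by omega)).image _)
  -- the additional inequalities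
  obtain ⟨R, hR0, hR⟩ : ∃ R : ℝ, 0 ≤ R ∧ ∀ x ∈ Po v, ‖x‖ ≤ R := by
    obtain ⟨R, hR⟩ := hbd.exists_norm_le
    exact ⟨max R 0, le_max_right _ _, fun x hx => (hR x hx).trans (le_max_left _ _)⟩
  obtain ⟨w, hw⟩ : ∃ w : Fin 4 × Bool → E4, w = cu (R + 1)⁻¹ := ⟨_, rfl⟩
  have hwlt : ∀ x ∈ Po v, ∀ p, ⟪w p, x⟫_ℝ < 1 := by
    intro x hx p
    rw [hw]
    exact cu_lt hR0 (hR x hx) p
  obtain ⟨J, hJ1, hJ2⟩ := prune (fun i : {i // i ∈ L} => v i) w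
  obtain ⟨z, hz⟩ : ∃ z : {i // i ∈ L} ⊕ {j // j ∈ J} → E4,
      z = Sum.elim (fun i : {i // i ∈ L} => v i) (fun j : {j // j ∈ J} => w j) := ⟨_, rfl⟩
  have hzl : ∀ i, z (Sum.inl i) = v i := fun i => by rw [hz]; rfl
  have hzr : ∀ j, z (Sum.inr j) = w j := fun j => by rw [hz]; rfl
  have hPo : Po v ⊆ Po z := by
    intro x hx k
    rcases k with i | j
    · rw [hzl]; exact hx i
    · rw [hzr]; exact (hwlt x hx j).le
  have hzL : ∀ {x : E4}, x ∈ Po z → ∀ i ∈ L, ⟪v i, x⟫_ℝ ≤ 1 := by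
    intro x hx i hi
    have := hx (Sum.inl ⟨i, hi⟩)
    rw [hzl] at this
    exact this
  have hbdz : Bornology.IsBounded (Po z) := by
    have h1 : 0 < (R + 1)⁻¹ := by positivity
    refine (cu_bdd h1).subset ?_
    intro x hx p
    rw [← hw]
    refine hJ1 x (fun i => hzL hx i i.2) (fun j hj => ?_) p
    have := hx (Sum.inr ⟨j, hj⟩)
    rw [hzr] at this
    exact this
  have hac : ∀ x ∈ Po v, ∀ k, k ∈ ac z x ↔ ∃ i : {i // i ∈ L}, k = Sum.inl i ∧ (i : ι) ∈ ac v x := by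
    intro x hx k
    rw [mem_ac]
    rcases k with i | j
    · rw [hzl]
      constructor
      · intro h
        exact ⟨i, rfl, mem_ac.mpr h⟩
      · rintro ⟨i', h1, h2⟩
        rw [Sum.inl.inj h1]
        exact mem_ac.mp h2
    · rw [hzr]
      constructor
      · intro h
        exact absurd h (hwlt x hx j).ne
      · rintro ⟨i', h1, -⟩
        cases h1
  have hfacz : ∀ k, ∃ x ∈ Po z, ac z x = {k} := by
    intro k
    rcases k with i | j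
    · obtain ⟨x, hx, hxi⟩ := hfac i
      refine ⟨x, hPo hx, ?_⟩
      ext k
      rw [hac x hx, mem_singleton]
      constructor
      · rintro ⟨i', h1, h2⟩
        rw [hxi, mem_singleton] at h2
        rw [h1]
        exact congrArg Sum.inl (Subtype.ext h2)
      · intro h
        exact ⟨i, h, by rw [hxi]; exact mem_singleton_self _⟩
    · obtain ⟨x, hx1, hx2, hx3⟩ := hJ2 j j.2
      refine ⟨x, ?_, ?_⟩
      · intro k
        rcases k with i | j'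
        · rw [hzl]; exact (hx1 i).le
        · rw [hzr]
          by_cases h : (j' : Fin 4 × Bool) = j
          · rw [h]; exact hx2.le
          · exact (hx3 j' j'.2 h).le
      · ext k
        rw [mem_ac, mem_singleton]
        rcases k with i | j'
        · rw [hzl]
          constructor
          · intro h
            exact absurd h (hx1 i).ne
          · intro h
            cases h
        · rw [hzr]
          constructor
          · intro h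
            by_contra hne
            have h1 : (j' : Fin 4 × Bool) ≠ j := fun h2 => hne (congrArg Sum.inr (Subtype.ext h2))
            exact absurd h (hx3 j' j'.2 h1).ne
          · intro h
            rw [Sum.inr.inj h]
            exact hx2
  -- the sets
  obtain ⟨F, hF⟩ : ∃ F : Finset ι → Finset ({i // i ∈ L} ⊕ {j // j ∈ J}),
      F = fun s => (s.subtype (· ∈ L)).map Function.Embedding.inl := ⟨_, rfl⟩
  have hFm : ∀ s k, k ∈ F s ↔ ∃ i : {i // i ∈ L}, k = Sum.inl i ∧ (i : ι) ∈ s := by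
    intro s k
    rw [hF, mem_map]
    constructor
    · rintro ⟨i, h1, h2⟩
      exact ⟨i, h2.symm, mem_subtype.mp h1⟩
    · rintro ⟨i, h1, h2⟩
      exact ⟨i, mem_subtype.mpr h2, h1.symm⟩
  have hFc : ∀ s ⊆ L, (F s).card = s.card := by
    intro s hs
    rw [hF, card_map, card_subtype, filter_true_of_mem hs]
  have hFi : ∀ s ⊆ L, ∀ s' ⊆ L, F s = F s' → s ⊆ s' := by
    intro s hs s' _ h i hi
    have h1 : Sum.inl ⟨i, hs hi⟩ ∈ F s := (hFm _ _).mpr ⟨⟨i, hs hi⟩, rfl, hi⟩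
    rw [h] at h1
    obtain ⟨i', h2, h3⟩ := (hFm _ _).mp h1
    have h4 := congrArg Subtype.val (Sum.inl.inj h2)
    rw [← h4] at h3
    exact h3
  have hSc : S.card = (S.image F).card := by
    rw [card_image_of_injOn]
    intro s hs s' hs' h
    rw [mem_coe] at hs hs'
    exact subset_antisymm (hFi s (hsL s hs) s' (hsL s' hs') h)
      (hFi s' (hsL s' hs') s (hsL s hs) h.symm)
  have h1 := hB _ z d hd hbdz hfacz (S.image F) (by
    intro t ht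
    obtain ⟨s, hs, rfl⟩ := mem_image.mp ht
    obtain ⟨a1, ⟨y, hy, hys⟩, a3, a4⟩ := hS s hs
    refine ⟨by rw [hFc s (hsL s hs)]; exact a1, ⟨y, hPo hy, ?_⟩, ?_⟩
    · ext k
      rw [hac y hy, hFm, hys]
    · have hset : {x | x ∈ Set.extremePoints ℝ (Po z) ∧ F s ⊆ ac z x} =
          {x | x ∈ Set.extremePoints ℝ (Po v) ∧ s ⊆ ac v x} := by
        ext x
        constructor
        · rintro ⟨b1, b2⟩
          have b3 : ∀ i ∈ s, ⟪v i, x⟫_ℝ = 1 := by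
            intro i hi
            have h3 : Sum.inl ⟨i, hsL s hs hi⟩ ∈ F s := (hFm _ _).mpr ⟨⟨i, hsL s hs hi⟩, rfl, hi⟩
            have h4 := mem_ac.mp (b2 h3)
            rw [hzl] at h4
            exact h4
          have b4 : x ∈ Po v := by
            by_contra hcon
            obtain ⟨p, hp, hp1, l, hl, hlp⟩ := exit hy hcon (hzL b1.1)
            obtain ⟨x', hx', hpx'⟩ := hFaceV ι v hbd p hp
            have h3 : s ⊆ ac v x' := by
              intro i hi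
              apply hpx'
              apply hp1 i (b3 i hi)
              rw [← mem_ac, hys]
              exact hi
            exact hl (a3 x' hx' h3 (hpx' hlp))
          exact ⟨inter_extremePoints_subset_extremePoints_of_subset hPo ⟨b4, b1⟩,
            fun i hi => mem_ac.mpr (b3 i hi)⟩
        · rintro ⟨b1, b2⟩
          have b3 := b1.1
          have b4 := a3 x b1 b2
          refine ⟨(hExt _ z x).mpr ⟨hPo b3, fun y' hy' => ?_⟩, ?_⟩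
          · refine ((hExt ι v x).mp b1).2 y' fun i hi => ?_
            have h3 := hy' (Sum.inl ⟨i, b4 hi⟩) ((hac x b3 _).mpr ⟨⟨i, b4 hi⟩, rfl, hi⟩)
            rw [hzl] at h3
            exact h3
          · intro k hk
            obtain ⟨i, h3, h4⟩ := (hFm _ _).mp hk
            exact (hac x b3 _).mpr ⟨i, h3, b2 h4⟩
      rw [hset]
      exact a4)
  rw [← hSc] at h1
  -- the numbers
  have hJc : J.card ≤ 8 := by
    refine (card_le_univ J).trans ?_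
    simp
  have h2 : (univ.image fun k => ⟪z k, d⟫_ℝ).card ≤ (L.image fun i => ⟪v i, d⟫_ℝ).card + 8 := by
    have h3 : (univ.image fun k => ⟪z k, d⟫_ℝ) ⊆
        (L.image fun i => ⟪v i, d⟫_ℝ) ∪ J.image fun j => ⟪w j, d⟫_ℝ := by
      intro y hy
      obtain ⟨k, -, rfl⟩ := mem_image.mp hy
      rcases k with i | j
      · rw [hzl]
        exact mem_union_left _ (mem_image.mpr ⟨i, i.2, rfl⟩)
      · rw [hzr]
        exact mem_union_right _ (mem_image.mpr ⟨j, j.2, rfl⟩)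
    have h4 := (card_le_card h3).trans (card_union_le _ _)
    have h5 : (J.image fun j => ⟪w j, d⟫_ℝ).card ≤ J.card := card_image_le
    omega
  have h3 : Fintype.card ({i // i ∈ L} ⊕ {j // j ∈ J}) ≤ L.card + 8 := by
    rw [Fintype.card_sum, Fintype.card_coe, Fintype.card_coe]
    omega
  have h6 : ((univ.image fun k => ⟪z k, d⟫_ℝ).card : ℝ) ^ (3 / 2 : ℝ) ≤
      (9 : ℝ) ^ (3 / 2 : ℝ) * ((L.image fun i => ⟪v i, d⟫_ℝ).card : ℝ) ^ (3 / 2 : ℝ) := by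
    refine le_trans ?_ (six_pow hk1)
    exact Real.rpow_le_rpow (Nat.cast_nonneg _) (by exact_mod_cast h2) (by norm_num)
  have h7 : (Fintype.card ({i // i ∈ L} ⊕ {j // j ∈ J}) : ℝ) ^ (3 / 2 : ℝ) ≤
      (9 : ℝ) ^ (3 / 2 : ℝ) * (L.card : ℝ) ^ (3 / 2 : ℝ) := by
    refine le_trans ?_ (six_pow hL1)
    exact Real.rpow_le_rpow (Nat.cast_nonneg _) (by exact_mod_cast h3) (by norm_num)
  have h8 := mul_le_mul h6 h7 (Real.rpow_nonneg (Nat.cast_nonneg _) _) (by positivity)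
  have h9 : (9 : ℝ) ^ (3 / 2 : ℝ) * ((L.image fun i => ⟪v i, d⟫_ℝ).card : ℝ) ^ (3 / 2 : ℝ) *
      ((9 : ℝ) ^ (3 / 2 : ℝ) * (L.card : ℝ) ^ (3 / 2 : ℝ)) =
      729 * (((L.image fun i => ⟪v i, d⟫_ℝ).card : ℝ) ^ (3 / 2 : ℝ) * (L.card : ℝ) ^ (3 / 2 : ℝ)) := by
    rw [← nine_nine]; ring
  rw [h9] at h8
  calc (S.card : ℝ) ≤ _ := h1
    _ = K * (((univ.image fun k => ⟪z k, d⟫_ℝ).card : ℝ) ^ (3 / 2 : ℝ) *
        (Fintype.card ({i // i ∈ L} ⊕ {j // j ∈ J}) : ℝ) ^ (3 / 2 : ℝ)) := by ring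
    _ ≤ K * (729 * (((L.image fun i => ⟪v i, d⟫_ℝ).card : ℝ) ^ (3 / 2 : ℝ) *
        (L.card : ℝ) ^ (3 / 2 : ℝ))) := mul_le_mul_of_nonneg_left h8 hK.le
    _ = _ := by ring

end KAG
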