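import Pool.Agent.KAG.Local

/-!
# The local bound for polytopes given by inequalities
-/

set_option autoImplicit false

namespace KAG

open Finset QMark
open scoped InnerProductSpace

/-- The 2-faces which are not 4-gons and have vertices on facets in `L` only. -/
def NonQuadsIn {n : ℕ} (u : Fin n → TCC.E4) (b : Fin n → ℝ) (L : Set (Fin n)) :
    Set (Fin n × Fin n) :=
  {e | e.1 < e.2 ∧
    Module.finrank ℝ (vectorSpan ℝ (TCC.Facet u b e.1 ∩ TCC.Facet u b e.2)) = 2 ∧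
    (Set.extremePoints ℝ (TCC.Facet u b e.1 ∩ TCC.Facet u b e.2)).ncard ≠ 4 ∧
    ∀ p ∈ Set.extremePoints ℝ (TCC.Facet u b e.1 ∩ TCC.Facet u b e.2),
      ∀ i, ⟪u i, p⟫_ℝ = b i → i ∈ L}

/-- **The upper bound** for arbitrary polytopes, local form. -/
theorem upperL (hExt : StmtExt) (hFaceV : StmtFaceV) (hGB : StmtGenB) :
    ∃ K : ℝ, 0 < K ∧ ∀ (n : ℕ) (u : Fin n → TCC.E4) (b : Fin n → ℝ) (p₀ d : TCC.E4)
      (L : Set (Fin n)),
      TCC.IsPoly4 u b → (∀ i, ⟪u i, p₀⟫_ℝ < b i) → d ≠ 0 →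
      ((NonQuadsIn u b L).ncard : ℝ) ≤ K *
        ((((fun i => ⟪u i, d⟫_ℝ / (b i - ⟪u i, p₀⟫_ℝ)) '' L).ncard : ℕ) : ℝ) ^ (3 / 2 : ℝ) *
        (L.ncard : ℝ) ^ (3 / 2 : ℝ) := by
  classical
  obtain ⟨K, hK, h⟩ := local_bound hExt hFaceV hGB
  refine ⟨K, hK, ?_⟩
  intro n u b p₀ d L hP h₀ hd
  have hbd := bdd_xv h₀ hP.bounded
  have hfac : ∀ i, ∃ x ∈ Po (TCC.xv u b p₀), ac (TCC.xv u b p₀) x = {i} := by
    intro i
    obtain ⟨p, hp, hpi⟩ := hP.facet i
    refine ⟨p - p₀, (mem_Po_xv h₀ p).2 hp, ?_⟩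
    ext j
    rw [mem_ac_xv h₀, mem_singleton]
    exact hpi j
  have hfin : (NonQuadsIn u b L).Finite := Set.toFinite _
  obtain ⟨S, hS⟩ : ∃ S : Finset (Finset (Fin n)),
      S = hfin.toFinset.image fun e => ({e.1, e.2} : Finset (Fin n)) := ⟨_, rfl⟩
  have hcard : S.card = (NonQuadsIn u b L).ncard := by
    rw [hS, card_image_of_injOn, Set.ncard_eq_toFinset_card _ hfin]
    intro e he e' he' hee
    rw [mem_coe, Set.Finite.mem_toFinset] at he he'
    have h1 : e.1 < e.2 := he.1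
    have h2 : e'.1 < e'.2 := he'.1
    have hee' : ({e.1, e.2} : Finset (Fin n)) = {e'.1, e'.2} := hee
    have a1 : e.1 ∈ ({e'.1, e'.2} : Finset (Fin n)) := by rw [← hee']; simp
    have a2 : e.2 ∈ ({e'.1, e'.2} : Finset (Fin n)) := by rw [← hee']; simp
    rw [mem_insert, mem_singleton] at a1 a2
    rcases a1 with a1 | a1 <;> rcases a2 with a2 | a2
    · rw [a1, a2] at h1
      exact absurd h1 (lt_irrefl _)
    · exact Prod.ext a1 a2
    · rw [a1, a2] at h1
      exact absurd h1 h2.asymm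
    · rw [a1, a2] at h1
      exact absurd h1 (lt_irrefl _)
  have hLfin : L.Finite := Set.toFinite L
  have h1 := h (Fin n) (TCC.xv u b p₀) d hd hbd hfac hLfin.toFinset S (by
    intro t ht
    rw [hS, mem_image] at ht
    obtain ⟨e, he, rfl⟩ := ht
    rw [Set.Finite.mem_toFinset] at he
    obtain ⟨a1, a2, a3, a4⟩ := he
    have hne : e.1 ≠ e.2 := a1.ne
    have h5 : {x | x ∈ Set.extremePoints ℝ (Po (TCC.xv u b p₀)) ∧
        ({e.1, e.2} : Finset (Fin n)) ⊆ ac (TCC.xv u b p₀) x} =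
        (fun p => p - p₀) '' Set.extremePoints ℝ (TCC.Facet u b e.1 ∩ TCC.Facet u b e.2) := by
      rw [(TCC.isExtreme_two u b e.1 e.2).extremePoints_eq]
      ext x
      constructor
      · rintro ⟨b1, b2⟩
        have hx : x = (x + p₀) - p₀ := by rw [add_sub_cancel_right]
        refine ⟨x + p₀, ?_, hx.symm⟩
        rw [hx, ext_xv hExt h₀] at b1
        have b3 := b2 (mem_insert_self _ _)
        have b4 := b2 (mem_insert_of_mem (mem_singleton_self _))
        rw [hx, mem_ac_xv h₀] at b3 b4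
        exact ⟨⟨⟨b1.1, b3⟩, b1.1, b4⟩, b1⟩
      · rintro ⟨p, ⟨⟨b1, b2⟩, b3⟩, rfl⟩
        refine ⟨(ext_xv hExt h₀ p).2 b3, ?_⟩
        intro j hj
        rw [mem_insert, mem_singleton] at hj
        rw [mem_ac_xv h₀]
        rcases hj with rfl | rfl
        · exact b1.2
        · exact b2.2
    refine ⟨card_pair hne, ?_, ?_, ?_⟩
    · obtain ⟨p, hp, hpk⟩ := TCC.exists_two hP hne a2
      refine ⟨p - p₀, (mem_Po_xv h₀ p).2 hp, ?_⟩
      ext j
      rw [mem_ac_xv h₀, mem_insert, mem_singleton]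
      exact hpk j
    · intro x hx hxs
      have h6 : x ∈ (fun p => p - p₀) ''
          Set.extremePoints ℝ (TCC.Facet u b e.1 ∩ TCC.Facet u b e.2) := by
        rw [← h5]
        exact ⟨hx, hxs⟩
      obtain ⟨p, hp, rfl⟩ := h6
      intro i hi
      rw [Set.Finite.mem_toFinset]
      exact a4 p hp i ((mem_ac_xv h₀ p i).1 hi)
    · rw [h5, Set.ncard_image_of_injective _ (sub_left_injective)]
      exact a3)
  have h6 : (hLfin.toFinset.image fun i => ⟪TCC.xv u b p₀ i, d⟫_ℝ).card =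
      ((fun i => ⟪u i, d⟫_ℝ / (b i - ⟪u i, p₀⟫_ℝ)) '' L).ncard := by
    rw [← Set.ncard_coe_finset, coe_image, Set.Finite.coe_toFinset]
    congr 1
    apply Set.image_congr
    intro i _
    rw [TCC.inner_xv, div_eq_inv_mul]
  rw [hcard, h6, ← Set.ncard_eq_toFinset_card L hLfin] at h1
  exact h1

end KAG
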