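import Pool.Agent.KAG.LocalP

/-!
# The local bound for polytopes given by inequalities, for a point inside the facets of `L` only
-/

set_option autoImplicit false

namespace KAG

open Finset QMark
open scoped InnerProductSpace

namespace MLocalQ

variable {n : ℕ}

/-- Every face has a vertex. -/
theorem face_vertex {u : Fin n → E4} {b : Fin n → ℝ} (hbd : Bornology.IsBounded (TCC.Poly u b))
    {x : E4} (hx : x ∈ TCC.Poly u b) :
    ∃ x' ∈ Set.extremePoints ℝ (TCC.Poly u b), ∀ i, ⟪u i, x⟫_ℝ = b i → ⟪u i, x'⟫_ℝ = b i := by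
  obtain ⟨G, hG⟩ : ∃ G : Set E4, G = {y | y ∈ TCC.Poly u b ∧ ∀ i, ⟪u i, x⟫_ℝ = b i →
      ⟪u i, y⟫_ℝ = b i} := ⟨_, rfl⟩
  have hclosed : IsClosed G := by
    have h1 : G = (⋂ i, {y | ⟪u i, y⟫_ℝ ≤ b i}) ∩
        ⋂ i, ⋂ _ : ⟪u i, x⟫_ℝ = b i, {y | ⟪u i, y⟫_ℝ = b i} := by
      rw [hG]
      ext y
      simp only [Set.mem_ofPred_eq, Set.mem_inter_iff, Set.mem_iInter]
      exact Iff.rfl
    rw [h1]
    refine IsClosed.inter (isClosed_iInter fun i => ?_)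
      (isClosed_iInter fun i => isClosed_iInter fun _ => ?_)
    · exact isClosed_le (by fun_prop) continuous_const
    · exact isClosed_eq (by fun_prop) continuous_const
  have hcomp : IsCompact G := by
    apply Metric.isCompact_of_isClosed_isBounded hclosed
    refine hbd.subset ?_
    rw [hG]
    exact fun y hy => hy.1
  have hne : G.Nonempty := ⟨x, by rw [hG]; exact ⟨hx, fun _ h => h⟩⟩
  obtain ⟨x', hx'⟩ := hcomp.extremePoints_nonempty hne
  have hxG : x' ∈ G := hx'.1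
  have hext : IsExtreme ℝ (TCC.Poly u b) G := by
    refine ⟨by rw [hG]; exact fun y hy => hy.1, ?_⟩
    intro x₁ hx₁ x₂ hx₂ y hy hseg
    rw [hG] at hy ⊢
    refine ⟨hx₁, fun i hi => ?_⟩
    have hyi := hy.2 i hi
    obtain ⟨α, β, hα, hβ, hαβ, rfl⟩ := hseg
    rw [inner_add_right, inner_smul_right, inner_smul_right] at hyi
    have h1 := hx₁ i
    have h2 := hx₂ i
    have h3 : α * (b i - ⟪u i, x₁⟫_ℝ) + β * (b i - ⟪u i, x₂⟫_ℝ) = 0 := by
      have : (α + β) * b i = b i := by rw [hαβ, one_mul]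
      linarith
    have h4 : 0 ≤ α * (b i - ⟪u i, x₁⟫_ℝ) := mul_nonneg hα.le (by linarith)
    have h5 : 0 ≤ β * (b i - ⟪u i, x₂⟫_ℝ) := mul_nonneg hβ.le (by linarith)
    have h6 : α * (b i - ⟪u i, x₁⟫_ℝ) = 0 := by linarith
    rcases mul_eq_zero.1 h6 with h | h
    · exact absurd h hα.ne'
    · linarith
  refine ⟨x', ?_, ?_⟩
  · have h1 := hx'
    rw [hext.extremePoints_eq] at h1
    exact h1.2
  · rw [hG] at hxG
    exact hxG.2

/-- The segment from `y ∈ P` to a point `x ∉ P` which satisfies the inequalities of `L` leaves `P`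
through a facet not in `L`. -/
theorem exitP {u : Fin n → E4} {b : Fin n → ℝ} {L : Finset (Fin n)} {x y : E4}
    (hy : y ∈ TCC.Poly u b) (hx : x ∉ TCC.Poly u b) (hxL : ∀ i ∈ L, ⟪u i, x⟫_ℝ ≤ b i) :
    ∃ z ∈ TCC.Poly u b, (∀ i, ⟪u i, x⟫_ℝ = b i → ⟪u i, y⟫_ℝ = b i → ⟪u i, z⟫_ℝ = b i) ∧
      ∃ l ∉ L, ⟪u l, z⟫_ℝ = b l := by
  have hne : (univ.filter fun j : Fin n => b j < ⟪u j, x⟫_ℝ).Nonempty := by
    have h1 : ∃ j, b j < ⟪u j, x⟫_ℝ := by
      by_contra hcon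
      push Not at hcon
      exact hx hcon
    obtain ⟨j, hj⟩ := h1
    exact ⟨j, by simpa using hj⟩
  obtain ⟨j, hj, hmin⟩ := exists_min_image _
    (fun j => (b j - ⟪u j, y⟫_ℝ) / (⟪u j, x⟫_ℝ - ⟪u j, y⟫_ℝ)) hne
  simp only [mem_filter, mem_univ, true_and] at hj hmin
  have hjy : ⟪u j, y⟫_ℝ ≤ b j := hy j
  have hden : 0 < ⟪u j, x⟫_ℝ - ⟪u j, y⟫_ℝ := by linarith
  obtain ⟨t, ht⟩ : ∃ t, t = (b j - ⟪u j, y⟫_ℝ) / (⟪u j, x⟫_ℝ - ⟪u j, y⟫_ℝ) := ⟨_, rfl⟩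
  rw [← ht] at hmin
  have ht0 : 0 ≤ t := by
    rw [ht]
    exact div_nonneg (by linarith) hden.le
  have ht1 : t ≤ 1 := by
    rw [ht, div_le_one hden]
    linarith
  have hval : ∀ i, ⟪u i, y + t • (x - y)⟫_ℝ = ⟪u i, y⟫_ℝ + t * (⟪u i, x⟫_ℝ - ⟪u i, y⟫_ℝ) := by
    intro i
    rw [inner_add_right, inner_smul_right, inner_sub_right]
  refine ⟨y + t • (x - y), ?_, ?_, j, ?_, ?_⟩
  · intro i
    rw [hval]
    have hiy : ⟪u i, y⟫_ℝ ≤ b i := hy i
    rcases le_or_gt (⟪u i, x⟫_ℝ) (b i) with h | h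
    · nlinarith
    · have h2 := hmin i h
      have h3 : 0 < ⟪u i, x⟫_ℝ - ⟪u i, y⟫_ℝ := by linarith
      rw [le_div_iff₀ h3] at h2
      linarith
  · intro i h1 h2
    rw [hval, h1, h2]
    ring
  · intro hjL
    have := hxL j hjL
    linarith
  · rw [hval, ht, div_mul_cancel₀ _ hden.ne']
    ring

end MLocalQ

open MLocal MLocalQ in
/-- **The upper bound** for arbitrary polytopes, local form, `p₀` inside the facets of `L` only. -/
theorem upperM (hExt : StmtExt) (hGB : StmtGenB) :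
    ∃ K : ℝ, 0 < K ∧ ∀ (n : ℕ) (u : Fin n → TCC.E4) (b : Fin n → ℝ) (p₀ d : TCC.E4)
      (L : Set (Fin n)),
      TCC.IsPoly4 u b → (∀ i ∈ L, ⟪u i, p₀⟫_ℝ < b i) → d ≠ 0 →
      ((NonQuadsIn u b L).ncard : ℝ) ≤ K *
        ((((fun i => ⟪u i, d⟫_ℝ / (b i - ⟪u i, p₀⟫_ℝ)) '' L).ncard : ℕ) : ℝ) ^ (3 / 2 : ℝ) *
        (L.ncard : ℝ) ^ (3 / 2 : ℝ) := by
  classical
  obtain ⟨K, hK, hB⟩ := hGB
  refine ⟨729 * K, by positivity, ?_⟩
  intro n u b p₀ d L₀ hP h₀ hd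
  obtain ⟨L, hL⟩ : ∃ L : Finset (Fin n), L = (Set.toFinite L₀).toFinset := ⟨_, rfl⟩
  have hmL : ∀ i, i ∈ L ↔ i ∈ L₀ := by
    intro i
    rw [hL, Set.Finite.mem_toFinset]
  have hfin : (NonQuadsIn u b L₀).Finite := Set.toFinite _
  -- empty
  rcases (NonQuadsIn u b L₀).eq_empty_or_nonempty with hSe | ⟨e₀, he₀⟩
  · rw [hSe, Set.ncard_empty, Nat.cast_zero]
    positivity
  have h₁ : ∀ i ∈ L, ⟪u i, p₀⟫_ℝ < b i := fun i hi => h₀ i ((hmL i).1 hi)
  obtain ⟨S, hS⟩ : ∃ S : Finset (Finset (Fin n)),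
      S = hfin.toFinset.image fun e => ({e.1, e.2} : Finset (Fin n)) := ⟨_, rfl⟩
  have hcard : S.card = (NonQuadsIn u b L₀).ncard := by
    rw [hS, card_image_of_injOn, Set.ncard_eq_toFinset_card _ hfin]
    intro e he e' he' hee
    rw [mem_coe, Set.Finite.mem_toFinset] at he he'
    have h1 : e.1 < e.2 := he.1
    have h2 : e'.1 < e'.2 := he'.1
    have hee' : ({e.1, e.2} : Finset (Fin n)) = {e'.1, e'.2} := hee
    have a1 : e.1 ∈ ({e'.1, e'.2} : Finset (Fin n)) := by rw [← hee']; simp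
    have a2 : e.2 ∈ ({e'.1, e'.2} : Finset (Fin n)) := by rw [← hee']; simp
    rw [mem_insert, mem_singleton] at a1 a2
    rcases a1 with a1 | a1 <;> rcases a2 with a2 | a2
    · rw [a1, a2] at h1
      exact absurd h1 (lt_irrefl _)
    · exact Prod.ext a1 a2
    · rw [a1, a2] at h1
      exact absurd h1 h2.asymm
    · rw [a1, a2] at h1
      exact absurd h1 (lt_irrefl _)
  -- the properties of the sets in `S`
  have hSp : ∀ s ∈ S, s.card = 2 ∧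
      (∃ p ∈ TCC.Poly u b, ∀ i, ⟪u i, p⟫_ℝ = b i ↔ i ∈ s) ∧
      (∀ x ∈ Set.extremePoints ℝ (TCC.Poly u b), (∀ i ∈ s, ⟪u i, x⟫_ℝ = b i) →
        ∀ i, ⟪u i, x⟫_ℝ = b i → i ∈ L) ∧
      {x | x ∈ Set.extremePoints ℝ (TCC.Poly u b) ∧ ∀ i ∈ s, ⟪u i, x⟫_ℝ = b i}.ncard ≠ 4 := by
    intro t ht
    rw [hS, mem_image] at ht
    obtain ⟨e, he, rfl⟩ := ht
    rw [Set.Finite.mem_toFinset] at he
    obtain ⟨a1, a2, a3, a4⟩ := he
    have hne : e.1 ≠ e.2 := a1.ne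
    have h5 : {x | x ∈ Set.extremePoints ℝ (TCC.Poly u b) ∧
        ∀ i ∈ ({e.1, e.2} : Finset (Fin n)), ⟪u i, x⟫_ℝ = b i} =
        Set.extremePoints ℝ (TCC.Facet u b e.1 ∩ TCC.Facet u b e.2) := by
      rw [(TCC.isExtreme_two u b e.1 e.2).extremePoints_eq]
      ext x
      constructor
      · rintro ⟨b1, b2⟩
        exact ⟨⟨⟨b1.1, b2 _ (mem_insert_self _ _)⟩, b1.1,
          b2 _ (mem_insert_of_mem (mem_singleton_self _))⟩, b1⟩
      · rintro ⟨⟨b1, b2⟩, b3⟩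
        refine ⟨b3, ?_⟩
        intro j hj
        rw [mem_insert, mem_singleton] at hj
        rcases hj with rfl | rfl
        · exact b1.2
        · exact b2.2
    refine ⟨card_pair hne, ?_, ?_, ?_⟩
    · obtain ⟨p, hp, hpk⟩ := TCC.exists_two hP hne a2
      refine ⟨p, hp, fun i => ?_⟩
      rw [hpk, mem_insert, mem_singleton]
    · intro x hx hxs i hi
      have h6 : x ∈ Set.extremePoints ℝ (TCC.Facet u b e.1 ∩ TCC.Facet u b e.2) := by
        rw [← h5]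
        exact ⟨hx, hxs⟩
      exact (hmL i).2 (a4 x h6 i hi)
    · rw [h5]
      exact a3
  -- the subsets are in `L`
  have hsL : ∀ s ∈ S, s ⊆ L := by
    intro s hs i hi
    obtain ⟨-, ⟨y, hy, hys⟩, h3, -⟩ := hSp s hs
    obtain ⟨x, hx, hxy⟩ := face_vertex hP.bounded hy
    exact h3 x hx (fun j hj => hxy j ((hys j).2 hj)) i (hxy i ((hys i).2 hi))
  have hS0 : ∃ s₀, s₀ ∈ S := by
    refine ⟨{e₀.1, e₀.2}, ?_⟩
    rw [hS, mem_image]
    exact ⟨e₀, (Set.Finite.mem_toFinset hfin).2 he₀, rfl⟩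
  obtain ⟨s₀, hs₀⟩ := hS0
  have hL1 : 1 ≤ L.card := by
    have h1 := card_le_card (hsL s₀ hs₀)
    have h2 := (hSp s₀ hs₀).1
    omega
  have hk1 : 1 ≤ (L.image fun i => ⟪TCC.xv u b p₀ i, d⟫_ℝ).card :=
    card_pos.mpr ((card_pos.mp (by omega)).image _)
  -- the additional inequalities
  obtain ⟨R, hR0, hR⟩ : ∃ R : ℝ, 0 ≤ R ∧ ∀ x ∈ TCC.Poly u b, ‖x - p₀‖ ≤ R := by
    obtain ⟨R, hR⟩ := hP.bounded.exists_norm_le
    refine ⟨max R 0 + ‖p₀‖, by positivity, fun x hx => ?_⟩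
    calc ‖x - p₀‖ ≤ ‖x‖ + ‖p₀‖ := norm_sub_le _ _
      _ ≤ max R 0 + ‖p₀‖ := by
        have := (hR x hx).trans (le_max_left R 0)
        linarith
  obtain ⟨w, hw⟩ : ∃ w : Fin 4 × Bool → E4, w = cu (R + 1)⁻¹ := ⟨_, rfl⟩
  have hwlt : ∀ x ∈ TCC.Poly u b, ∀ p, ⟪w p, x - p₀⟫_ℝ < 1 := by
    intro x hx p
    rw [hw]
    exact cu_lt hR0 (hR x hx) p
  obtain ⟨J, hJ1, hJ2⟩ := prune (fun i : {i // i ∈ L} => TCC.xv u b p₀ i) w
  obtain ⟨z, hz⟩ : ∃ z : {i // i ∈ L} ⊕ {j // j ∈ J} → E4,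
      z = Sum.elim (fun i : {i // i ∈ L} => TCC.xv u b p₀ i) (fun j : {j // j ∈ J} => w j) :=
    ⟨_, rfl⟩
  have hzl : ∀ i, z (Sum.inl i) = TCC.xv u b p₀ i := fun i => by rw [hz]; rfl
  have hzr : ∀ j, z (Sum.inr j) = w j := fun j => by rw [hz]; rfl
  have hle : ∀ i ∈ L, ∀ p, ⟪TCC.xv u b p₀ i, p - p₀⟫_ℝ ≤ 1 ↔ ⟪u i, p⟫_ℝ ≤ b i :=
    fun i hi p => (TCC.inner_xv_le (h₁ i hi) p).1
  have heq : ∀ i ∈ L, ∀ p, ⟪TCC.xv u b p₀ i, p - p₀⟫_ℝ = 1 ↔ ⟪u i, p⟫_ℝ = b i :=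
    fun i hi p => (TCC.inner_xv_le (h₁ i hi) p).2
  have hzero : ∀ i ∈ L, ∀ y : E4, ⟪TCC.xv u b p₀ i, y⟫_ℝ = 0 ↔ ⟪u i, y⟫_ℝ = 0 := by
    intro i hi y
    have h1 : (b i - ⟪u i, p₀⟫_ℝ)⁻¹ ≠ 0 := inv_ne_zero (by have := h₁ i hi; linarith)
    rw [TCC.inner_xv, mul_eq_zero]
    constructor
    · rintro (h | h)
      · exact absurd h h1
      · exact h
    · exact Or.inr
  have hPo : ∀ x ∈ TCC.Poly u b, x - p₀ ∈ Po z := by
    intro x hx k
    rcases k with i | j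
    · rw [hzl]; exact (hle i i.2 x).2 (hx i)
    · rw [hzr]; exact (hwlt x hx j).le
  have hzL : ∀ {y : E4}, y ∈ Po z → ∀ i ∈ L, ⟪TCC.xv u b p₀ i, y⟫_ℝ ≤ 1 := by
    intro y hy i hi
    have := hy (Sum.inl ⟨i, hi⟩)
    rw [hzl] at this
    exact this
  have hbdz : Bornology.IsBounded (Po z) := by
    have h1 : 0 < (R + 1)⁻¹ := by positivity
    refine (cu_bdd h1).subset ?_
    intro x hx p
    rw [← hw]
    refine hJ1 x (fun i => hzL hx i i.2) (fun j hj => ?_) p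
    have := hx (Sum.inr ⟨j, hj⟩)
    rw [hzr] at this
    exact this
  have hac : ∀ x ∈ TCC.Poly u b, ∀ k, k ∈ ac z (x - p₀) ↔
      ∃ i : {i // i ∈ L}, k = Sum.inl i ∧ ⟪u i, x⟫_ℝ = b i := by
    intro x hx k
    rw [mem_ac]
    rcases k with i | j
    · rw [hzl, heq i i.2]
      constructor
      · intro h
        exact ⟨i, rfl, h⟩
      · rintro ⟨i', h1, h2⟩
        rw [Sum.inl.inj h1]
        exact h2
    · rw [hzr]
      constructor
      · intro h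
        exact absurd h (hwlt x hx j).ne
      · rintro ⟨i', h1, -⟩
        cases h1
  have hfacz : ∀ k, ∃ x ∈ Po z, ac z x = {k} := by
    intro k
    rcases k with i | j
    · obtain ⟨x, hx, hxi⟩ := hP.facet i
      refine ⟨x - p₀, hPo x hx, ?_⟩
      ext k
      rw [hac x hx, mem_singleton]
      constructor
      · rintro ⟨i', h1, h2⟩
        rw [h1]
        exact congrArg Sum.inl (Subtype.ext ((hxi _).1 h2))
      · intro h
        exact ⟨i, h, (hxi _).2 rfl⟩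
    · obtain ⟨x, hx1, hx2, hx3⟩ := hJ2 j j.2
      refine ⟨x, ?_, ?_⟩
      · intro k
        rcases k with i | j'
        · rw [hzl]; exact (hx1 i).le
        · rw [hzr]
          by_cases h : (j' : Fin 4 × Bool) = j
          · rw [h]; exact hx2.le
          · exact (hx3 j' j'.2 h).le
      · ext k
        rw [mem_ac, mem_singleton]
        rcases k with i | j'
        · rw [hzl]
          constructor
          · intro h
            exact absurd h (hx1 i).ne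
          · intro h
            cases h
        · rw [hzr]
          constructor
          · intro h
            by_contra hne
            have h1 : (j' : Fin 4 × Bool) ≠ j := fun h2 => hne (congrArg Sum.inr (Subtype.ext h2))
            exact absurd h (hx3 j' j'.2 h1).ne
          · intro h
            rw [Sum.inr.inj h]
            exact hx2
  -- the sets
  obtain ⟨F, hF⟩ : ∃ F : Finset (Fin n) → Finset ({i // i ∈ L} ⊕ {j // j ∈ J}),
      F = fun s => (s.subtype (· ∈ L)).map Function.Embedding.inl := ⟨_, rfl⟩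
  have hFm : ∀ s k, k ∈ F s ↔ ∃ i : {i // i ∈ L}, k = Sum.inl i ∧ (i : Fin n) ∈ s := by
    intro s k
    rw [hF, mem_map]
    constructor
    · rintro ⟨i, h1, h2⟩
      exact ⟨i, h2.symm, mem_subtype.mp h1⟩
    · rintro ⟨i, h1, h2⟩
      exact ⟨i, mem_subtype.mpr h2, h1.symm⟩
  have hFc : ∀ s ⊆ L, (F s).card = s.card := by
    intro s hs
    rw [hF, card_map, card_subtype, filter_true_of_mem hs]
  have hFi : ∀ s ⊆ L, ∀ s' ⊆ L, F s = F s' → s ⊆ s' := by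
    intro s hs s' _ h i hi
    have h1 : Sum.inl ⟨i, hs hi⟩ ∈ F s := (hFm _ _).mpr ⟨⟨i, hs hi⟩, rfl, hi⟩
    rw [h] at h1
    obtain ⟨i', h2, h3⟩ := (hFm _ _).mp h1
    have h4 := congrArg Subtype.val (Sum.inl.inj h2)
    rw [← h4] at h3
    exact h3
  have hSc : S.card = (S.image F).card := by
    rw [card_image_of_injOn]
    intro s hs s' hs' h
    rw [mem_coe] at hs hs'
    exact subset_antisymm (hFi s (hsL s hs) s' (hsL s' hs') h)
      (hFi s' (hsL s' hs') s (hsL s hs) h.symm)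
  have h1 := hB _ z d hd hbdz hfacz (S.image F) (by
    intro t ht
    obtain ⟨s, hs, rfl⟩ := mem_image.mp ht
    obtain ⟨a1, ⟨y, hy, hys⟩, a3, a4⟩ := hSp s hs
    refine ⟨by rw [hFc s (hsL s hs)]; exact a1, ⟨y - p₀, hPo y hy, ?_⟩, ?_⟩
    · ext k
      rw [hac y hy, hFm]
      constructor
      · rintro ⟨i, h2, h3⟩
        exact ⟨i, h2, (hys _).1 h3⟩
      · rintro ⟨i, h2, h3⟩
        exact ⟨i, h2, (hys _).2 h3⟩
    · have hset : {x | x ∈ Set.extremePoints ℝ (Po z) ∧ F s ⊆ ac z x} =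
          (fun x => x - p₀) ''
            {x | x ∈ Set.extremePoints ℝ (TCC.Poly u b) ∧ ∀ i ∈ s, ⟪u i, x⟫_ℝ = b i} := by
        ext x
        constructor
        · rintro ⟨b1, b2⟩
          have hxx : x = (x + p₀) - p₀ := by rw [add_sub_cancel_right]
          obtain ⟨x₁, hx₁⟩ : ∃ x₁, x₁ = x + p₀ := ⟨_, rfl⟩
          rw [← hx₁] at hxx
          subst hxx
          have b3 : ∀ i ∈ s, ⟪u i, x₁⟫_ℝ = b i := by
            intro i hi
            have h3 : Sum.inl ⟨i, hsL s hs hi⟩ ∈ F s := (hFm _ _).mpr ⟨⟨i, hsL s hs hi⟩, rfl, hi⟩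
            have h4 := mem_ac.mp (b2 h3)
            rw [hzl] at h4
            exact (heq i (hsL s hs hi) x₁).1 h4
          have b4 : x₁ ∈ TCC.Poly u b := by
            by_contra hcon
            obtain ⟨p, hp, hp1, l, hl, hlp⟩ := exitP (L := L) hy hcon
              (fun i hi => (hle i hi x₁).1 (hzL b1.1 i hi))
            obtain ⟨x', hx', hpx'⟩ := face_vertex hP.bounded hp
            have h3 : ∀ i ∈ s, ⟪u i, x'⟫_ℝ = b i := fun i hi =>
              hpx' i (hp1 i (b3 i hi) ((hys i).2 hi))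
            exact hl (a3 x' hx' h3 l (hpx' l hlp))
          refine ⟨x₁, ⟨TCC.mem_extreme.2 ⟨b4, fun y' hy' => ?_⟩, b3⟩, rfl⟩
          refine ((hExt _ z _).1 b1).2 y' fun k hk => ?_
          obtain ⟨i, rfl, h4⟩ := (hac x₁ b4 k).1 hk
          rw [hzl]
          exact (hzero i i.2 y').2 (hy' i h4)
        · rintro ⟨x₁, ⟨b1, b2⟩, rfl⟩
          have b3 := b1.1
          have b4 := a3 x₁ b1 b2
          refine ⟨(hExt _ z _).mpr ⟨hPo _ b3, fun y' hy' => ?_⟩, ?_⟩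
          · refine (TCC.mem_extreme.1 b1).2 y' fun i hi => ?_
            have h3 := hy' (Sum.inl ⟨i, b4 i hi⟩) ((hac x₁ b3 _).mpr ⟨⟨i, b4 i hi⟩, rfl, hi⟩)
            rw [hzl] at h3
            exact (hzero i (b4 i hi) y').1 h3
          · intro k hk
            obtain ⟨i, h3, h4⟩ := (hFm _ _).mp hk
            exact (hac x₁ b3 _).mpr ⟨i, h3, b2 _ h4⟩
      rw [hset, Set.ncard_image_of_injective _ (sub_left_injective)]
      exact a4)
  rw [← hSc] at h1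
  -- the numbers
  have hJc : J.card ≤ 8 := by
    refine (card_le_univ J).trans ?_
    simp
  have h2 : (univ.image fun k => ⟪z k, d⟫_ℝ).card ≤
      (L.image fun i => ⟪TCC.xv u b p₀ i, d⟫_ℝ).card + 8 := by
    have h3 : (univ.image fun k => ⟪z k, d⟫_ℝ) ⊆
        (L.image fun i => ⟪TCC.xv u b p₀ i, d⟫_ℝ) ∪ J.image fun j => ⟪w j, d⟫_ℝ := by
      intro y hy
      obtain ⟨k, -, rfl⟩ := mem_image.mp hy
      rcases k with i | j
      · rw [hzl]
        exact mem_union_left _ (mem_image.mpr ⟨i, i.2, rfl⟩)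
      · rw [hzr]
        exact mem_union_right _ (mem_image.mpr ⟨j, j.2, rfl⟩)
    have h4 := (card_le_card h3).trans (card_union_le _ _)
    have h5 : (J.image fun j => ⟪w j, d⟫_ℝ).card ≤ J.card := card_image_le
    omega
  have h3 : Fintype.card ({i // i ∈ L} ⊕ {j // j ∈ J}) ≤ L.card + 8 := by
    rw [Fintype.card_sum, Fintype.card_coe, Fintype.card_coe]
    omega
  have h6 : ((univ.image fun k => ⟪z k, d⟫_ℝ).card : ℝ) ^ (3 / 2 : ℝ) ≤
      (9 : ℝ) ^ (3 / 2 : ℝ) *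
        ((L.image fun i => ⟪TCC.xv u b p₀ i, d⟫_ℝ).card : ℝ) ^ (3 / 2 : ℝ) := by
    refine le_trans ?_ (six_pow hk1)
    exact Real.rpow_le_rpow (Nat.cast_nonneg _) (by exact_mod_cast h2) (by norm_num)
  have h7 : (Fintype.card ({i // i ∈ L} ⊕ {j // j ∈ J}) : ℝ) ^ (3 / 2 : ℝ) ≤
      (9 : ℝ) ^ (3 / 2 : ℝ) * (L.card : ℝ) ^ (3 / 2 : ℝ) := by
    refine le_trans ?_ (six_pow hL1)
    exact Real.rpow_le_rpow (Nat.cast_nonneg _) (by exact_mod_cast h3) (by norm_num)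
  have h8 := mul_le_mul h6 h7 (Real.rpow_nonneg (Nat.cast_nonneg _) _) (by positivity)
  obtain ⟨X, hX⟩ : ∃ X, X = ((L.image fun i => ⟪TCC.xv u b p₀ i, d⟫_ℝ).card : ℝ) := ⟨_, rfl⟩
  rw [← hX] at h8
  have h9 : (9 : ℝ) ^ (3 / 2 : ℝ) * X ^ (3 / 2 : ℝ) *
      ((9 : ℝ) ^ (3 / 2 : ℝ) * (L.card : ℝ) ^ (3 / 2 : ℝ)) =
      729 * (X ^ (3 / 2 : ℝ) * (L.card : ℝ) ^ (3 / 2 : ℝ)) := by
    rw [← nine_nine]; ring
  rw [h9] at h8
  have h10 : X = ((((fun i => ⟪u i, d⟫_ℝ / (b i - ⟪u i, p₀⟫_ℝ)) '' L₀).ncard : ℕ) : ℝ) := by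
    rw [hX]
    congr 1
    rw [← Set.ncard_coe_finset, coe_image, hL, Set.Finite.coe_toFinset]
    congr 1
    apply Set.image_congr
    intro i _
    rw [TCC.inner_xv, div_eq_inv_mul]
  have h11 : L.card = L₀.ncard := by
    rw [hL, ← Set.ncard_eq_toFinset_card]
  rw [← hcard, ← h10, ← h11]
  calc (S.card : ℝ) ≤ _ := h1
    _ = K * (((univ.image fun k => ⟪z k, d⟫_ℝ).card : ℝ) ^ (3 / 2 : ℝ) *
        (Fintype.card ({i // i ∈ L} ⊕ {j // j ∈ J}) : ℝ) ^ (3 / 2 : ℝ)) := by ring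
    _ ≤ K * (729 * (X ^ (3 / 2 : ℝ) * (L.card : ℝ) ^ (3 / 2 : ℝ))) :=
      mul_le_mul_of_nonneg_left h8 hK.le
    _ = _ := by ring

end KAG
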