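import Pool.Agent.KAG.Stmts
import Pool.Agent.KAL.StmtsW

/-!
# The bound for simple polytopes with facets in `k` collinear classes
-/

set_option autoImplicit false

namespace KAG

open Finset QMark
open scoped InnerProductSpace

/-- **StmtSd.** The facet data of all vertices. -/
def StmtSd : Prop := ∀ (ι : Type) [Fintype ι] [DecidableEq ι] (v : ι → E4) (d : E4), d ≠ 0 →
  Bornology.IsBounded (Po v) → (∀ i, ∃ x ∈ Po v, ac v x = {i}) →
  ∃ (V : Finset (TPH.E × ℝ)) (f : ι → TPH.E × ℝ) (G : Finset E4) (u : E4 → TPH.E)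
    (s q : E4 → ℝ), KAL.SD V G u s q ∧ V.card = Fintype.card ι ∧
    (∀ i, f i ∈ V ∧ (f i).2 = ⟪v i, d⟫_ℝ) ∧ (∀ y ∈ V, ∃ i, f i = y) ∧ Function.Injective f ∧
    (∀ x, x ∈ G ↔ x ∈ Set.extremePoints ℝ (Po v)) ∧
    ∀ x ∈ G, ∀ i, (TPH.Tr.val (u x) (s x) (f i) = q x ↔ i ∈ ac v x)

namespace MSimp

/-- An injective order which refines the heights. -/
theorem exists_ord (V : Finset (TPH.E × ℝ)) : ∃ ord : TPH.E × ℝ → ℝ,
    (∀ v ∈ V, ∀ v' ∈ V, v.2 < v'.2 → ord v < ord v') ∧ Set.InjOn ord (V : Set (TPH.E × ℝ)) := by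
  classical
  obtain ⟨idx, hidx, hidx2⟩ : ∃ idx : TPH.E × ℝ → ℕ, Set.InjOn idx (V : Set (TPH.E × ℝ)) ∧
      ∀ v ∈ V, idx v < V.card := by
    refine ⟨fun v => if h : v ∈ V then (V.equivFin ⟨v, h⟩ : ℕ) else 0, ?_, ?_⟩
    · intro v hv v' hv' h
      rw [mem_coe] at hv hv'
      simp only [dif_pos hv, dif_pos hv'] at h
      have h1 := V.equivFin.injective (Fin.ext h)
      exact congrArg Subtype.val h1
    · intro v hv
      simp only [dif_pos hv]
      exact (V.equivFin ⟨v, hv⟩).2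
  obtain ⟨δ, hδ, hδ2⟩ : ∃ δ : ℝ, 0 < δ ∧ ∀ v ∈ V, ∀ v' ∈ V, v.2 < v'.2 → v.2 + δ ≤ v'.2 := by
    rcases ((V ×ˢ V).filter fun p => p.1.2 < p.2.2).eq_empty_or_nonempty with h0 | h0
    · refine ⟨1, one_pos, fun v hv v' hv' h => ?_⟩
      have h1 : (v, v') ∈ (V ×ˢ V).filter fun p => p.1.2 < p.2.2 :=
        mem_filter.mpr ⟨mem_product.mpr ⟨hv, hv'⟩, h⟩
      rw [h0] at h1
      exact absurd h1 (notMem_empty _)
    · obtain ⟨p, hp, hmin⟩ := exists_min_image _ (fun p => p.2.2 - p.1.2) h0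
      rw [mem_filter] at hp
      refine ⟨p.2.2 - p.1.2, by linarith [hp.2], fun v hv v' hv' h => ?_⟩
      have h1 := hmin (v, v') (mem_filter.mpr ⟨mem_product.mpr ⟨hv, hv'⟩, h⟩)
      dsimp only at h1
      linarith
  set ε : ℝ := δ / (V.card + 1) with hε
  have hc : (0 : ℝ) < V.card + 1 := by positivity
  have hε0 : 0 < ε := div_pos hδ hc
  have hεc : ε * (V.card + 1) = δ := div_mul_cancel₀ _ hc.ne'
  have hstrict : ∀ v ∈ V, ∀ v' ∈ V, v.2 < v'.2 → v.2 + ε * idx v < v'.2 + ε * idx v' := by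
    intro v hv v' hv' h
    have h1 := hδ2 v hv v' hv' h
    have h2 : (idx v : ℝ) < V.card + 1 := by
      have : (idx v : ℝ) < V.card := by exact_mod_cast hidx2 v hv
      linarith
    have h3 : ε * idx v < ε * (V.card + 1) := mul_lt_mul_of_pos_left h2 hε0
    have h4 : 0 ≤ ε * idx v' := by positivity
    linarith
  refine ⟨fun v => v.2 + ε * idx v, hstrict, ?_⟩
  intro v hv v' hv' h
  rw [mem_coe] at hv hv'
  have h' : v.2 + ε * idx v = v'.2 + ε * idx v' := h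
  rcases lt_trichotomy v.2 v'.2 with h1 | h1 | h1
  · exact absurd h' (hstrict v hv v' hv' h1).ne
  · rw [h1] at h'
    have h2 : ε * (idx v : ℝ) = ε * idx v' := by linarith
    have h3 := mul_left_cancel₀ hε0.ne' h2
    exact hidx hv hv' (by exact_mod_cast h3)
  · exact absurd h' (hstrict v' hv' v hv h1).ne'

theorem ext_of_four {κ : Type} [Fintype κ] [DecidableEq κ] (hExt : StmtExt) {w : κ → E4}
    (h : SP w (fun _ => 1)) {p : E4} (hp : p ∈ Po w) (h4 : (ac w p).card = 4) :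
    p ∈ Set.extremePoints ℝ (Po w) := by
  rw [hExt]
  refine ⟨hp, fun y hy => ?_⟩
  exact eq_zero_of_orth h hp h4 hy

theorem pow_ge {k n : ℕ} (hk : 1 ≤ k) (hn : 1 ≤ n) :
    (n : ℝ) ≤ (k : ℝ) ^ (3 / 2 : ℝ) * (n : ℝ) ^ (3 / 2 : ℝ) := by
  have h1 : (1 : ℝ) ≤ (k : ℝ) ^ (3 / 2 : ℝ) :=
    Real.one_le_rpow (by exact_mod_cast hk) (by norm_num)
  have h1n : (1 : ℝ) ≤ n := by exact_mod_cast hn
  have h2 : (n : ℝ) ≤ (n : ℝ) ^ (3 / 2 : ℝ) := by
    calc (n : ℝ) = (n : ℝ) ^ (1 : ℝ) := (Real.rpow_one _).symm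
      _ ≤ (n : ℝ) ^ (3 / 2 : ℝ) := Real.rpow_le_rpow_of_exponent_le h1n (by norm_num)
  have h3 : (0 : ℝ) ≤ (n : ℝ) ^ (3 / 2 : ℝ) := by linarith
  nlinarith

end MSimp

open MSimp in
open Classical in
/-- **The simple case.** -/
theorem simple_bound (hExt : StmtExt) (hSd : StmtSd) (hTop : KAL.StmtTopW) (hBot : KAL.StmtBotW) :
    ∃ K : ℝ, 0 < K ∧ ∀ (κ : Type) [Fintype κ] [DecidableEq κ] (w : κ → E4) (d : E4), d ≠ 0 →
      SP w (fun _ => 1) → (∀ k, ∃ x ∈ Po w, ac w x = {k}) →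
      ((nonq w (fun _ => 1)).card : ℝ) ≤
        K * ((univ.image fun k => ⟪w k, d⟫_ℝ).card : ℝ) ^ (3 / 2 : ℝ) *
          (Fintype.card κ : ℝ) ^ (3 / 2 : ℝ) := by
  obtain ⟨K₁, hK₁, h1⟩ := hTop
  obtain ⟨K₂, hK₂, h2⟩ := hBot
  refine ⟨4 + 14 * (K₁ + K₂), by positivity, ?_⟩
  intro κ _ _ w d hd hSP hfac
  obtain ⟨V, f, G, u, s, q, D, hVc, hf, hfs, hfi, hG, hval⟩ := hSd κ w d hd hSP.bdd hfac
  obtain ⟨ord, hord, hordi⟩ := exists_ord V
  set T : Finset ℝ := univ.image fun k => ⟪w k, d⟫_ℝ with hT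
  have hTV : ∀ v ∈ V, v.2 ∈ T := by
    intro v hv
    obtain ⟨i, rfl⟩ := hfs v hv
    rw [(hf i).2, hT]
    exact mem_image_of_mem _ (mem_univ _)
  set η : κ → ℝ := fun k => ord (f k) with hη
  have hηi : Function.Injective η := fun a b h => hfi (hordi (hf a).1 (hf b).1 h)
  have hact : ∀ t ∈ tets w (fun _ => 1), ∃ p ∈ G, ac w p = t := by
    intro t ht
    obtain ⟨hc, p, hp, hpt⟩ := mem_tets.mp ht
    refine ⟨p, (hG p).2 (ext_of_four hExt hSP hp (by rw [← hc, ← hpt])), hpt⟩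
  -- the top pairs
  have htop : ((KAL.top w (fun _ => 1) η).card : ℝ) ≤
      K₁ * (T.card : ℝ) ^ (3 / 2 : ℝ) * (V.card : ℝ) ^ (3 / 2 : ℝ) := by
    have hex : ∀ e : Finset κ, ∃ p : κ × κ, e ∈ KAL.top w (fun _ => 1) η →
        e = {p.1, p.2} ∧ η p.1 < η p.2 := by
      intro e
      by_cases he : e ∈ KAL.top w (fun _ => 1) η
      · obtain ⟨c, y, h3, h4⟩ := KAL.exists_sorted hηi (mem_faces.mp (KAL.mem_top.mp he).1).1
        exact ⟨(c, y), fun _ => ⟨h3, h4⟩⟩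
      · by_cases hne : Nonempty κ
        · obtain ⟨k⟩ := hne
          exact ⟨(k, k), fun h => absurd h he⟩
        · exfalso
          obtain ⟨x, hx, -⟩ : ∃ x : E4, x ∈ Po w ∧ True :=
            ⟨0, fun i => by rw [inner_zero_right]; norm_num, trivial⟩
          obtain ⟨j, -⟩ := exists_pos hSP hx hd
          exact hne ⟨j⟩
    choose φ hφ using hex
    set P := (KAL.top w (fun _ => 1) η).image fun e => (f (φ e).1, f (φ e).2) with hP
    have hPc : P.card = (KAL.top w (fun _ => 1) η).card := by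
      rw [hP]
      apply card_image_of_injOn
      intro e he e' he' hee
      rw [mem_coe] at he he'
      have a1 := hfi (congrArg Prod.fst hee)
      have a2 := hfi (congrArg Prod.snd hee)
      rw [(hφ e he).1, (hφ e' he').1, a1, a2]
    rw [← hPc]
    refine h1 E4 V G u s q D T hTV ord hord P ?_
    intro p hp
    rw [hP, mem_image] at hp
    obtain ⟨e, he, rfl⟩ := hp
    obtain ⟨h3, h4⟩ := hφ e he
    obtain ⟨-, t, ht, het, hlow⟩ := KAL.mem_top.mp he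
    obtain ⟨x, hx, hxt⟩ := hact t ht
    have hc : (φ e).1 ∈ ({(φ e).1, (φ e).2} : Finset κ) := mem_insert_self _ _
    have hy : (φ e).2 ∈ ({(φ e).1, (φ e).2} : Finset κ) :=
      mem_insert_of_mem (mem_singleton_self _)
    rw [← h3] at hc hy
    refine ⟨(hf _).1, (hf _).1, h4, x, hx, (hval x hx _).2 (by rw [hxt]; exact het hc),
      (hval x hx _).2 (by rw [hxt]; exact het hy), ?_⟩
    intro v hv hvq hvc hvy
    obtain ⟨i, rfl⟩ := hfs v hv
    have hi : i ∈ t := by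
      rw [← hxt]
      exact (hval x hx i).1 hvq
    refine hlow i hi ?_ _ hc
    rw [h3, mem_insert, mem_singleton, not_or]
    exact ⟨fun h => hvc (by rw [h]), fun h => hvy (by rw [h])⟩
  -- the bottom pairs
  have hbot : ((KAL.bot w (fun _ => 1) η).card : ℝ) ≤
      K₂ * (T.card : ℝ) ^ (3 / 2 : ℝ) * (V.card : ℝ) ^ (3 / 2 : ℝ) := by
    have hex : ∀ e : Finset κ, ∃ p : κ × κ, e ∈ KAL.bot w (fun _ => 1) η →
        e = {p.2, p.1} ∧ η p.2 < η p.1 := by
      intro e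
      by_cases he : e ∈ KAL.bot w (fun _ => 1) η
      · obtain ⟨c, y, h3, h4⟩ := KAL.exists_sorted hηi (mem_faces.mp (KAL.mem_bot.mp he).1).1
        exact ⟨(y, c), fun _ => ⟨h3, h4⟩⟩
      · by_cases hne : Nonempty κ
        · obtain ⟨k⟩ := hne
          exact ⟨(k, k), fun h => absurd h he⟩
        · exfalso
          obtain ⟨x, hx, -⟩ : ∃ x : E4, x ∈ Po w ∧ True :=
            ⟨0, fun i => by rw [inner_zero_right]; norm_num, trivial⟩
          obtain ⟨j, -⟩ := exists_pos hSP hx hd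
          exact hne ⟨j⟩
    choose φ hφ using hex
    set P := (KAL.bot w (fun _ => 1) η).image fun e => (f (φ e).1, f (φ e).2) with hP
    have hPc : P.card = (KAL.bot w (fun _ => 1) η).card := by
      rw [hP]
      apply card_image_of_injOn
      intro e he e' he' hee
      rw [mem_coe] at he he'
      have a1 := hfi (congrArg Prod.fst hee)
      have a2 := hfi (congrArg Prod.snd hee)
      rw [(hφ e he).1, (hφ e' he').1, a1, a2]
    rw [← hPc]
    refine h2 E4 V G u s q D T hTV ord hord P ?_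
    intro p hp
    rw [hP, mem_image] at hp
    obtain ⟨e, he, rfl⟩ := hp
    obtain ⟨h3, h4⟩ := hφ e he
    obtain ⟨-, t, ht, het, hlow⟩ := KAL.mem_bot.mp he
    obtain ⟨x, hx, hxt⟩ := hact t ht
    have hc : (φ e).1 ∈ ({(φ e).2, (φ e).1} : Finset κ) :=
      mem_insert_of_mem (mem_singleton_self _)
    have hy : (φ e).2 ∈ ({(φ e).2, (φ e).1} : Finset κ) := mem_insert_self _ _
    rw [← h3] at hc hy
    refine ⟨(hf _).1, (hf _).1, h4, x, hx, (hval x hx _).2 (by rw [hxt]; exact het hc),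
      (hval x hx _).2 (by rw [hxt]; exact het hy), ?_⟩
    intro v hv hvq hvc hvy
    obtain ⟨i, rfl⟩ := hfs v hv
    have hi : i ∈ t := by
      rw [← hxt]
      exact (hval x hx i).1 hvq
    refine hlow i hi ?_ _ hc
    rw [h3, mem_insert, mem_singleton, not_or]
    exact ⟨fun h => hvy (by rw [h]), fun h => hvc (by rw [h])⟩
  have h0 := KAL.nonq_le hSP hηi
  have h0' : ((nonq w (fun _ => 1)).card : ℝ) ≤ 4 * (Fintype.card κ : ℝ) +
      14 * (((KAL.top w (fun _ => 1) η).card : ℝ) + ((KAL.bot w (fun _ => 1) η).card : ℝ)) := by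
    exact_mod_cast h0
  rw [hVc] at htop hbot
  -- nonempty
  have hne : Nonempty κ := by
    obtain ⟨j, -⟩ := exists_pos hSP (p := 0) (fun i => by rw [inner_zero_right]; norm_num) hd
    exact ⟨j⟩
  have hk1 : 1 ≤ T.card := card_pos.mpr (univ_nonempty.image _)
  have hn1 : 1 ≤ Fintype.card κ := Fintype.card_pos
  have h5 := pow_ge hk1 hn1
  obtain ⟨X, hX⟩ : ∃ X, X = (T.card : ℝ) ^ (3 / 2 : ℝ) * (Fintype.card κ : ℝ) ^ (3 / 2 : ℝ) :=
    ⟨_, rfl⟩
  rw [mul_assoc, ← hX] at htop hbot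
  rw [← hX] at h5
  rw [mul_assoc, ← hX]
  nlinarith

end KAG
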