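import Pool.Agent.KAG.Base

/-!
# Arbitrary 4-polytopes with facets in `k` collinear classes: statements

GOAL: if the hyperplanes of the `n` facets of a 4-polytope meet a line through an interior point in `k` points then
at most `K k^(3/2) n^(3/2)` of its 2-faces are not 4-gons.  For SIMPLE polytopes this is the KAL theorem.  Here:
(1) move the points `v i` inside the layers of `⟪·, d⟫` to general position (`StmtStep`, `StmtGen`); vertices of
`Po v` with exactly four facets persist (`StmtTet`, `StmtPersist`); at most two further points above / below the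
extreme layers (`StmtCap`) make the polytope simple (`StmtSimple`, `StmtRed`); a 2-face all whose vertices are simple
keeps its number of vertices (`StmtKeep`).  (2) The other 2-faces contain a vertex on at least five facets:
at most `12 |ac x|` of them contain `x` (`StmtAtV`), and the sum of `|ac x|` over these vertices is at most
`K k^(3/2) n^(3/2)` (`StmtWeight`, a weighted form of `KPX.StmtTotalX`).
All statements are independent (hypothesis style): a module proves `theorem t_Xxx (hYyy : StmtYyy) .. : StmtXxx`.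
`Po v = {x | ∀ i, ⟪v i, x⟫ ≤ 1}`, `ac v x = {i | ⟪v i, x⟫ = 1}` (`mem_Po`, `mem_ac`).
-/

set_option autoImplicit false

namespace KAG

open Finset QMark
open scoped InnerProductSpace

/-! ### general position -/

/-- **StmtStep.** One more point in general position (uses nothing).
PROOF. Put `N S = Submodule.span ℝ (hom v '' S)` for `S ⊆ s`, `|S| ≤ 4`.
(1) Call such an `S` good if `|S| ≤ 3` or the heights `⟪v j, d⟫`, `j ∈ S`, are not all equal.  For good `S` there is
`w ⊥ d` with `(w, 0) ∉ N S`: otherwise `dᗮ × 0 ≤ N S`; `dᗮ` has dimension 3 and `finrank (N S) ≤ |S|`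
(`finrank_span_le_card` or similar), so `|S| ≥ 3`, there is `j₀ ∈ S`, `(v j₀, 1) ∈ N S` is not in `dᗮ × 0`, so
`finrank (N S) = 4 = |S|` and `N S = dᗮ × 0 + ℝ (v j₀, 1)`; for `j ∈ S` then `(v j, 1) = (w, 0) + c (v j₀, 1)`, `c = 1`,
`⟪v j, d⟫ = ⟪v j₀, d⟫`: all heights are equal, and `|S| = 4`, a contradiction.
(2) The subspaces `U S = {w ∈ dᗮ | (w,0) ∈ N S}` of the space `dᗮ`, `S` good, are proper, so there is one `w ∈ dᗮ` in none
of them (`Subspace.biUnion_ne_univ_of_top_notMem`, finite union).  For good `S` there is at most one `τ` with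
`(v i + τ w, 1) ∈ N S` (the difference of two would be a nonzero multiple of `(w, 0)`).
(3) If `|S| = 4` and all heights in `S` are equal to `h ≠ ⟪v i, d⟫` then `(v i + τ w, 1) ∉ N S` for all `τ`, because all
`(x, c) ∈ N S` satisfy `⟪x, d⟫ = h * c`.
(4) So there is `τ > 0` with `τ * ‖w‖ < ε` such that `(a, 1) ∉ N S`, `a = v i + τ w`, for all `S` in (2), (3) (an interval
is infinite, `Set.Ioo_infinite`, `Set.Finite`).  GPos: let `S' ⊆ insert i s`, `v' = update v i a`.  If `i ∉ S'` then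
`hom v' = hom v` on `S'`.  If `i ∈ S'`, `S = S'.erase i ⊆ s`, `|S| ≤ 4`: `LinearIndepOn ℝ (hom v') S` by `GPos v d s`
(`|S| ≤ 4`), and `hom v' i = (a, 1) ∉ N S`: if `S` is not good then `|S| = 4`, `|S'| = 5`, all heights in `S` are equal, and
by hypothesis `S'` has two different heights, so (3) applies.  `LinearIndepOn.insert`. -/
def StmtStep : Prop := ∀ (ι : Type) [DecidableEq ι] (v : ι → E4) (d : E4) (s : Finset ι) (i : ι)
  (ε : ℝ), d ≠ 0 → 0 < ε → i ∉ s → GPos v d s →
  ∃ a : E4, ⟪a, d⟫_ℝ = ⟪v i, d⟫_ℝ ∧ ‖a - v i‖ < ε ∧ GPos (Function.update v i a) d (insert i s)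

/-- **StmtGen.** All points in general position (uses `StmtStep`).
PROOF. Prove by induction on the finset `s`: there is `v'` with the two properties and `GPos v' d s`, and `v' = v`
outside `s`.  (`GPos v d ∅`: `S = ∅`, `linearIndepOn_empty`.)  The step from `s` to `insert i s` is `hStep` for `v'`, `v' i = v i`,
and `Function.update v' i a`. -/
def StmtGen : Prop := ∀ (ι : Type) [Fintype ι] [DecidableEq ι] (v : ι → E4) (d : E4) (ε : ℝ),
  d ≠ 0 → 0 < ε → ∃ v' : ι → E4, (∀ i, ⟪v' i, d⟫_ℝ = ⟪v i, d⟫_ℝ) ∧ (∀ i, ‖v' i - v i‖ < ε) ∧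
    GPos v' d univ

/-- **StmtSimple.** General position and small extreme layers give a simple polytope (uses nothing).
PROOF. Suppose `5 ≤ |ac v x|`.  (a) Two elements `i, j` of `ac v x` with different heights: choose `{i,j} ⊆ S ⊆ ac v x`,
`|S| = 5` (`Finset.exists_subsuperset_card_eq`); `hom v` is linearly independent on `S`, so it spans `E4 × ℝ`
(dimension 5), but the functional `φ (y, c) = ⟪y, x⟫ - c` vanishes on it and `φ (0, 1) ≠ 0`, a contradiction.
(b) So all elements of `ac v x` have the height `h` of one of them, `i₀`; `ac v x ⊆ cls v d i₀`, so by hypothesis there are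
`j`, `j'` with `h < ⟪v j, d⟫`, `⟪v j', d⟫ < h`.  Let `S ⊆ ac v x`, `|S| = 4`; `hom v` is linearly independent on `S`, both `φ` and
`ψ (y, c) = ⟪y, d⟫ - h c` vanish on its span of dimension 4, so `ψ = λ φ` (the annihilator has dimension 1, or: choose
`e` with `φ e ≠ 0`, the span of `S` and `e` is everything, `ψ` and `(ψ e/φ e) φ` agree on it).  So `d = λ x`, `h = λ`,
`λ ≠ 0` (`d ≠ 0`), and `⟪v l, d⟫ = h ⟪v l, x⟫` for all `l`.  If `h > 0`: `⟪v j, d⟫ ≤ h`; if `h < 0`: `⟪v j', d⟫ ≥ h`. -/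
def StmtSimple : Prop := ∀ (ι : Type) [Fintype ι] [DecidableEq ι] (v : ι → E4) (d : E4), d ≠ 0 →
  GPos v d univ →
  (∀ i, (cls v d i).card ≤ 4 ∨
    ((∃ j, ⟪v i, d⟫_ℝ < ⟪v j, d⟫_ℝ) ∧ ∃ j, ⟪v j, d⟫_ℝ < ⟪v i, d⟫_ℝ)) →
  ∀ x ∈ Po v, (ac v x).card ≤ 4

/-! ### persistence -/

/-- **StmtBdd.** (uses nothing)
PROOF. Let `Po v ⊆ closedBall 0 R`, `R > 0`.  For `‖y‖ = 1` there is `i` with `1 / (R + 1) ≤ ⟪v i, y⟫` (otherwise
`(R + 1) • y ∈ Po v`).  Take `ε = 1 / (2 (R + 1))`.  For `y' ∈ Po v'`, `y' ≠ 0`, `y = y' / ‖y'‖` and this `i`: `⟪v' i, y⟫ ≥ ε`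
(`real_inner_le_norm`), so `ε ‖y'‖ ≤ ⟪v' i, y'⟫ ≤ 1`. -/
def StmtBdd : Prop := ∀ (ι : Type) [Fintype ι] (v : ι → E4), Bornology.IsBounded (Po v) →
  ∃ ε : ℝ, 0 < ε ∧ ∀ v' : ι → E4, (∀ i, ‖v' i - v i‖ < ε) → Bornology.IsBounded (Po v')

/-- **StmtTet.** Points with linearly independent active set persist (uses nothing).
PROOF. Let `T = ac v x`.  As `v` is linearly independent on `T`, there are `y k`, `k ∈ T`, with `⟪v i, y k⟫ = 1` for `i = k` and `0`
for `i ≠ k` (`i, k ∈ T`; the map `y ↦ (⟪v i, y⟫)_(i ∈ T)` is surjective: otherwise a nonzero linear form `∑ c_i z_i`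
vanishes on its image, `∑ c_i v i = 0`).  For `v' : ι → E4` let `M v'` be the `T × T` matrix `⟪v' i, y k⟫`; it is continuous
in `v'`, `M v = 1`, `det (M v) = 1`.  Put `c v' = (det (M v'))⁻¹ • adjugate (M v') *ᵥ r v'`, `r v' i = 1 - ⟪v' i, x⟫`
(`r v = 0`), `X v' = x + ∑ k, c v' k • y k`.  If `det (M v') ≠ 0` then `M v' *ᵥ c v' = r v'` (`Matrix.mul_adjugate`), that is
`⟪v' i, X v'⟫ = 1` for `i ∈ T`.  `X` is continuous at `v`, `X v = x`.  So for all `v'` in a neighbourhood of `v` (in `ι → E4`;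
`Metric.eventually_nhds_iff`, `dist_pi_lt_iff`): `det (M v') ≠ 0` and `⟪v' j, X v'⟫ < 1` for the finitely many `j ∉ T`. -/
def StmtTet : Prop := ∀ (ι : Type) [Fintype ι] [DecidableEq ι] (v : ι → E4) (x : E4), x ∈ Po v →
  LinearIndepOn ℝ v (ac v x : Set ι) →
  ∃ ε : ℝ, 0 < ε ∧ ∀ v' : ι → E4, (∀ i, ‖v' i - v i‖ < ε) → ∃ x' ∈ Po v', ac v' x' = ac v x

/-- **StmtPersist.** (uses `StmtBdd`, `StmtTet`)
PROOF. For each of the finitely many `T : Finset ι` such that there is `x ∈ Po v` with `ac v x = T` and independent `v` on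
`T` choose the `ε` of `StmtTet`; take the minimum of these and of the `ε` of `StmtBdd`. -/
def StmtPersist : Prop := ∀ (ι : Type) [Fintype ι] [DecidableEq ι] (v : ι → E4),
  Bornology.IsBounded (Po v) → ∃ ε : ℝ, 0 < ε ∧ ∀ v' : ι → E4, (∀ i, ‖v' i - v i‖ < ε) →
    Bornology.IsBounded (Po v') ∧ ∀ x ∈ Po v, LinearIndepOn ℝ v (ac v x : Set ι) →
      ∃ x' ∈ Po v', ac v' x' = ac v x

/-- **StmtCap.** A point above the highest layer (uses `StmtStep`).
PROOF. `A = cls v d i₀`, `h = ⟪v i₀, d⟫`.  `0 < h`: some `j` has `0 < ⟪v j, d⟫` (otherwise `t • d ∈ Po v` for all `t ≥ 0`, not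
bounded).  `c = |A|⁻¹ ∑_(i ∈ A) v i`, `⟪c, d⟫ = h`.  For every `T : Finset ι` with `|T| ≤ 4` for which there is `x ∈ Po v` with
`ac v x = T` choose such a point `x_T`.  `A ⊄ T` (`|A| ≥ 5`), so `⟪c, x_T⟫ < 1` (average of numbers at most 1, not all 1).
As there are finitely many `T`, there is `δ ∈ (0, 1)` with `(1 + δ) ⟪c, x_T⟫ < 1` for all of them; `a₀ = (1 + δ) c`; and `ε > 0` such that
`‖a - a₀‖ < ε` implies `⟪a, x_T⟫ < 1` for all `T`.  `hStep` for the index type `Option ι`, the family `opt a₀ v`, the set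
`univ.map Function.Embedding.some` and `i = none`: `GPos (opt a₀ v) d (univ.map some)` follows from `GPos v d univ` (every subset
is `S.map some`; `LinearIndepOn` is transported along `some`, for example by `LinearIndepOn.comp`/`linearIndepOn_iff_image` or by
unfolding to `LinearIndependent` and `LinearIndependent.comp` with an equivalence).  It gives `a`, and
`Function.update (opt a₀ v) none a = opt a v`, `insert none (univ.map some) = univ`.  `⟪a, d⟫ = (1 + δ) h > h`.  Bounded: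
`Po (opt a v) ⊆ Po v`.  `{none}`: `x = (⟪a, d⟫)⁻¹ • d`, `⟪v i, x⟫ = ⟪v i, d⟫ / ⟪a, d⟫ < 1`.  Last part: `x' = x_T` for
`T = ac v x`. -/
def StmtCap : Prop := ∀ (ι : Type) [Fintype ι] [DecidableEq ι] (v : ι → E4) (d : E4) (i₀ : ι), d ≠ 0 →
  GPos v d univ → Bornology.IsBounded (Po v) → (∀ j, ⟪v j, d⟫_ℝ ≤ ⟪v i₀, d⟫_ℝ) →
  5 ≤ (cls v d i₀).card →
  ∃ a : E4, GPos (opt a v) d univ ∧ (∀ i, ⟪v i, d⟫_ℝ < ⟪a, d⟫_ℝ) ∧
    Bornology.IsBounded (Po (opt a v)) ∧ (∃ x ∈ Po (opt a v), ac (opt a v) x = {none}) ∧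
    ∀ x ∈ Po v, (ac v x).card ≤ 4 →
      ∃ x' ∈ Po (opt a v), ac (opt a v) x' = (ac v x).map Function.Embedding.some

/-- **StmtRed.** Reduction to a simple polytope (uses `StmtGen`, `StmtSimple`, `StmtPersist`, `StmtCap`).
PROOF. `hPersist` gives `ε`, `hGen` gives `v'` with the same heights, `GPos v' d univ`, `Po v'` bounded, and for all `x ∈ Po v`
with independent active set an `x' ∈ Po v'` with `ac v' x' = ac v x` (so also for `{i}`: `v i ≠ 0`).  Such active sets
have at most 4 elements (dimension 4).  `ι` is not empty (otherwise `Po v` is everything, not bounded).  Let `i₀` have the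
largest height.  If its layer has at most 4 points put `v₁ = v'` (`κ₁ = ι`), otherwise `v₁ = opt a v'` (`κ₁ = Option ι`) by
`hCap`.  Then the same for `-d` (`GPos v d s ↔ GPos v (-d) s`) with the lowest layer of `v₁`, it gives `w`.  It is useful to
prove one step as a lemma: for every `(κ, w)` with `GPos w d univ`, bounded, there is `(κ', w', e')` with the same
properties, at most one more index, at most one more height, all active sets with at most 4 elements kept (mapped by `e'`), all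
`{k}` active sets of points, and such that the layer of every highest index of `w'` has at most 4 elements; the layers of the old
indices do not change (the height of a new point is larger than all others).  As the polyhedra are bounded, the largest height
is positive and the smallest is negative (`t • d` is not in `Po` for some `t > 0` and for some `t < 0`), so highest and lowest layer are
different and the second step (`-d`) does not change the highest layer.  Then `hSimple`: the layer of an index which is neither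
highest nor lowest has indices above and below.  `SP w (fun _ => 1)` is the pair (bounded, simple). -/
def StmtRed : Prop := ∀ (ι : Type) [Fintype ι] [DecidableEq ι] (v : ι → E4) (d : E4), d ≠ 0 →
  Bornology.IsBounded (Po v) → (∀ i, ∃ x ∈ Po v, ac v x = {i}) →
  ∃ (κ : Type) (_ : Fintype κ) (_ : DecidableEq κ) (e : ι ↪ κ) (w : κ → E4),
    Fintype.card κ ≤ Fintype.card ι + 2 ∧
    (univ.image fun k => ⟪w k, d⟫_ℝ).card ≤ (univ.image fun i => ⟪v i, d⟫_ℝ).card + 2 ∧
    SP w (fun _ => 1) ∧ (∀ k, ∃ x ∈ Po w, ac w x = {k}) ∧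
    ∀ x ∈ Po v, LinearIndepOn ℝ v (ac v x : Set ι) → ∃ x' ∈ Po w, ac w x' = (ac v x).map e

/-! ### the 2-faces with simple vertices -/

/-- **StmtExt.** The vertices of `Po v` (uses nothing).
PROOF. See `TCC.mem_extreme` in `Pool/Agent/TCC/Prim.lean` (the same statement for `Fin n` and `b`; copy it). -/
def StmtExt : Prop := ∀ (ι : Type) [Fintype ι] (v : ι → E4) (x : E4),
  x ∈ Set.extremePoints ℝ (Po v) ↔ x ∈ Po v ∧ ∀ y : E4, (∀ i ∈ ac v x, ⟪v i, y⟫_ℝ = 0) → y = 0

/-- **StmtFaceV.** Every face has a vertex (uses `StmtExt`).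
PROOF. Among the `x' ∈ Po v` with `ac v x ⊆ ac v x'` take one with `|ac v x'|` maximal.  If it is not extreme, `hExt` gives
`y ≠ 0` with `⟪v i, y⟫ = 0` for `i ∈ ac v x'`; moving along `y` until a further inequality becomes an equality (see
`QMark.move` in `Pool/Agent/QMark/Geo.lean`, which needs only that `Po v` is bounded: copy it) gives a point with a larger
active set. -/
def StmtFaceV : Prop := ∀ (ι : Type) [Fintype ι] [DecidableEq ι] (v : ι → E4),
  Bornology.IsBounded (Po v) → ∀ x ∈ Po v, ∃ x' ∈ Set.extremePoints ℝ (Po v), ac v x ⊆ ac v x'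

/-- **StmtFlip.** The other end of an edge at a simple vertex (uses `StmtExt`).
PROOF. `ac v x = insert d y` (`d ∉ y`).  `v` on `y` spans a space of dimension 3, so there is `r ≠ 0` with `⟪v i, r⟫ = 0` for
`i ∈ y` (`QMark.exists_orth`); `⟪v d, r⟫ ≠ 0` by independence of the four vectors (they span `E4`); replace `r` by `-r` so that
`⟪v d, r⟫ < 0`.  Move from `x` in the direction `r` until some `j ∉ ac v x` becomes active (`QMark.move`, copy as in `StmtFaceV`):
`x' = x + t • r ∈ Po v`, `t > 0`, `y ⊆ ac v x'`, `j ∈ ac v x'`, `j ∉ ac v x`.  `⟪v j, r⟫ > 0` (`⟪v j, x⟫ < 1`).  `x'` is extreme by `hExt`: if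
`⟪v i, z⟫ = 0` for all `i ∈ ac v x'` then `z` is orthogonal to `v` on `y`, so `z = c • r` (`c = ⟪v d, z⟫ / ⟪v d, r⟫`; the difference
is orthogonal to the four independent vectors), and `0 = ⟪v j, z⟫ = c ⟪v j, r⟫` gives `c = 0`.  See `QMark.edge`. -/
def StmtFlip : Prop := ∀ (ι : Type) [Fintype ι] [DecidableEq ι] (v : ι → E4),
  Bornology.IsBounded (Po v) → ∀ x ∈ Po v, (ac v x).card = 4 → LinearIndepOn ℝ v (ac v x : Set ι) →
  ∀ y ⊆ ac v x, y.card = 3 → ∃ x' ∈ Set.extremePoints ℝ (Po v), y ⊆ ac v x' ∧ ac v x' ≠ ac v x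

/-- **StmtKeep.** A 2-face with simple vertices keeps its number of vertices (uses `StmtExt`, `StmtFaceV`, `StmtFlip`).
PROOF. `X = {x | x ∈ Set.extremePoints ℝ (Po v) ∧ s ⊆ ac v x}`; for `x ∈ X`: `|ac v x| = 4`, and `v` is linearly independent on
`ac v x` by `hExt` (four vectors without common orthogonal vector span `E4`;
`linearIndependent_iff_card_eq_finrank_span`, orthogonal complement).  `x ↦ ac v x` is injective on `X` (`hExt` for the
difference).  `𝒯 = {ac v x | x ∈ X}` (a finite set), not empty by `hFaceV`.  By `hw` the set `T.map e` is in `tets w 1` for `T ∈ 𝒯`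
(`QMark.mem_tets`).  Claim: the `t ∈ tets w 1` with `s.map e ⊆ t` are exactly the `T.map e`, `T ∈ 𝒯`.
(*) Let `T ∈ 𝒯`, `z₀ ∈ T \ s`, `y = insert z₀ s`, `|y| = 3`.  `hFlip` gives `T' ∈ 𝒯`, `T' ≠ T`, `y ⊆ T'`.  By `QMark.card_three` for `w`
exactly two elements of `tets w 1` contain `y.map e`; `T.map e ≠ T'.map e` are two; so every `t ∈ tets w 1` with
`y.map e ⊆ t` is `T.map e` or `T'.map e`.
`KAL.conn` for `w`, `s.map e` and `Z = {e z₀ | z₀ ∈ T \ s, T ∈ 𝒯}`: `Z ⊆ lk w 1 (s.map e)`, not empty, closed by (*).  So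
`Z = lk w 1 (s.map e)`, and every `t ∈ tets w 1`, `s.map e ⊆ t`, contains an element of `t \ s.map e` (4 > 2), which is in `lk = Z`, so by (*)
`t` is in the list.  `QMark.size` is the number of these `t`, `Finset.card_image_of_injOn`, `Set.ncard`. -/
def StmtKeep : Prop := ∀ (ι κ : Type) [Fintype ι] [DecidableEq ι] [Fintype κ] [DecidableEq κ]
  (v : ι → E4) (w : κ → E4) (e : ι ↪ κ), Bornology.IsBounded (Po v) → SP w (fun _ => 1) →
  (∀ x ∈ Po v, LinearIndepOn ℝ v (ac v x : Set ι) → ∃ x' ∈ Po w, ac w x' = (ac v x).map e) →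
  ∀ s : Finset ι, s.card = 2 → (∃ x ∈ Po v, ac v x = s) →
  (∀ x ∈ Set.extremePoints ℝ (Po v), s ⊆ ac v x → (ac v x).card = 4) →
  s.map e ∈ faces w (fun _ => 1) 2 ∧
  size w (fun _ => 1) (s.map e) = {x | x ∈ Set.extremePoints ℝ (Po v) ∧ s ⊆ ac v x}.ncard

/-! ### the 2-faces at a vertex -/

/-- **StmtAtV.** The number of 2-faces containing `x` (uses nothing; `TPH.Closed.edge_lin`).
PROOF. If `ac v x` is empty then so is `S`.  Otherwise `x ≠ 0`.  `TPH.Tr.exists_coord` (file `TPH/TrB.lean`) for the functional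
`y ↦ ⟪x, y⟫` gives `Θ : E4 ≃ₗ[ℝ] (E × ℝ)` with `(Θ y).2 = ⟪x, y⟫`.  Let `f i = (Θ (v i)).1`, `A = (ac v x).image f`.  For `i ∈ ac v x`:
`(Θ (v i)).2 = 1`, so `f` is injective on the `v i` of `ac v x` (and `v` is injective: `{i}` is an active set).  For `z ∈ Po v` and the
functional `⟪·, z⟫` there are `u : E`, `c : ℝ` with `⟪v i, z⟫ = ip (f i) u + c` for all `i ∈ ac v x` (`TCC.rep`, `TCC.val_rep` in
`TCC/Prim.lean`, or: `y ↦ ⟪Θ.symm (y, 0), z⟫` is linear in `y : E`, so it is `ip · u`).  So `ac v z = {i}` gives `Mx A u = {f i}`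
(`ConvPos A`), and `ac v z = s ⊆ ac v x`, `|s| = 2`, gives `Mx A u = s.image f` (the value 1 is attained and is the maximum),
an element of `Ed A` (`TPH.mem_Ed`, `card = 2` by injectivity).  `s ↦ s.image f` is injective on these `s`.  So
`|S| ≤ |Ed A| ≤ 12 |A| ≤ 12 |ac v x|` (`TPH.Closed.edge_lin`). -/
def StmtAtV : Prop := ∀ (ι : Type) [Fintype ι] [DecidableEq ι] (v : ι → E4),
  (∀ i, ∃ x ∈ Po v, ac v x = {i}) → ∀ x ∈ Po v, ∀ S : Finset (Finset ι),
  (∀ s ∈ S, s.card = 2 ∧ s ⊆ ac v x ∧ ∃ y ∈ Po v, ac v y = s) → S.card ≤ 12 * (ac v x).card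

/-! ### the weighted count of the non-simple vertices -/

/-- **StmtLargeW.** Facets with at least three vertices in the layer `t` (uses nothing; `TPH.Closed.edge_lin`).
PROOF. As `TPH.Tr.count_three` (file `TPH/TrA.lean`): `F g = Mx (img V t 1) (u g) ∈ Faces (img V t 1)`,
`|F g| = |Zr V (u g) (s g) (q g) t|` (`Tr.card_Mx`), every value `F` is taken at most twice (`hfib` there).  So the sum is at most
`2 ∑_(F ∈ Faces (img V t 1)) |F|` (`Finset.sum_fiberwise_of_maps_to`), and `TPH.Closed.edge_lin` says that this sum over the faces is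
at most `6 |img V t 1| = 6 |lay V t|`. -/
def StmtLargeW : Prop := ∀ (ι : Type) (V : Finset (TPH.E × ℝ)) (G : Finset ι) (u : ι → TPH.E)
  (s q : ι → ℝ), TPH.Tr.Data V G u s q → ∀ (t : ℝ) (S : Finset ι), S ⊆ G →
  (∀ g ∈ S, u g ≠ 0 ∧ 3 ≤ (KPH.Zr V (u g) (s g) (q g) t).card) →
  ∑ g ∈ S, (KPH.Zr V (u g) (s g) (q g) t).card ≤ 12 * (TPH.Tr.lay V t).card

/-- **StmtZeroW.** Facets which are a layer (uses nothing).
PROOF. For `g ∈ S`: `s g ≠ 0` (`Data.nz`) and the vertices `vt ..` are the `v ∈ V` with `v.2 = q g / s g`.  For different `g` these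
heights are different (`Data.inj`, see `Tr.count_zero`), so the sets `vt ..` are disjoint subsets of `V`
(`Finset.card_biUnion`, `Finset.card_le_card`). -/
def StmtZeroW : Prop := ∀ (ι : Type) (V : Finset (TPH.E × ℝ)) (G : Finset ι) (u : ι → TPH.E)
  (s q : ι → ℝ), TPH.Tr.Data V G u s q → ∀ (S : Finset ι), S ⊆ G → (∀ g ∈ S, u g = 0) →
  ∑ g ∈ S, (vt V (u g) (s g) (q g)).card ≤ V.card

/-- The middle vertices of a facet which are alone in their layer. -/
def IsMed (V : Finset (TPH.E × ℝ)) (u : TPH.E) (s q : ℝ) (c : TPH.E × ℝ) : Prop :=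
  KPH.Zr V u s q c.2 = {c} ∧ ∀ σ : ℝ, σ = 1 ∨ σ = -1 → ∃ z ∈ KPX.sd V σ c, ∃ z' ∈ KPX.sd V σ c,
    z ≠ z' ∧ TPH.Tr.val u s z = q ∧ TPH.Tr.val u s z' = q

/-- The layers with two vertices between two other layers with vertices. -/
def IsMid (V : Finset (TPH.E × ℝ)) (u : TPH.E) (s q : ℝ) (T : Finset ℝ) (t : ℝ) : Prop :=
  (KPH.Zr V u s q t).card = 2 ∧ ∃ t₁ ∈ T, ∃ t₃ ∈ T, KPH.Btw t₁ t t₃ ∧
    (KPH.Zr V u s q t₁).Nonempty ∧ (KPH.Zr V u s q t₃).Nonempty

/-- **StmtPairs.** The count of the pairs (facet, middle vertex alone in its layer).  (Proved by helper68 and helper32 in another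
form; not a module.) -/
def StmtPairs : Prop := ∃ K : ℝ, 0 < K ∧ ∀ (ι : Type) (V : Finset (TPH.E × ℝ)) (G : Finset ι)
  (u : ι → TPH.E) (s q : ι → ℝ), TPH.Tr.Data V G u s q → ∀ T : Finset ℝ, (∀ v ∈ V, v.2 ∈ T) →
  ∀ (S : Finset (ι × (TPH.E × ℝ))),
  (∀ p ∈ S, p.1 ∈ G ∧ u p.1 ≠ 0 ∧ p.2 ∈ V ∧ IsMed V (u p.1) (s p.1) (q p.1) p.2) →
  (S.card : ℝ) ≤ K * (T.card : ℝ) ^ (3 / 2 : ℝ) * (V.card : ℝ) ^ (3 / 2 : ℝ)

open Classical in
/-- **StmtDecomp.** The vertices of one facet (uses nothing).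
PROOF. With `z t = |Zr V u s q t|`: `|vt V u s q| = ∑_(t ∈ T) z t` (fibres of `Prod.snd`).  Layers with `3 ≤ z t`: first
term.  Layers with `z t = 2` and `IsMid`: second term.  Layers `t` with `z t = 2` not `IsMid`: no nonempty layer of `T` below or none
above `t`, so `t` is the lowest or the highest nonempty layer: at most 2 layers, 4 vertices.  Layers with `z t = 1`,
`Zr .. t = {c}`: if `IsMed`, third term.  Otherwise for `σ = 1` or `σ = -1` at most one vertex of the facet is in `sd V σ c`; for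
each of the two `σ` there are at most two such layers (for three of them, the extreme one, `c`, has the other two vertices in
`sd V σ c`): at most 4 vertices.  In total `4 + 4 = 8`. -/
def StmtDecomp : Prop := ∀ (V : Finset (TPH.E × ℝ)) (T : Finset ℝ) (u : TPH.E) (s q : ℝ),
  (∀ v ∈ V, v.2 ∈ T) →
  (vt V u s q).card ≤ 8 + (∑ t ∈ T.filter (fun t => 3 ≤ (KPH.Zr V u s q t).card),
    (KPH.Zr V u s q t).card) + 2 * (T.filter (fun t => IsMid V u s q T t)).card +
    (V.filter (fun c => IsMed V u s q c)).card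

/-- **StmtWeight.** The weighted bound (uses `StmtPairs`, `StmtLargeW`, `StmtZeroW`, `StmtDecomp` and, as hypotheses,
`hMid : KPH.StmtMidD`, `hTot : KPX.StmtTotalX`).
PROOF. As `Pool/Agent/KPX/TotalX.lean`: it is enough to take `T = V.image Prod.snd` (if `G` is not empty then `V` is not empty by `Data.five`;
`1 ≤ |T| ≤ |V|`).  The facets with `u g = 0`: `hZeroW`.  For the others sum `hDecomp`: `8 |G| ≤ 8 K k^(3/2) n^(3/2)` (`hTot`); first term:
exchange the sums (`Finset.sum_comm'` or `Finset.sum_filter`), `∑_(t ∈ T) ∑_(g, 3 ≤ z t) z t ≤ ∑_t 12 |lay V t| = 12 n` (`hLargeW`); second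
term: the number of pairs `(g, t)` with `IsMid` is at most the number of `(g, t₁, t, t₃)`, at most
`∑_(t₁, t, t₃) (24 |lay V t| + 2 |lay V t₁|) = 26 k² n` (`hMid` as for `bb` in `KPX/TotalX.lean`); third term: `hPairs` for the set of the pairs
`(g, c)` with `g ∈ G`, `u g ≠ 0`, `c ∈ V`, `IsMed`.  `n, k² n ≤ k^(3/2) n^(3/2)` as there (`1 ≤ k ≤ n`); the lemmas `sum_lay`, `sum3'`, `pow_eq` of
`KPX.MTotalX` can be used. -/
def StmtWeight : Prop := ∃ K : ℝ, 0 < K ∧ ∀ (ι : Type) (V : Finset (TPH.E × ℝ)) (G : Finset ι)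
  (u : ι → TPH.E) (s q : ι → ℝ), TPH.Tr.Data V G u s q → ∀ T : Finset ℝ, (∀ v ∈ V, v.2 ∈ T) →
  ((∑ g ∈ G, (vt V (u g) (s g) (q g)).card : ℕ) : ℝ) ≤
    K * (T.card : ℝ) ^ (3 / 2 : ℝ) * (V.card : ℝ) ^ (3 / 2 : ℝ)

/-- **StmtData.** The facet data of the vertices on at least five facets (uses `StmtExt`).
PROOF. `TPH.Tr.exists_coord` for the functional `⟪d, ·⟫ ≠ 0` gives `Θ : E4 ≃ₗ[ℝ] (E × ℝ)`, `(Θ y).2 = ⟪d, y⟫`.  `f i = Θ (v i)`,
`V = univ.image f`, `G` the finite set of the extreme points with `5 ≤ |ac v x|` (finite: `ac v` is injective on the extreme points by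
`hExt`), `(u x, s x) = TCC.rep Θ x`, `q x = 1` (`Pool/Agent/TCC/Prim.lean`; `TCC.val_rep : val (rep Θ x).1 (rep Θ x).2 (Θ y) = ⟪y, x⟫`, `rep_inj`,
`rep_surj`, `rep_sub_smul`).  See the proof of `TCC.pd` for `nn`, `exp`, `span` and `inj`: `nn` is `x ∈ Po v`; `exp`: the point `z` with
`ac v z = {i}`; `span`: `(u', s') = rep Θ y`; the hypothesis says `⟪v i, y - q' x⟫ = 0` for `i ∈ ac v x`, so `y = q' • x` by `hExt`, `k = q'`;
`inj`: the hypothesis says `ac v g ⊆ ac v g'`, so `g' - g` is orthogonal to `v` on `ac v g`, `g' = g`; `nz`: if `u g = 0` and `s g = 0` then all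
values are `0`, but `|ac v g| ≥ 5`; `five`: the images of `ac v g` (`f` is injective); `two`: let `v a, v b, v c` be the three
different points and `g₁, g₂, g₃` three different elements of `S`, so `⟪v a, g_i⟫ = ⟪v b, g_i⟫ = ⟪v c, g_i⟫ = 1`.  `v a, v b, v c` are linearly
independent: a relation `α v a + β v b + γ v c = 0` gives `α + β + γ = 0` (pair with `g₁`); pairing with the exposing point `z` of `a`
(`ac v z = {a}`) gives `α + β ⟪v b, z⟫ + γ ⟪v c, z⟫ = 0` with both numbers `< 1`, and so on for `b`, `c`; if not all coefficients are 0, one of them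
has a sign different from the two others (or one is zero): say `α > 0`, `β, γ ≤ 0` (up to sign and order):
`0 = α + β ⟪v b, z⟫ + γ ⟪v c, z⟫ > α + β + γ = 0`, a contradiction.  So `{g | ⟪v a, g⟫ = ⟪v b, g⟫ = ⟪v c, g⟫ = 1}` is a line `g₁ + ℝ r`
(`QMark.exists_orth`, dimensions), one of the three points is strictly between the two others, which contradicts that it is
extreme.  `|vt ..| = |ac v x|` by injectivity of `f`. -/
def StmtData : Prop := ∀ (ι : Type) [Fintype ι] [DecidableEq ι] (v : ι → E4) (d : E4), d ≠ 0 →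
  Bornology.IsBounded (Po v) → (∀ i, ∃ x ∈ Po v, ac v x = {i}) →
  ∃ (V : Finset (TPH.E × ℝ)) (f : ι → TPH.E × ℝ) (G : Finset E4) (u : E4 → TPH.E)
    (s q : E4 → ℝ), TPH.Tr.Data V G u s q ∧ V.card = Fintype.card ι ∧
    (∀ i, f i ∈ V ∧ (f i).2 = ⟪v i, d⟫_ℝ) ∧ (∀ y ∈ V, ∃ i, f i = y) ∧
    (∀ x, x ∈ G ↔ x ∈ Set.extremePoints ℝ (Po v) ∧ 5 ≤ (ac v x).card) ∧
    ∀ x ∈ G, (vt V (u x) (s x) (q x)).card = (ac v x).card

end KAG
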